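import Pool.Agent.H18.KG.Nt

/-!
[H18 KG CN] weight 1, MP_9fed08_al (short).  A commutator `c = [b, y]` commuting with `b` is nilpotent if
`dim V < p` (Jacobson).

`c ^ (k + 1) = (b * y - y * b) * c ^ k`, `trace (b * y * c ^ k) = trace (y * c ^ k * b) = trace (y * b * c ^ k)`
(`LinearMap.trace_mul_comm`, `b` commutes with `c ^ k`), so all `trace (c ^ (k + 1)) = 0`; `nil_of_trace`.
-/

set_option autoImplicit false

namespace H18.KG

open Module

theorem comm_nil (p : ℕ) [Fact p.Prime] {K : Type} [Field K] [CharP K p] {V : Type}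
    [AddCommGroup V] [Module K V] [FiniteDimensional K V] (hn : finrank K V < p) (b y : End K V)
    (hc : b * (b * y - y * b) = (b * y - y * b) * b) : IsNilpotent (b * y - y * b) := by
  obtain ⟨c, hcd⟩ : ∃ c, c = b * y - y * b := ⟨_, rfl⟩
  rw [← hcd] at hc ⊢
  apply nil_of_trace p hn
  intro k hk
  obtain ⟨j, rfl⟩ : ∃ j, k = j + 1 := ⟨k - 1, by omega⟩
  have hcomm : Commute b c := hc
  have h1 : b * c ^ j = c ^ j * b := (hcomm.pow_right j).eq
  have h2 : c ^ (j + 1) = b * (y * c ^ j) - (y * c ^ j) * b := by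
    rw [mul_assoc y, ← h1, pow_succ', ← mul_assoc, ← mul_assoc, ← sub_mul, ← hcd]
  rw [h2, map_sub, LinearMap.trace_mul_comm, sub_self]

end H18.KG
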