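import Pool.Agent.H18.KG.Defs
import Pool.Agent.H18.KG.Cn

/-!
[H18 KG AI] weight 1, MP_9fed08_al.  An ideal acting commutatively on an irreducible module of dimension `< p`
acts by scalars (import used as given: `comm_nil`).

`S = {b ∈ B | IsNilpotent (ρ b)}`.  For `b ∈ B`, `x ∈ H`: `⁅b, x⁆ ∈ B`, so `ρ ⁅b, x⁆ = ρ b * ρ x - ρ x * ρ b`
commutes with `ρ b`, and is nilpotent by `comm_nil`: `⁅b, x⁆ ∈ S`.
Common kernel: `W = {v | ∀ b ∈ S, ρ b v = 0}` is nonzero: among the nonzero subspaces `U` of `V` with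
`ρ b (U) ≤ U` for all `b ∈ S` take one of minimal dimension; for `b ∈ S` the subspace `ρ b (U)` is again stable
(the `ρ b` commute) and it is not `U` (`ρ b` nilpotent, `U ≠ ⊥`), so it is `⊥` by minimality: `U ≤ W`.
`W` is invariant under `ρ x`: for `v ∈ W`, `b ∈ S`: `ρ b (ρ x v) = ρ x (ρ b v) + ρ ⁅b, x⁆ v = 0`.  So `W = ⊤`, i.e.
`ρ b = 0` for `b ∈ S`; in particular `ρ ⁅b, x⁆ = 0` for `b ∈ B`: `ρ b` commutes with all `ρ x`.  An eigenspace
of `ρ b` (`Module.End.exists_eigenvalue`, `K` algebraically closed, `V` nontrivial) is invariant and nonzero,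
so it is `⊤`.
-/

set_option autoImplicit false

namespace H18.KG

open Module

private theorem ai_ker {K : Type} [Field K] {V : Type} [AddCommGroup V] [Module K V]
    [FiniteDimensional K V] (T : Set (End K V)) (hT : ∀ f ∈ T, IsNilpotent f)
    (hc : ∀ f ∈ T, ∀ g ∈ T, f * g = g * f) :
    ∀ (n : ℕ) (U : Submodule K V), finrank K U = n → U ≠ ⊥ → (∀ f ∈ T, ∀ u ∈ U, f u ∈ U) →
      ∃ v ∈ U, v ≠ 0 ∧ ∀ f ∈ T, f v = 0 := by
  intro n
  induction n using Nat.strong_induction_on with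
  | _ n ih =>
    intro U hn hU hst
    by_cases hall : ∀ f ∈ T, ∀ u ∈ U, f u = 0
    · obtain ⟨v, hv, hv0⟩ := (Submodule.ne_bot_iff U).1 hU
      exact ⟨v, hv, hv0, fun f hf => hall f hf v hv⟩
    · push Not at hall
      obtain ⟨f, hf, u, hu, hfu⟩ := hall
      have hle : U.map f ≤ U := by
        rintro _ ⟨w, hw, rfl⟩
        exact hst f hf w hw
      have hne : U.map f ≠ U := by
        intro heq
        obtain ⟨k, hk⟩ := hT f hf
        have h1 : ∀ m : ℕ, U.map (f ^ m) = U := by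
          intro m
          induction m with
          | zero => rw [pow_zero]; exact Submodule.map_id U
          | succ m ihm =>
            rw [pow_succ]
            have h2 : f ^ m * f = (f ^ m).comp f := rfl
            rw [h2, Submodule.map_comp, heq, ihm]
        have h2 := h1 k
        rw [hk, Submodule.map_zero] at h2
        exact hU h2.symm
      have hlt : finrank K (U.map f : Submodule K V) < finrank K U :=
        Submodule.finrank_lt_finrank_of_lt (lt_of_le_of_ne hle hne)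
      obtain ⟨v, hv, hv0, hv1⟩ := ih _ (hn ▸ hlt) (U.map f) rfl (by
        intro h3
        have h4 : f u ∈ U.map f := Submodule.mem_map_of_mem hu
        rw [h3, Submodule.mem_bot] at h4
        exact hfu h4) (by
        rintro g hg _ ⟨w, hw, rfl⟩
        have h3 : g (f w) = f (g w) := LinearMap.congr_fun (hc g hg f hf) w
        rw [h3]
        exact Submodule.mem_map_of_mem (hst g hg w hw))
      exact ⟨v, hle hv, hv0, hv1⟩

theorem abel_scal (p : ℕ) [Fact p.Prime] {K : Type} [Field K] [IsAlgClosed K] [CharP K p]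
    {H : Type} [LieRing H] [LieAlgebra K H] {V : Type} [AddCommGroup V] [Module K V]
    [FiniteDimensional K V] (hn : finrank K V < p) (ρ : H →ₗ[K] End K V) (hρ : H18.KC.Brk ρ)
    (hI : Irr ρ) (B : LieIdeal K H) (hB : ∀ a ∈ B, ∀ b ∈ B, ρ a * ρ b = ρ b * ρ a) :
    ∀ b ∈ B, ∃ c : K, ρ b = c • (1 : End K V) := by
  classical
  obtain ⟨hnt, hirr⟩ := hI
  -- brackets with elements of the ideal
  have hbr : ∀ b ∈ B, ∀ x : H, ⁅b, x⁆ ∈ B ∧ IsNilpotent (ρ ⁅b, x⁆) := by
    intro b hb x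
    have h1 : ⁅b, x⁆ ∈ B := lie_mem_left K H B b x hb
    refine ⟨h1, ?_⟩
    rw [hρ b x]
    apply comm_nil p hn
    rw [← hρ b x]
    exact hB b hb _ h1
  obtain ⟨T, hT⟩ : ∃ T : Set (End K V), T = {f | ∃ b ∈ B, IsNilpotent (ρ b) ∧ ρ b = f} := ⟨_, rfl⟩
  have hTn : ∀ f ∈ T, IsNilpotent f := by
    intro f hf
    rw [hT] at hf
    obtain ⟨b, -, h2, rfl⟩ := hf
    exact h2
  have hTc : ∀ f ∈ T, ∀ g ∈ T, f * g = g * f := by
    intro f hf g hg
    rw [hT] at hf hg
    obtain ⟨b, hb, -, rfl⟩ := hf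
    obtain ⟨b', hb', -, rfl⟩ := hg
    exact hB b hb b' hb'
  have htop : (⊤ : Submodule K V) ≠ ⊥ := by
    have := hnt
    exact top_ne_bot
  obtain ⟨v0, -, hv0, hv1⟩ := ai_ker T hTn hTc _ ⊤ rfl htop (fun _ _ _ _ => Submodule.mem_top)
  -- the common kernel
  obtain ⟨W, hW⟩ : ∃ W : Submodule K V, ∀ v, v ∈ W ↔ ∀ f ∈ T, f v = 0 := by
    refine ⟨⨅ f ∈ T, LinearMap.ker f, fun v => ?_⟩
    simp only [Submodule.mem_iInf, LinearMap.mem_ker]
  have hWinv : ∀ x : H, ∀ w ∈ W, ρ x w ∈ W := by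
    intro x w hw
    rw [hW] at hw ⊢
    intro f hf
    have hf' := hf
    rw [hT] at hf'
    obtain ⟨b, hb, hbn, rfl⟩ := hf'
    have h1 := hbr b hb x
    have h2 : ρ ⁅b, x⁆ ∈ T := by
      rw [hT]
      exact ⟨_, h1.1, h1.2, rfl⟩
    have h3 := hw _ h2
    rw [hρ b x, LinearMap.sub_apply, Module.End.mul_apply, Module.End.mul_apply, hw _ hf, map_zero,
      sub_zero] at h3
    exact h3
  have hWtop : W = ⊤ := by
    rcases hirr W hWinv with h1 | h1
    · exfalso
      have h2 : v0 ∈ W := (hW v0).2 hv1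
      rw [h1, Submodule.mem_bot] at h2
      exact hv0 h2
    · exact h1
  have hzero : ∀ b ∈ B, IsNilpotent (ρ b) → ρ b = 0 := by
    intro b hb hbn
    ext v
    have h1 : v ∈ W := by rw [hWtop]; exact Submodule.mem_top
    have h2 : ρ b ∈ T := by
      rw [hT]
      exact ⟨b, hb, hbn, rfl⟩
    exact (hW v).1 h1 _ h2
  intro b hb
  have := hnt
  obtain ⟨c, hc⟩ := Module.End.exists_eigenvalue (ρ b)
  refine ⟨c, ?_⟩
  have hinv : ∀ x : H, ∀ w ∈ Module.End.eigenspace (ρ b) c, ρ x w ∈ Module.End.eigenspace (ρ b) c := by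
    intro x w hw
    rw [Module.End.mem_eigenspace_iff] at hw ⊢
    have h1 := hbr b hb x
    have h2 := hzero _ h1.1 h1.2
    rw [hρ b x, sub_eq_zero] at h2
    have h3 := LinearMap.congr_fun h2 w
    rw [Module.End.mul_apply, Module.End.mul_apply, hw, map_smul] at h3
    exact h3
  obtain ⟨v, hv⟩ := hc.exists_hasEigenvector
  have hEtop : Module.End.eigenspace (ρ b) c = ⊤ := by
    rcases hirr _ hinv with h1 | h1
    · exfalso
      have h2 : v ∈ Module.End.eigenspace (ρ b) c := hv.1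
      rw [h1, Submodule.mem_bot] at h2
      exact hv.2 h2
    · exact h1
  ext w
  have h1 : w ∈ Module.End.eigenspace (ρ b) c := by rw [hEtop]; exact Submodule.mem_top
  rw [Module.End.mem_eigenspace_iff] at h1
  rw [h1, LinearMap.smul_apply, Module.End.one_apply]

end H18.KG
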