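import Mathlib

/-!
[H18 KG CU] weight 2, MP_9fed08_al (Mathlib only).  From `(ad x) ^ m = 0` to an element with cube zero.

`R = End K J`, `X = ad x`, `Y = ad y`, in the ring `R[T]` (`Polynomial R`, `T` central).
`g = ∑_{k < m} C ((k!)⁻¹ • X ^ k) * T ^ k`, `g' = ∑_{k < m} C (((-1) ^ k * (k!)⁻¹) • X ^ k) * T ^ k`.
(1) `g' * g = 1`: the coefficient of `T ^ k` (`k ≥ 1`) is `X ^ k` times `∑_{i + j = k} (-1) ^ i / (i! j!)
= (1 - 1) ^ k / k! = 0` for `k < m` (`k!` is invertible), and `0` for `k ≥ m` as `X ^ k = 0`.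
(2) `P = g * C Y * g'`: the coefficient of `T ^ k` is `∑_{i + j = k} (-1) ^ j / (i! j!) X ^ i Y X ^ j`, for `k ≤ 2 m - 2` it is
`(k!)⁻¹ •` (the `k`-th iterate of `Z ↦ X Z - Z X` applied to `Y`) `= (k!)⁻¹ • ad ((ad x) ^ k y)`; it is zero for
`m ≤ k` (for `k > 2 m - 2` trivially).  So `P.natDegree ≤ m - 1` and `P.coeff (m - 1) = ((m - 1)!)⁻¹ • ad b`,
`b = (ad x) ^ (m - 1) y`.
(3) `P ^ 3 = g * C (Y ^ 3) * g'` by (1), of degree `≤ 2 (m - 1) < 3 (m - 1)`, so the coefficient of
`T ^ (3 (m - 1))` in `P ^ 3`, which is `(P.coeff (m - 1)) ^ 3` (`Polynomial.coeff_mul_add_eq_of_natDegree_le` twice or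
`Polynomial.coeff_pow_of_natDegree_le`), is zero.
(Alternative without polynomials: with `E t = exp (t X)` truncated, `E t * Y * E (-t)` is polynomial in `t`;
compare coefficients with `H18.KD.coeff_mem` for `U = ⊥`, `K` infinite.)

`exists_cube'`: `ad x ≠ 0` (centre zero); let `m` be minimal with `(ad x) ^ m = 0`: `2 ≤ m ≤ N`; there is `y` with
`(ad x) ^ (m - 1) y ≠ 0`; `cube_of`.
-/

set_option autoImplicit false

namespace H18.KG

open Module

private theorem cu_poly {R : Type} [Ring R] (m : ℕ) (a : ℕ → R) (h : ∀ n, m ≤ n → a n = 0) :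
    ∃ g : Polynomial R, (∀ n, g.coeff n = a n) ∧ g.natDegree ≤ m - 1 := by
  classical
  have hc : ∃ g : Polynomial R, ∀ n, g.coeff n = a n := by
    refine ⟨∑ k ∈ Finset.range m, Polynomial.monomial k (a k), fun n => ?_⟩
    rw [Polynomial.finsetSum_coeff]
    simp only [Polynomial.coeff_monomial]
    rw [Finset.sum_ite_eq']
    split_ifs with h1
    · rfl
    · rw [Finset.mem_range, not_lt] at h1
      exact (h n h1).symm
  obtain ⟨g, hg⟩ := hc
  exact ⟨g, hg, Polynomial.natDegree_le_iff_coeff_eq_zero.2 fun N hN => by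
    rw [hg]
    exact h N (by omega)⟩

private theorem cu_ch {K : Type} [Field K] (i j n : ℕ) (hij : i + j = n)
    (hi : (i.factorial : K) ≠ 0) (hj : (j.factorial : K) ≠ 0) (hn : (n.factorial : K) ≠ 0) :
    (i.factorial : K)⁻¹ * (j.factorial : K)⁻¹ = (n.factorial : K)⁻¹ * (n.choose i : K) := by
  have h1 : n.choose i * i.factorial * (n - i).factorial = n.factorial :=
    Nat.choose_mul_factorial_mul_factorial (by omega)
  have h0 : n - i = j := by omega
  rw [h0] at h1
  have h2 : (n.choose i : K) * (i.factorial : K) * (j.factorial : K) = (n.factorial : K) := by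
    exact_mod_cast congrArg (Nat.cast : ℕ → K) h1
  rw [eq_comm, inv_mul_eq_iff_eq_mul₀ hn, ← h2]
  field_simp

private theorem cu_bin {K : Type} [Field K] {R : Type} [Ring R] [Algebra K R] (A B : R)
    (hAB : Commute A B) (n : ℕ) (hf : ∀ i, i ≤ n → (i.factorial : K) ≠ 0) :
    ∑ ij ∈ Finset.HasAntidiagonal.antidiagonal n,
        ((ij.1.factorial : K)⁻¹ * (ij.2.factorial : K)⁻¹) • (A ^ ij.1 * B ^ ij.2)
      = ((n.factorial : K)⁻¹) • (A + B) ^ n := by
  rw [hAB.add_pow', Finset.smul_sum]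
  refine Finset.sum_congr rfl fun ij hij => ?_
  rw [Finset.HasAntidiagonal.mem_antidiagonal] at hij
  rw [cu_ch ij.1 ij.2 n hij (hf _ (by omega)) (hf _ (by omega)) (hf n le_rfl), mul_smul,
    Nat.cast_smul_eq_nsmul]

private theorem cu_iter {K : Type} [Field K] {J : Type} [LieRing J] [LieAlgebra K J] (x y : J)
    (n : ℕ) : ((LinearMap.mulLeft K (LieAlgebra.ad K J x)
      + LinearMap.mulRight K (-(LieAlgebra.ad K J x))) ^ n) (LieAlgebra.ad K J y)
      = LieAlgebra.ad K J (((LieAlgebra.ad K J x) ^ n) y) := by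
  induction n with
  | zero => simp
  | succ n ih =>
    rw [pow_succ', Module.End.mul_apply, ih, pow_succ' (LieAlgebra.ad K J x), Module.End.mul_apply,
      LinearMap.add_apply, LinearMap.mulLeft_apply, LinearMap.mulRight_apply]
    ext w
    simp only [LinearMap.add_apply, Module.End.mul_apply, LieAlgebra.ad_apply, LinearMap.neg_apply,
      lie_neg, lie_lie]
    abel

theorem cube_of {K : Type} [Field K] {J : Type} [LieRing J] [LieAlgebra K J] (x : J) (m : ℕ)
    (hm : 2 ≤ m) (hf : ∀ k : ℕ, 1 ≤ k → k + 1 < 2 * m → (k : K) ≠ 0)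
    (hx : (LieAlgebra.ad K J x) ^ m = 0) (y : J) :
    (LieAlgebra.ad K J (((LieAlgebra.ad K J x) ^ (m - 1)) y)) ^ 3 = 0 := by
  classical
  obtain ⟨X, hX⟩ : ∃ X, X = LieAlgebra.ad K J x := ⟨_, rfl⟩
  obtain ⟨Y, hY⟩ : ∃ Y, Y = LieAlgebra.ad K J y := ⟨_, rfl⟩
  rw [← hX] at hx ⊢
  have hXz : ∀ n : ℕ, m ≤ n → X ^ n = 0 := fun n hn => pow_eq_zero_of_le hn hx
  have hfac : ∀ n : ℕ, n + 1 < 2 * m → (n.factorial : K) ≠ 0 := by
    intro n
    induction n with
    | zero => intro _; simp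
    | succ n ih =>
      intro hn
      rw [Nat.factorial_succ, Nat.cast_mul]
      exact mul_ne_zero (hf (n + 1) (by omega) hn) (ih (by omega))
  obtain ⟨a, ha⟩ : ∃ a : ℕ → End K J, ∀ n, a n = ((n.factorial : K)⁻¹) • X ^ n := ⟨_, fun _ => rfl⟩
  obtain ⟨a', ha'⟩ : ∃ a' : ℕ → End K J, ∀ n, a' n = ((n.factorial : K)⁻¹) • (-X) ^ n :=
    ⟨_, fun _ => rfl⟩
  have haz : ∀ n, m ≤ n → a n = 0 := by
    intro n hn
    rw [ha, hXz n hn, smul_zero]
  have haz' : ∀ n, m ≤ n → a' n = 0 := by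
    intro n hn
    rw [ha', neg_pow, hXz n hn, mul_zero, smul_zero]
  obtain ⟨g, hg, hgd⟩ := cu_poly m a haz
  obtain ⟨g', hg', hgd'⟩ := cu_poly m a' haz'
  have hgg : g' * g = 1 := by
    ext1 n
    rw [Polynomial.coeff_mul]
    simp only [hg, hg']
    rcases Nat.eq_zero_or_pos n with h0 | h0
    · rw [h0]
      simp [ha, ha']
    · rw [Polynomial.coeff_one, if_neg (by omega)]
      rcases le_or_gt m n with h1 | h1
      · refine Finset.sum_eq_zero fun ij hij => ?_
        rw [Finset.HasAntidiagonal.mem_antidiagonal] at hij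
        rw [ha, ha', smul_mul_smul_comm, neg_pow, mul_assoc, ← pow_add, hij, hXz n h1, mul_zero,
          smul_zero]
      · have h3 : ∀ ij ∈ Finset.HasAntidiagonal.antidiagonal n, a' ij.1 * a ij.2
            = ((ij.1.factorial : K)⁻¹ * (ij.2.factorial : K)⁻¹) • ((-X) ^ ij.1 * X ^ ij.2) := by
          intro ij hij
          rw [ha, ha', smul_mul_smul_comm]
        rw [Finset.sum_congr rfl h3, cu_bin (-X) X ((Commute.refl X).neg_left) n
          (fun i hi => hfac i (by omega)), neg_add_cancel, zero_pow (by omega), smul_zero]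
  obtain ⟨P, hP⟩ : ∃ P : Polynomial (End K J), P = g * Polynomial.C Y * g' := ⟨_, rfl⟩
  have hPc : ∀ n, P.coeff n = ∑ ij ∈ Finset.HasAntidiagonal.antidiagonal n, a ij.1 * Y * a' ij.2 := by
    intro n
    rw [hP, Polynomial.coeff_mul]
    simp only [Polynomial.coeff_mul_C, hg, hg']
  have hPv : ∀ n, n + 1 < 2 * m → P.coeff n
      = ((n.factorial : K)⁻¹) • LieAlgebra.ad K J ((X ^ n) y) := by
    intro n hn
    have h3 : ∀ ij ∈ Finset.HasAntidiagonal.antidiagonal n, a ij.1 * Y * a' ij.2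
        = (((ij.1.factorial : K)⁻¹ * (ij.2.factorial : K)⁻¹) •
          ((LinearMap.mulLeft K X) ^ ij.1 * (LinearMap.mulRight K (-X)) ^ ij.2)) Y := by
      intro ij hij
      rw [ha, ha', LinearMap.pow_mulLeft, LinearMap.pow_mulRight, LinearMap.smul_apply,
        Module.End.mul_apply, LinearMap.mulRight_apply, LinearMap.mulLeft_apply, smul_mul_assoc,
        smul_mul_assoc, mul_smul_comm, smul_smul, mul_assoc]
    rw [hPc, Finset.sum_congr rfl h3, ← LinearMap.sum_apply, cu_bin (LinearMap.mulLeft K X)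
      (LinearMap.mulRight K (-X)) (LinearMap.commute_mulLeft_right X (-X)) n
      (fun i hi => hfac i (by omega)), LinearMap.smul_apply, hY]
    congr 1
    rw [hX]
    exact cu_iter x y n
  have hPz : ∀ n, m ≤ n → P.coeff n = 0 := by
    intro n hn
    rcases lt_or_ge (n + 1) (2 * m) with h1 | h1
    · rw [hPv n h1, hXz n hn, LinearMap.zero_apply, map_zero, smul_zero]
    · rw [hPc]
      refine Finset.sum_eq_zero fun ij hij => ?_
      rw [Finset.HasAntidiagonal.mem_antidiagonal] at hij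
      rcases le_or_gt m ij.1 with h2 | h2
      · rw [haz _ h2, zero_mul, zero_mul]
      · rw [haz' ij.2 (by omega), mul_zero]
  have hPd : P.natDegree ≤ m - 1 :=
    Polynomial.natDegree_le_iff_coeff_eq_zero.2 fun N hN => hPz N (by omega)
  have key : ∀ z : Polynomial (End K J), g' * (g * z) = z := by
    intro z
    rw [← mul_assoc, hgg, one_mul]
  have hPPP : P * P * P = g * (Polynomial.C Y * (Polynomial.C Y * (Polynomial.C Y * g'))) := by
    rw [hP]
    simp only [mul_assoc, key]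
  have hd : (P * P * P).natDegree ≤ (m - 1) + (m - 1) := by
    rw [hPPP]
    refine Polynomial.natDegree_mul_le.trans (Nat.add_le_add hgd ?_)
    refine (Polynomial.natDegree_C_mul_le _ _).trans ?_
    refine (Polynomial.natDegree_C_mul_le _ _).trans ?_
    exact (Polynomial.natDegree_C_mul_le _ _).trans hgd'
  have hPP : (P * P).natDegree ≤ (m - 1) + (m - 1) :=
    Polynomial.natDegree_mul_le.trans (Nat.add_le_add hPd hPd)
  have h5 : (P * P * P).coeff ((m - 1) + (m - 1) + (m - 1)) = 0 :=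
    Polynomial.coeff_eq_zero_of_natDegree_lt (by omega)
  rw [Polynomial.coeff_mul_add_eq_of_natDegree_le hPP hPd, Polynomial.coeff_mul_add_eq_of_natDegree_le hPd hPd,
    hPv (m - 1) (by omega), smul_mul_smul_comm, smul_mul_smul_comm] at h5
  have hm1 : ((m - 1).factorial : K)⁻¹ ≠ 0 := inv_ne_zero (hfac (m - 1) (by omega))
  rcases smul_eq_zero.1 h5 with h6 | h6
  · exact absurd h6 (mul_ne_zero (mul_ne_zero hm1 hm1) hm1)
  · rw [pow_three']
    exact h6

theorem exists_cube' (p : ℕ) [Fact p.Prime] {K : Type} [Field K] [CharP K p] {J : Type}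
    [LieRing J] [LieAlgebra K J] (hc : ∀ x : J, (∀ y : J, ⁅x, y⁆ = 0) → x = 0) (N : ℕ)
    (hN : 2 * N < p) (x : J) (hx0 : x ≠ 0) (hx : (LieAlgebra.ad K J x) ^ N = 0) :
    ∃ c : J, c ≠ 0 ∧ ∀ y : J, ⁅c, ⁅c, ⁅c, y⁆⁆⁆ = 0 := by
  classical
  have hex : ∃ m, (LieAlgebra.ad K J x) ^ m = 0 := ⟨N, hx⟩
  obtain ⟨m, hm⟩ : ∃ m, m = Nat.find hex := ⟨_, rfl⟩
  have hm0 : (LieAlgebra.ad K J x) ^ m = 0 := by
    rw [hm]
    exact Nat.find_spec hex
  have hmN : m ≤ N := by
    rw [hm]
    exact Nat.find_min' hex hx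
  have hm2 : 2 ≤ m := by
    by_contra hcon
    rcases (show m = 0 ∨ m = 1 by omega) with h | h
    · rw [h, pow_zero] at hm0
      apply hx0
      have := LinearMap.congr_fun hm0 x
      simpa using this
    · rw [h, pow_one] at hm0
      apply hx0
      apply hc
      intro y
      have := LinearMap.congr_fun hm0 y
      simpa using this
  have hm1 : (LieAlgebra.ad K J x) ^ (m - 1) ≠ 0 := by
    intro h
    have h1 : m ≤ m - 1 := by
      conv_lhs => rw [hm]
      exact Nat.find_min' hex h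
    omega
  obtain ⟨y, hy⟩ : ∃ y, ((LieAlgebra.ad K J x) ^ (m - 1)) y ≠ 0 := by
    by_contra hcon
    push Not at hcon
    apply hm1
    ext y
    simpa using hcon y
  refine ⟨((LieAlgebra.ad K J x) ^ (m - 1)) y, hy, fun z => ?_⟩
  have h1 := cube_of x m hm2 (fun k hk1 hk2 => ?_) hm0 y
  · have h2 := LinearMap.congr_fun h1 z
    rw [pow_three] at h2
    simpa using h2
  · intro h3
    have h4 := (CharP.cast_eq_zero_iff K p k).1 h3
    have h5 := Nat.le_of_dvd (by omega) h4
    omega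

end H18.KG
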