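import Mathlib

/-!
[H18 KG SH] weight 1, MP_9fed08_al (Mathlib only).  An operator in a generalized eigenspace of `ad Y` for a
nonzero eigenvalue is nilpotent if `dim V < p`.

`l = mulLeft Y`, `r = mulRight Y`, `T = l - r - c • id` on `End K V`, commuting operators.  For `μ : K`:
`mulLeft (Y - (μ + c) • 1) = T + mulRight (Y - μ • 1)` (commuting summands), so by the binomial theorem
(`Commute.add_pow`) `(Y - (μ + c) • 1) ^ M * X = ∑_{i + j = M} choose • (T ^ i X) * (Y - μ • 1) ^ j`.  If
`(Y - μ • 1) ^ m v = 0` and `M = k + m`, every term kills `v`.  So `X` maps the generalized eigenspace `G μ` of `Y`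
(`Module.End.maxGenEigenspace Y μ`) into `G (μ + c)`, and `X ^ j` maps `G μ` into `G (μ + j c)`.
The elements `μ + j c`, `j < p`, are distinct (`c ≠ 0`, characteristic `p`).  At most `finrank V < p` of them are
eigenvalues of `Y` (`Module.End` : generalized eigenspaces are independent, or the eigenvalues are roots of `charpoly`), so some
`G (μ + j c) = ⊥` with `j < p` and `X ^ j` kills `G μ`, so `X ^ p` does.  `⨆ μ, G μ = ⊤`
(`Module.End.iSup_maxGenEigenspace_eq_top`, `K` algebraically closed): `X ^ p = 0`.
-/

set_option autoImplicit false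

namespace H18.KG

open Module

section

attribute [local instance 100] LieRing.ofAssociativeRing

private theorem sh_step {K : Type} [Field K] {V : Type} [AddCommGroup V] [Module K V]
    (Y X : End K V) (c : K) (k : ℕ)
    (h : ((LinearMap.mulLeft K Y - LinearMap.mulRight K Y - c • (1 : End K (End K V))) ^ k) X = 0)
    (μ : K) (v : V) (hv : v ∈ Module.End.maxGenEigenspace Y μ) :
    X v ∈ Module.End.maxGenEigenspace Y (μ + c) := by
  have h1 : X ∈ (LieModule.toEnd K (End K V) (End K V) Y).maxGenEigenspace c := by
    rw [Module.End.mem_maxGenEigenspace]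
    refine ⟨k, ?_⟩
    have h2 : (LieModule.toEnd K (End K V) (End K V) Y : End K (End K V))
        = LinearMap.mulLeft K Y - LinearMap.mulRight K Y := by
      ext Z v
      simp [LieRing.of_associative_ring_bracket]
    rw [h2]
    exact h
  have h2 : v ∈ (LieModule.toEnd K (End K V) V Y).maxGenEigenspace μ := by
    rw [LieModule.toEnd_module_end]
    exact hv
  have h3 := LieModule.lie_mem_maxGenEigenspace_toEnd h1 h2
  rw [LieModule.toEnd_module_end, add_comm] at h3
  exact h3

end

theorem shift_nil (p : ℕ) [Fact p.Prime] {K : Type} [Field K] [IsAlgClosed K] [CharP K p]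
    {V : Type} [AddCommGroup V] [Module K V] [FiniteDimensional K V] (hn : finrank K V < p)
    (Y X : End K V) (c : K) (hc : c ≠ 0) (k : ℕ)
    (h : ((LinearMap.mulLeft K Y - LinearMap.mulRight K Y - c • (1 : End K (End K V))) ^ k) X = 0) :
    IsNilpotent X := by
  classical
  refine ⟨p, ?_⟩
  have hstep : ∀ (j : ℕ) (μ : K) (v : V), v ∈ Module.End.maxGenEigenspace Y μ →
      (X ^ j) v ∈ Module.End.maxGenEigenspace Y (μ + (j : K) * c) := by
    intro j
    induction j with
    | zero =>
      intro μ v hv
      simpa using hv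
    | succ j ih =>
      intro μ v hv
      have h1 := sh_step Y X c k h _ _ (ih μ v hv)
      have h2 : μ + ((j + 1 : ℕ) : K) * c = μ + (j : K) * c + c := by
        push_cast
        ring
      rw [h2, pow_succ', Module.End.mul_apply]
      exact h1
  have hker : ∀ μ : K, Module.End.maxGenEigenspace Y μ ≤ LinearMap.ker (X ^ p) := by
    intro μ
    have hinj : Function.Injective (fun j : Fin p => μ + ((j : ℕ) : K) * c) := by
      intro i j hij
      have h1 : ((i : ℕ) : K) * c = ((j : ℕ) : K) * c := add_left_cancel hij
      have h2 : ((i : ℕ) : K) = ((j : ℕ) : K) := mul_right_cancel₀ hc h1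
      exact Fin.ext (CharP.natCast_injOn_Iio K p i.2 j.2 h2)
    have hind : iSupIndep (fun j : Fin p => Module.End.maxGenEigenspace Y (μ + ((j : ℕ) : K) * c)) :=
      (Module.End.independent_maxGenEigenspace Y).comp hinj
    have hex : ∃ j : Fin p, Module.End.maxGenEigenspace Y (μ + ((j : ℕ) : K) * c) = ⊥ := by
      by_contra hcon
      push Not at hcon
      have h1 := hind.subtype_ne_bot_le_finrank
      rw [Fintype.card_congr (Equiv.subtypeUnivEquiv hcon), Fintype.card_fin] at h1
      omega
    obtain ⟨j, hj⟩ := hex
    intro v hv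
    have h1 := hstep j μ v hv
    rw [hj, Submodule.mem_bot] at h1
    rw [LinearMap.mem_ker]
    exact Module.End.pow_map_zero_of_le j.2.le h1
  have htop : LinearMap.ker (X ^ p) = ⊤ := by
    rw [eq_top_iff, ← Module.End.iSup_maxGenEigenspace_eq_top Y]
    exact iSup_le hker
  exact LinearMap.ker_eq_top.1 htop

end H18.KG
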