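import Pool.Agent.H18.KG.Defs
import Pool.Agent.H18.KG.Sh

/-!
[H18 KG GN] weight 1, MP_9fed08_al.  A perfect Lie algebra is generated by the elements acting nilpotently on a
module of dimension `< p` (import used as given: `shift_nil`).

`y` with `H = LieSubalgebra.engel K y` a Cartan subalgebra (`LieAlgebra.exists_isCartanSubalgebra_engel`, `K` infinite), so `H` is
nilpotent.  `D = LieAlgebra.ad K J y`.  `G c = Module.End.maxGenEigenspace D c`; `G 0` = the carrier of `H`
(`LieSubalgebra.mem_engel_iff`).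
(1) `x ∈ G c`, `c ≠ 0`: `((D - c • 1) ^ k) x = 0` for some `k`; applying `ρ` (`ρ (D z) = ρ y * ρ z - ρ z * ρ y`):
`((mulLeft (ρ y) - mulRight (ρ y) - c • 1) ^ k) (ρ x) = 0`, so `ρ x` is nilpotent (`shift_nil`).
(2) `S` = Lie subalgebra generated by `⋃_{c ≠ 0} G c`; `S ≤` the span in question.  For `h ∈ H` and `x ∈ G c`:
`⁅h, x⁆ ∈ G c` (derivation `D`: `((D - c) ^ N) ⁅h, x⁆ = ∑ choose ⁅D ^ i h, (D - c) ^ j x⁆`; Mathlib:
`LieAlgebra.lie_mem_genWeightSpace_of_mem_genWeightSpace` or `weight_vector_multiplication`; or directly by induction).  So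
`{z | ∀ s ∈ S, ⁅z, s⁆ ∈ S}` is a subspace (even a subalgebra) containing `H` and `S`
(`LieSubalgebra.lieSpan_induction`), and
`H ⊔ S = ⊤` as `⨆ c, G c = ⊤`: `S` is (the carrier of) an ideal `I`.
(3) `J / I` is the image of `H`, so it is nilpotent (`Function.Surjective.lieAlgebra_isNilpotent`), and perfect; a nilpotent
perfect Lie algebra is trivial.  Directly: by induction on `k` the lower central series of the Lie algebra `H` satisfies
`J = I + (lower central series k of H)`: `J = ⁅J, J⁆ ≤ I + ⁅H, H⁆`, and so on.  So `I = ⊤`, `S = ⊤`.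
-/

set_option autoImplicit false

namespace H18.KG

open Module

/-- a quotient map as a morphism of Lie algebras -/
private def gn_mk {K : Type} [Field K] {J : Type} [LieRing J] [LieAlgebra K J] (I : LieIdeal K J) :
    J →ₗ⁅K⁆ J ⧸ I :=
  { (LieSubmodule.Quotient.mk' I : J →ₗ[K] J ⧸ I) with
    map_lie' := fun {_ _} => rfl }

private theorem gn_mk_surj {K : Type} [Field K] {J : Type} [LieRing J] [LieAlgebra K J]
    (I : LieIdeal K J) : Function.Surjective (gn_mk I) :=
  LieSubmodule.Quotient.surjective_mk' I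

private theorem gn_mk_zero {K : Type} [Field K] {J : Type} [LieRing J] [LieAlgebra K J]
    (I : LieIdeal K J) (x : J) (h : gn_mk I x = 0) : x ∈ I :=
  (LieSubmodule.Quotient.mk_eq_zero' (N := I)).1 h

/-- a perfect Lie algebra with a nilpotent subalgebra complementing an ideal -/
private theorem gn_top {K : Type} [Field K] {J : Type} [LieRing J] [LieAlgebra K J]
    (hperf : Perf K J) (H : LieSubalgebra K J) [LieRing.IsNilpotent H] (I : LieIdeal K J)
    (h : ∀ x : J, ∃ a ∈ H, x - a ∈ I) : I = ⊤ := by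
  have hs : Function.Surjective ((gn_mk I).comp H.incl) := by
    intro y
    obtain ⟨x, rfl⟩ := gn_mk_surj I y
    obtain ⟨a, ha, hxa⟩ := h x
    refine ⟨⟨a, ha⟩, ?_⟩
    have h1 : gn_mk I (x - a) = 0 := (LieSubmodule.Quotient.mk_eq_zero' (N := I)).2 hxa
    rw [map_sub, sub_eq_zero] at h1
    exact h1.symm
  have hnil : LieRing.IsNilpotent (J ⧸ I) := hs.lieAlgebra_isNilpotent
  rw [LieRing.IsNilpotent, LieModule.isNilpotent_iff K] at hnil
  obtain ⟨k, hk⟩ := hnil
  have hlcs : ∀ k, LieModule.lowerCentralSeries K J J k = ⊤ := by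
    intro k
    induction k with
    | zero => rfl
    | succ k ih =>
      rw [LieModule.lowerCentralSeries_succ, ih]
      exact hperf
  have h2 := LieIdeal.lowerCentralSeries_map_eq k (gn_mk_surj I)
  rw [hlcs, hk] at h2
  rw [eq_top_iff]
  intro x _
  apply gn_mk_zero
  have h3 : gn_mk I x ∈ LieIdeal.map (gn_mk I) (⊤ : LieIdeal K J) :=
    LieIdeal.mem_map (LieSubmodule.mem_top x)
  rw [h2] at h3
  exact (LieSubmodule.mem_bot _).1 h3

theorem gen_nil (p : ℕ) [Fact p.Prime] (K : Type) [Field K] [IsAlgClosed K] [CharP K p]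
    (J : Type) [LieRing J] [LieAlgebra K J] [FiniteDimensional K J] (hperf : Perf K J)
    (V : Type) [AddCommGroup V] [Module K V] [FiniteDimensional K V] (hn : finrank K V < p)
    (ρ : J →ₗ[K] End K V) (hρ : H18.KC.Brk ρ) :
    LieSubalgebra.lieSpan K J {x : J | IsNilpotent (ρ x)} = ⊤ := by
  haveI : Infinite K := IsAlgClosed.instInfinite
  obtain ⟨y, hy⟩ := LieAlgebra.exists_isCartanSubalgebra_engel K J
  haveI := hy.nilpotent
  obtain ⟨D, hD⟩ : ∃ D : End K J, D = LieModule.toEnd K J J y := ⟨_, rfl⟩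
  -- (1)
  have h1 : ∀ c : K, c ≠ 0 → ∀ x ∈ End.maxGenEigenspace D c, IsNilpotent (ρ x) := by
    intro c hc x hx
    rw [End.mem_maxGenEigenspace] at hx
    obtain ⟨k, hk⟩ := hx
    refine shift_nil p hn (ρ y) (ρ x) c hc k ?_
    have h2 : ∀ (j : ℕ) (z : J),
        ((LinearMap.mulLeft K (ρ y) - LinearMap.mulRight K (ρ y) -
          c • (1 : End K (End K V))) ^ j) (ρ z) = ρ (((D - c • (1 : End K J)) ^ j) z) := by
      intro j
      induction j with
      | zero => intro z; simp
      | succ j ih =>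
        intro z
        rw [pow_succ, pow_succ, Module.End.mul_apply, Module.End.mul_apply, ← ih]
        congr 1
        have h3 : (D - c • (1 : End K J)) z = ⁅y, z⁆ - c • z := by
          rw [hD]
          simp
        rw [h3, map_sub, map_smul, hρ y z]
        simp
    rw [h2, hk, map_zero]
  -- (2)
  obtain ⟨S, hS⟩ : ∃ S : LieSubalgebra K J,
      S = LieSubalgebra.lieSpan K J {x : J | ∃ c : K, c ≠ 0 ∧ x ∈ End.maxGenEigenspace D c} :=
    ⟨_, rfl⟩
  have hSle : S ≤ LieSubalgebra.lieSpan K J {x : J | IsNilpotent (ρ x)} := by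
    rw [hS, LieSubalgebra.lieSpan_le]
    rintro x ⟨c, hc, hx⟩
    exact LieSubalgebra.subset_lieSpan (h1 c hc x hx)
  have hG0 : ∀ x, x ∈ End.maxGenEigenspace D 0 ↔ x ∈ LieSubalgebra.engel K y := by
    intro x
    rw [End.mem_maxGenEigenspace, LieSubalgebra.mem_engel_iff]
    simp only [zero_smul, sub_zero, hD]
    rfl
  have hH : ∀ h ∈ LieSubalgebra.engel K y, h ∈ S.normalizer := by
    intro h hh
    rw [LieSubalgebra.mem_normalizer_iff]
    intro s hs
    rw [hS] at hs ⊢
    induction hs using LieSubalgebra.lieSpan_induction with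
    | mem x hx =>
      obtain ⟨c, hc, hx⟩ := hx
      refine LieSubalgebra.subset_lieSpan ⟨c, hc, ?_⟩
      have h3 := (hG0 h).2 hh
      rw [hD] at h3 hx ⊢
      have h4 := LieModule.lie_mem_maxGenEigenspace_toEnd h3 hx
      rw [zero_add] at h4
      exact h4
    | zero => rw [lie_zero]; exact zero_mem _
    | add a b _ _ ha hb => rw [lie_add]; exact add_mem ha hb
    | smul t a _ ha => rw [lie_smul]; exact LieSubalgebra.smul_mem _ _ ha
    | lie a b ha' hb' ha hb =>
      rw [leibniz_lie]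
      exact add_mem (LieSubalgebra.lie_mem _ ha hb') (LieSubalgebra.lie_mem _ ha' hb)
  have htop : ∀ x : J, ∃ a ∈ LieSubalgebra.engel K y, x - a ∈ S := by
    have h3 : (⨆ c : K, End.maxGenEigenspace D c) ≤
        (LieSubalgebra.engel K y).toSubmodule ⊔ S.toSubmodule := by
      refine iSup_le fun c => ?_
      by_cases hc : c = 0
      · intro x hx
        rw [hc] at hx
        exact Submodule.mem_sup_left ((hG0 x).1 hx)
      · intro x hx
        refine Submodule.mem_sup_right ?_
        rw [hS]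
        exact LieSubalgebra.subset_lieSpan ⟨c, hc, hx⟩
    rw [End.iSup_maxGenEigenspace_eq_top] at h3
    intro x
    obtain ⟨a, ha, b, hb, hab⟩ := Submodule.mem_sup.1 (h3 (Submodule.mem_top (x := x)))
    refine ⟨a, ha, ?_⟩
    rw [← hab, add_sub_cancel_left]
    exact hb
  have hideal : ∀ x m : J, m ∈ S → ⁅x, m⁆ ∈ S := by
    intro x m hm
    obtain ⟨a, ha, hxa⟩ := htop x
    have h3 : ⁅x, m⁆ = ⁅a, m⁆ + ⁅x - a, m⁆ := by
      rw [← add_lie, add_sub_cancel]
    rw [h3]
    exact add_mem ((LieSubalgebra.mem_normalizer_iff _ _).1 (hH a ha) m hm)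
      (LieSubalgebra.lie_mem _ hxa hm)
  let I : LieIdeal K J :=
    { S.toSubmodule with
      lie_mem := fun {x m} hm => hideal x m hm }
  have hI : I = ⊤ := gn_top hperf (LieSubalgebra.engel K y) I htop
  rw [eq_top_iff]
  intro x _
  refine hSle ?_
  have h3 : x ∈ I := by
    rw [hI]
    exact LieSubmodule.mem_top x
  exact h3

end H18.KG
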