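import Pool.Agent.H18.KD.Expa
import Pool.Agent.H18.KD.Van

/-!
[H18 KG EX] weight 1, MP_9fed08_al.  Subspaces stable under the truncated exponentials of inner derivations
(imports used as given: `texp_lie`, `texp_surj`, `coeff_mem`).

`M = N + 1`, `2 M - 2 = 2 N < p`, so `hf` of `texp_lie` holds for `M` (`CharP.cast_eq_zero_iff`, `Nat.le_of_dvd`).
This is the step `hinv` in the proof of `no_sandwich` (`H18/KD/Sand.lean`): `texp M (ad x) t` is a surjective Lie
homomorphism; `coeff_mem` extracts the coefficient of `t`.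
-/

set_option autoImplicit false

namespace H18.KG

open Module

/-- the truncated exponential is an automorphism -/
theorem texp_aut (p : ℕ) [Fact p.Prime] {K : Type} [Field K] [CharP K p] {J : Type} [LieRing J]
    [LieAlgebra K J] (N : ℕ) (hN : 2 * N < p) (x : J) (hx : (LieAlgebra.ad K J x) ^ N = 0) (t : K) :
    (∀ y z : J, H18.KD.texp (N + 1) (LieAlgebra.ad K J x) t ⁅y, z⁆ =
      ⁅H18.KD.texp (N + 1) (LieAlgebra.ad K J x) t y, H18.KD.texp (N + 1) (LieAlgebra.ad K J x) t z⁆) ∧
    Function.Surjective (H18.KD.texp (N + 1) (LieAlgebra.ad K J x) t) := by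
  have hNN : LieAlgebra.ad K J x ^ (N + 1) = 0 := by
    rw [pow_succ, hx, zero_mul]
  have hD : ∀ y z : J, LieAlgebra.ad K J x ⁅y, z⁆ =
      ⁅LieAlgebra.ad K J x y, z⁆ + ⁅y, LieAlgebra.ad K J x z⁆ := by
    intro y z
    simp only [LieAlgebra.ad_apply]
    rw [leibniz_lie]
  have hf : ∀ k : ℕ, 1 ≤ k → k + 1 < 2 * (N + 1) → (k : K) ≠ 0 := by
    intro k hk1 hk2 hk3
    rw [CharP.cast_eq_zero_iff K p] at hk3
    have h4 := Nat.le_of_dvd hk1 hk3
    omega
  exact ⟨fun y z => H18.KD.texp_lie (N + 1) (LieAlgebra.ad K J x) hD hNN hf t y z,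
    H18.KD.texp_surj (N + 1) (LieAlgebra.ad K J x) hNN t⟩

/-- a subspace stable under the exponentials is stable under `ad x` -/
theorem stab_of_texp (p : ℕ) [Fact p.Prime] {K : Type} [Field K] [Infinite K] [CharP K p]
    {J : Type} [LieRing J] [LieAlgebra K J] (N : ℕ) (x : J)
    (U : Submodule K J)
    (hU : ∀ t : K, ∀ u ∈ U, H18.KD.texp (N + 1) (LieAlgebra.ad K J x) t u ∈ U) :
    0 < N → ∀ u ∈ U, ⁅x, u⁆ ∈ U := by
  intro hN u hu
  have hco := H18.KD.coeff_mem U (N + 1)
    (fun i => (((Nat.factorial i : ℕ) : K)⁻¹) • (LieAlgebra.ad K J x ^ i) u) (by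
      intro t
      have h1 := hU t u hu
      have h2 : ∑ i ∈ Finset.range (N + 1), t ^ i • ((((Nat.factorial i : ℕ) : K)⁻¹) •
          (LieAlgebra.ad K J x ^ i) u) =
          H18.KD.texp (N + 1) (LieAlgebra.ad K J x) t u := by
        rw [H18.KD.texp, LinearMap.sum_apply]
        refine Finset.sum_congr rfl fun i _ => ?_
        rw [LinearMap.smul_apply, mul_smul]
      rw [h2]
      exact h1)
  have h1 := hco 1 (by omega)
  simp only [Nat.factorial_one, Nat.cast_one, inv_one, one_smul, pow_one] at h1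
  exact h1

/-- a subspace stable under the exponentials for a set of generators is an ideal -/
theorem ideal_of_gen {K : Type} [Field K] {J : Type} [LieRing J] [LieAlgebra K J] (S : Set J)
    (hgen : LieSubalgebra.lieSpan K J S = ⊤) (U : Submodule K J)
    (hU : ∀ x ∈ S, ∀ u ∈ U, ⁅x, u⁆ ∈ U) : ∀ x : J, ∀ u ∈ U, ⁅x, u⁆ ∈ U := by
  let NN : LieSubalgebra K J :=
    { carrier := {x | ∀ u ∈ U, ⁅x, u⁆ ∈ U}
      add_mem' := by
        intro a b ha hb u hu
        rw [add_lie]
        exact U.add_mem (ha u hu) (hb u hu)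
      zero_mem' := by
        intro u _
        rw [zero_lie]
        exact U.zero_mem
      smul_mem' := by
        intro t a ha u hu
        rw [smul_lie]
        exact U.smul_mem t (ha u hu)
      lie_mem' := by
        intro a b ha hb u hu
        rw [lie_lie]
        exact U.sub_mem (ha _ (hb u hu)) (hb _ (ha u hu)) }
  have hle : LieSubalgebra.lieSpan K J S ≤ NN := by
    rw [LieSubalgebra.lieSpan_le]
    intro x hx
    exact hU x hx
  rw [hgen] at hle
  intro x
  exact hle (LieSubalgebra.mem_top x)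

end H18.KG
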