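import Pool.Agent.H18.KG.Ef
import Pool.Agent.H18.KG.Ex

/-!
[H18 KG IV] weight 2, MP_9fed08_al.  A nondegenerate invariant form on a simple Lie algebra with an extremal
element (imports used as given: `ext_form`, `texp_aut`, `stab_of_texp`, `ideal_of_gen`, `H18.KD.coeff_mem`).

`S = {x | (ad x) ^ N = 0}` generates.  We may assume `0 < N` (if `N = 0` then `J` is trivial).
(1) `U = span {x | IsExt K x}`: for `x ∈ S` and `σ = texp (N + 1) (ad x) t`: `σ` maps extremal elements to extremal
elements (`⁅σ b, ⁅σ b, σ z⁆⁆ = σ ⁅b, ⁅b, z⁆⁆ ∈ K σ b`, `σ` surjective), so `σ U ≤ U`, `⁅x, U⁆ ≤ U`, `U` is an ideal, contains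
`b ≠ 0`: `U = ⊤`.  `ext_form` gives `g`.
(2) For `x ∈ S`, `σ` as above, `u, v : J`: `g (σ u) (σ v) = g u v`: linear in `u`, so `u` extremal, `u ≠ 0`;
if `σ u ≠ 0`: `⁅σ u, ⁅σ u, σ v⁆⁆ = σ (g u v • u) = g u v • σ u` and it is `g (σ u) (σ v) • σ u`.  (`σ` is injective, as a
surjective endomorphism of a finite dimensional space.)
(3) coefficient of `t`: `∑_{i, j ≤ N} t ^ (i + j) (i! j!)⁻¹ g ((ad x) ^ i u) ((ad x) ^ j v) = g u v` for all `t`, so
`g ⁅x, u⁆ v + g u ⁅x, v⁆ = 0` (`coeff_mem` with `U = ⊥`, `V = K`, after grouping by `i + j`; or polynomials).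
(4) `{a | ∀ u v, g ⁅a, u⁆ v + g u ⁅a, v⁆ = 0}` is a Lie subalgebra containing `S`, so `⊤`.
(5) `{x | ∀ y, g x y = 0}` is an ideal by (4); it is not `⊤`, because `g b z ≠ 0` for some `z` (`hbn`; `b ≠ 0`); so it is `⊥`.
-/

set_option autoImplicit false

namespace H18.KG

open Module

private theorem iv_coeff {K : Type} [Field K] [Infinite K] (N : ℕ) (hN : 0 < N) (A : ℕ → ℕ → K)
    (c : K) (h : ∀ t : K, ∑ i ∈ Finset.range (N + 1), ∑ j ∈ Finset.range (N + 1),
      t ^ (i + j) * A i j = c) : A 0 1 + A 1 0 = 0 := by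
  set P : Polynomial K := ∑ i ∈ Finset.range (N + 1), ∑ j ∈ Finset.range (N + 1),
    Polynomial.C (A i j) * Polynomial.X ^ (i + j) with hP
  have h1 : P = Polynomial.C c := by
    apply Polynomial.funext
    intro t
    rw [hP, Polynomial.eval_C, Polynomial.eval_finsetSum, ← h t]
    refine Finset.sum_congr rfl fun i _ => ?_
    rw [Polynomial.eval_finsetSum]
    refine Finset.sum_congr rfl fun j _ => ?_
    rw [Polynomial.eval_mul, Polynomial.eval_C, Polynomial.eval_pow, Polynomial.eval_X, mul_comm]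
  have h2 : P.coeff 1 = 0 := by
    rw [h1, Polynomial.coeff_C_succ]
  have h3 : P.coeff 1 = ∑ i ∈ Finset.range (N + 1), ∑ j ∈ Finset.range (N + 1),
      if 1 = i + j then A i j else 0 := by
    rw [hP, Polynomial.finsetSum_coeff]
    refine Finset.sum_congr rfl fun i _ => ?_
    rw [Polynomial.finsetSum_coeff]
    refine Finset.sum_congr rfl fun j _ => ?_
    rw [Polynomial.coeff_C_mul_X_pow]
  rw [h2] at h3
  obtain ⟨M, rfl⟩ : ∃ M, N = M + 1 := ⟨N - 1, by omega⟩
  rw [Finset.sum_range_succ', Finset.sum_range_succ'] at h3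
  have e1 : ∑ i ∈ Finset.range M, ∑ j ∈ Finset.range (M + 1 + 1),
      (if 1 = i + 1 + 1 + j then A (i + 1 + 1) j else 0) = 0 := by
    refine Finset.sum_eq_zero fun i _ => Finset.sum_eq_zero fun j _ => ?_
    rw [if_neg (by omega)]
  have e2 : ∑ j ∈ Finset.range (M + 1 + 1), (if 1 = 0 + 1 + j then A (0 + 1) j else 0) =
      A 1 0 := by
    rw [Finset.sum_eq_single 0]
    · simp
    · intro j _ hj
      rw [if_neg (by omega)]
    · intro h0
      exact absurd (Finset.mem_range.2 (by omega)) h0
  have e3 : ∑ j ∈ Finset.range (M + 1 + 1), (if 1 = 0 + j then A 0 j else 0) = A 0 1 := by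
    rw [Finset.sum_eq_single 1]
    · simp
    · intro j _ hj
      rw [if_neg (by omega)]
    · intro h0
      exact absurd (Finset.mem_range.2 (by omega)) h0
  rw [e1, e2, e3, zero_add] at h3
  rw [add_comm]
  exact h3.symm

theorem inv_form (p : ℕ) [Fact p.Prime] (K : Type) [Field K] [Infinite K] [CharP K p]
    (J : Type) [LieRing J] [LieAlgebra K J] [FiniteDimensional K J] (N : ℕ) (hN : 2 * N < p)
    (hgen : LieSubalgebra.lieSpan K J {x : J | (LieAlgebra.ad K J x) ^ N = 0} = ⊤)
    (hsim : ∀ I : LieIdeal K J, I = ⊥ ∨ I = ⊤) (b : J) (hb : IsExt K b)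
    (hbn : ∃ z : J, ⁅b, ⁅b, z⁆⁆ ≠ 0) :
    ∃ g : J →ₗ[K] J →ₗ[K] K, (∀ a x y : J, g ⁅a, x⁆ y + g x ⁅a, y⁆ = 0) ∧
      ∀ x : J, (∀ y : J, g x y = 0) → x = 0 := by
  obtain ⟨z0, hz0⟩ := hbn
  have hb0 : b ≠ 0 := by
    rintro rfl
    exact hz0 (by rw [zero_lie])
  have hNpos : 0 < N := by
    rcases Nat.eq_zero_or_pos N with h0 | h0
    · exfalso
      subst h0
      have hS : {x : J | (LieAlgebra.ad K J x) ^ 0 = 0} = ∅ := by
        rw [Set.eq_empty_iff_forall_notMem]
        intro x hx
        have h1 : (1 : End K J) = 0 := by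
          have h2 : (LieAlgebra.ad K J x) ^ 0 = 0 := hx
          rwa [pow_zero] at h2
        exact hb0 (by simpa using LinearMap.congr_fun h1 b)
      rw [hS, LieSubalgebra.span_empty] at hgen
      have h1 : b ∈ (⊥ : LieSubalgebra K J) := by rw [hgen]; exact LieSubalgebra.mem_top b
      exact hb0 ((LieSubalgebra.mem_bot b).1 h1)
    · exact h0
  -- the truncated exponentials
  have hσ : ∀ x : J, (LieAlgebra.ad K J x) ^ N = 0 → ∀ t : K,
      (∀ y z : J, H18.KD.texp (N + 1) (LieAlgebra.ad K J x) t ⁅y, z⁆ =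
      ⁅H18.KD.texp (N + 1) (LieAlgebra.ad K J x) t y,
        H18.KD.texp (N + 1) (LieAlgebra.ad K J x) t z⁆) ∧
      Function.Surjective (H18.KD.texp (N + 1) (LieAlgebra.ad K J x) t) := fun x hx t =>
    texp_aut p N hN x hx t
  have hext : ∀ x : J, (LieAlgebra.ad K J x) ^ N = 0 → ∀ (t : K) (u : J), IsExt K u →
      IsExt K (H18.KD.texp (N + 1) (LieAlgebra.ad K J x) t u) := by
    intro x hx t u hu z
    obtain ⟨z', rfl⟩ := (hσ x hx t).2 z
    rw [← (hσ x hx t).1, ← (hσ x hx t).1]
    obtain ⟨c, hc⟩ := Submodule.mem_span_singleton.1 (hu z')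
    rw [← hc, map_smul]
    exact Submodule.smul_mem _ _ (Submodule.mem_span_singleton_self _)
  set U : Submodule K J := Submodule.span K {x : J | IsExt K x} with hU
  have hUst : ∀ x ∈ {x : J | (LieAlgebra.ad K J x) ^ N = 0}, ∀ u ∈ U, ⁅x, u⁆ ∈ U := by
    intro x hx
    refine stab_of_texp p N x U (fun t u hu => ?_) hNpos
    have h1 : U ≤ U.comap (H18.KD.texp (N + 1) (LieAlgebra.ad K J x) t) := by
      rw [hU, Submodule.span_le]
      intro w hw
      exact Submodule.subset_span (hext x hx t w hw)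
    exact h1 hu
  have hUi := ideal_of_gen _ hgen U hUst
  have hUtop : U = ⊤ := by
    let I : LieIdeal K J := { U with lie_mem := fun {x m} hm => hUi x m hm }
    have hbI : b ∈ I := Submodule.subset_span hb
    rcases hsim I with h1 | h1
    · exfalso
      rw [h1] at hbI
      exact hb0 ((LieSubmodule.mem_bot b).1 hbI)
    · have h2 : (I : Submodule K J) = ⊤ := by rw [h1]; rfl
      exact h2
  obtain ⟨g, hg⟩ := ext_form K J hUtop
  -- invariance under the exponentials
  have hinv : ∀ x : J, (LieAlgebra.ad K J x) ^ N = 0 → ∀ (t : K) (u v : J),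
      g (H18.KD.texp (N + 1) (LieAlgebra.ad K J x) t u)
        (H18.KD.texp (N + 1) (LieAlgebra.ad K J x) t v) = g u v := by
    intro x hx t u v
    set s := H18.KD.texp (N + 1) (LieAlgebra.ad K J x) t with hs
    obtain ⟨hs1, hs2⟩ := hσ x hx t
    have hsi : Function.Injective s := LinearMap.injective_iff_surjective.2 hs2
    have hu : u ∈ Submodule.span K {x : J | IsExt K x} := by rw [← hU, hUtop]; trivial
    induction hu using Submodule.span_induction with
    | mem u hu =>
      by_cases hu0 : u = 0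
      · rw [hu0, map_zero, map_zero, LinearMap.zero_apply, LinearMap.zero_apply]
      · have hsu0 : s u ≠ 0 := fun h0 => hu0 (hsi (by rw [h0, map_zero]))
        have h1 := hg (s u) hsu0 (hext x hx t u hu) (s v)
        rw [← hs1, ← hs1, hg u hu0 hu v, map_smul] at h1
        exact (smul_left_injective K hsu0 h1).symm
    | zero => rw [map_zero, map_zero, LinearMap.zero_apply, LinearMap.zero_apply]
    | add u w _ _ hu hw =>
      rw [map_add, map_add, map_add, LinearMap.add_apply, LinearMap.add_apply, hu, hw]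
    | smul a u _ hu =>
      rw [map_smul, map_smul, map_smul, LinearMap.smul_apply, LinearMap.smul_apply, hu]
  have hder : ∀ x : J, (LieAlgebra.ad K J x) ^ N = 0 → ∀ u v : J,
      g ⁅x, u⁆ v + g u ⁅x, v⁆ = 0 := by
    intro x hx u v
    have h1 := iv_coeff N hNpos (fun i j => ((Nat.factorial i : ℕ) : K)⁻¹ *
      (((Nat.factorial j : ℕ) : K)⁻¹ * g ((LieAlgebra.ad K J x ^ i) u)
        ((LieAlgebra.ad K J x ^ j) v))) (g u v) (fun t => by
      rw [← hinv x hx t u v]
      unfold H18.KD.texp
      rw [LinearMap.sum_apply, LinearMap.sum_apply, LinearMap.map_sum₂]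
      refine Finset.sum_congr rfl fun i _ => ?_
      rw [map_sum]
      refine Finset.sum_congr rfl fun j _ => ?_
      rw [LinearMap.smul_apply, LinearMap.smul_apply, map_smul, map_smul, LinearMap.smul_apply,
        smul_eq_mul, smul_eq_mul, pow_add]
      ring)
    simp only [Nat.factorial_zero, Nat.factorial_one, Nat.cast_one, inv_one, one_mul, pow_zero,
      pow_one, Module.End.one_apply, LieAlgebra.ad_apply] at h1
    rw [add_comm]
    exact h1
  -- invariance
  have hall : ∀ a x y : J, g ⁅a, x⁆ y + g x ⁅a, y⁆ = 0 := by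
    let T : LieSubalgebra K J :=
      { carrier := {a : J | ∀ x y : J, g ⁅a, x⁆ y + g x ⁅a, y⁆ = 0}
        add_mem' := by
          intro a c ha hc x y
          have h1 := ha x y
          have h2 := hc x y
          rw [add_lie, add_lie, map_add, map_add, LinearMap.add_apply]
          linear_combination h1 + h2
        zero_mem' := by
          intro x y
          rw [zero_lie, zero_lie, map_zero, map_zero, LinearMap.zero_apply, add_zero]
        smul_mem' := by
          intro r a ha x y
          have h1 := ha x y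
          rw [smul_lie, smul_lie, map_smul, map_smul, LinearMap.smul_apply, smul_eq_mul,
            smul_eq_mul]
          linear_combination r * h1
        lie_mem' := by
          intro a c ha hc x y
          have h1 := ha ⁅c, x⁆ y
          have h2 := hc x ⁅a, y⁆
          have h3 := hc ⁅a, x⁆ y
          have h4 := ha x ⁅c, y⁆
          rw [lie_lie, lie_lie, map_sub, map_sub, LinearMap.sub_apply]
          linear_combination h1 - h3 + h4 - h2 }
    have hT : LieSubalgebra.lieSpan K J {x : J | (LieAlgebra.ad K J x) ^ N = 0} ≤ T :=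
      LieSubalgebra.lieSpan_le.2 fun x hx => hder x hx
    intro a
    have h1 : a ∈ T := hT (by rw [hgen]; exact LieSubalgebra.mem_top a)
    exact h1
  refine ⟨g, hall, ?_⟩
  let R : LieIdeal K J :=
    { carrier := {x : J | ∀ y : J, g x y = 0}
      add_mem' := by
        intro a c ha hc y
        rw [map_add, LinearMap.add_apply, ha y, hc y, add_zero]
      zero_mem' := by
        intro y
        rw [map_zero, LinearMap.zero_apply]
      smul_mem' := by
        intro r a ha y
        rw [map_smul, LinearMap.smul_apply, ha y, smul_zero]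
      lie_mem := by
        intro a x hx y
        have h1 := hall a x y
        rw [hx ⁅a, y⁆, add_zero] at h1
        exact h1 }
  have hR : R = ⊥ := by
    rcases hsim R with h1 | h1
    · exact h1
    · exfalso
      have hbR : b ∈ R := by rw [h1]; trivial
      have h2 := hg b hb0 hb z0
      rw [hbR z0, zero_smul] at h2
      exact hz0 h2
  intro x hx
  have hxR : x ∈ R := hx
  rw [hR] at hxR
  exact (LieSubmodule.mem_bot x).1 hxR

end H18.KG
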