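import Pool.Agent.H18.KG.Hb
import Pool.Agent.H18.KG.Sh

/-!
[H18 KG RB] weight 2, MP_9fed08_al.  The Heisenberg algebra of an extremal element is small (imports used as
given).

`Z = range (ad b) ⊓ ker (ad b)`, `z = finrank Z`; `b ∈ Z` (`⁅h, b⁆ = 2 b` gives `b = ⁅b, - h / 2⁆`, `h = ⁅b, f⁆`), `ρ b ≠ 0` (`hinj`,
`b ≠ 0`), so there is `v : V` with `ρ b v ≠ 0`.
(1) every `ρ x`, `x ∈ Z`, is nilpotent: `x = x₁ + c b` (`hb_one`), `[ρ h, ρ x₁] = ρ x₁` and `[ρ h, ρ b] = 2 ρ b`, so
`ρ x₁` and `ρ b` are nilpotent (`shift_nil` with `k = 1`, `c = 1` or `2`), and they commute.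
(2) `T : Z → V`, `T x = ρ x v`.  `v ∉ range T` (`ρ x v = v` with `ρ x` nilpotent gives `v = 0`), so
`finrank (range T) + 1 ≤ n = finrank V` (`Submodule.finrank_lt`).
(3) `k = finrank (ker T)`.  For `x, y ∈ ker T`: `⁅x, y⁆ = c b` (`hb_brk`), `0 = ρ ⁅x, y⁆ v = c ρ b v`, so `⁅x, y⁆ = 0`.
`ω : Z → Z → K` with `⁅x, y⁆ = ω x y • b` (bilinear, alternating; `b` is in the radical and `hb_nd` says that the radical
is `K b`).  `P = ker T ⊔ K b` (as a subspace of `Z`) is isotropic, `b ∉ ker T`, so `finrank P = k + 1`.  The map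
`Z → Dual K P`, `x ↦ ω x |_P` ... an isotropic subspace `P` of an alternating form with radical `K b` satisfies
`2 finrank P ≤ z + 1`: `LinearMap.BilinForm.finrank_orthogonal` or directly: the map `P → Dual K (Z / P)`, `x ↦ ω x ·`, has kernel
`K b`, so `finrank P - 1 ≤ z - finrank P`.  So `2 (k + 1) ≤ z + 1`.
(4) `z = finrank (range T) + k ≤ n - 1 + k`; `2 z ≤ 2 n - 2 + 2 k ≤ 2 n - 2 + z - 1`, so `z + 3 ≤ 2 n`.
-/

set_option autoImplicit false

namespace H18.KG

open Module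

theorem heis_bound (p : ℕ) [Fact p.Prime] (K : Type) [Field K] [IsAlgClosed K] [CharP K p]
    (hp2 : p ≠ 2) (J : Type) [LieRing J] [LieAlgebra K J] [FiniteDimensional K J] (V : Type)
    [AddCommGroup V] [Module K V] [FiniteDimensional K V] (hn : finrank K V < p)
    (ρ : J →ₗ[K] End K V) (hρ : H18.KC.Brk ρ) (hinj : Function.Injective ρ) (b f : J)
    (hb0 : b ≠ 0) (hb : IsExt K b) (hh : ⁅⁅b, f⁆, b⁆ = (2 : K) • b)
    (g : J →ₗ[K] J →ₗ[K] K) (hg : ∀ a x y : J, g ⁅a, x⁆ y + g x ⁅a, y⁆ = 0)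
    (hnd : ∀ x : J, (∀ y : J, g x y = 0) → x = 0) :
    finrank K (LinearMap.range (LieAlgebra.ad K J b) ⊓ LinearMap.ker (LieAlgebra.ad K J b) :
      Submodule K J) + 3 ≤ 2 * finrank K V := by
  have h2 : (2 : K) ≠ 0 := by
    intro h
    have h3 : p ∣ 2 := (CharP.cast_eq_zero_iff K p 2).1 (by exact_mod_cast h)
    have h4 := Nat.le_of_dvd (by norm_num) h3
    have h5 := (Fact.out : p.Prime).two_le
    exact hp2 (le_antisymm h4 h5)
  set Z : Submodule K J :=
    LinearMap.range (LieAlgebra.ad K J b) ⊓ LinearMap.ker (LieAlgebra.ad K J b) with hZ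
  have hker : ∀ x ∈ Z, ⁅b, x⁆ = 0 := by
    intro x hx
    have h3 := (Submodule.mem_inf.1 hx).2
    rwa [LinearMap.mem_ker, LieAlgebra.ad_apply] at h3
  have hbZ : b ∈ Z := by
    refine Submodule.mem_inf.2 ⟨⟨(-(2 : K)⁻¹) • ⁅b, f⁆, ?_⟩, ?_⟩
    · rw [LieAlgebra.ad_apply, lie_smul, ← lie_skew b ⁅b, f⁆, hh, smul_neg, neg_smul, neg_neg,
        smul_smul, inv_mul_cancel₀ h2, one_smul]
    · rw [LinearMap.mem_ker, LieAlgebra.ad_apply, lie_self]
  have hshift : ∀ (x : J) (c : K), c ≠ 0 → ⁅⁅b, f⁆, x⁆ = c • x → IsNilpotent (ρ x) := by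
    intro x c hc hx
    refine shift_nil p hn (ρ ⁅b, f⁆) (ρ x) c hc 1 ?_
    have h3 := hρ ⁅b, f⁆ x
    rw [hx, map_smul] at h3
    rw [pow_one, LinearMap.sub_apply, LinearMap.sub_apply, LinearMap.mulLeft_apply,
      LinearMap.mulRight_apply, LinearMap.smul_apply, Module.End.one_apply, h3, sub_self]
  have hnil : ∀ x ∈ Z, IsNilpotent (ρ x) := by
    intro x hx
    obtain ⟨x₁, c, hxe, hH, hx1⟩ := hb_one h2 b f hb hh x hx
    have h3 : IsNilpotent (ρ x₁) := hshift x₁ 1 one_ne_zero (by rw [hH, one_smul])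
    have h4 : IsNilpotent (ρ b) := hshift b 2 h2 hh
    have h5 : Commute (ρ x₁) (c • ρ b) := by
      refine Commute.smul_right ?_ c
      have h6 := hρ b x₁
      rw [hker x₁ hx1, map_zero] at h6
      exact (sub_eq_zero.1 h6.symm).symm
    rw [hxe, map_add, map_smul]
    exact h5.isNilpotent_add h3 (h4.smul c)
  obtain ⟨v, hv⟩ : ∃ v : V, ρ b v ≠ 0 := by
    by_contra hne
    push Not at hne
    have h3 : ρ b = 0 := LinearMap.ext hne
    exact hb0 (hinj (by rw [h3, map_zero]))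
  have hv0 : v ≠ 0 := by
    rintro rfl
    exact hv (map_zero _)
  -- the map `T`
  let T : Z →ₗ[K] V :=
    { toFun := fun x => ρ x v
      map_add' := fun x y => by rw [Submodule.coe_add, map_add, LinearMap.add_apply]
      map_smul' := fun c x => by
        rw [Submodule.coe_smul, map_smul, LinearMap.smul_apply, RingHom.id_apply] }
  have hT : ∀ x : Z, T x = ρ x v := fun x => rfl
  have hvT : v ∉ LinearMap.range T := by
    rintro ⟨x, hx⟩
    rw [hT] at hx
    obtain ⟨m, hm⟩ := hnil x x.2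
    have h3 : ∀ k : ℕ, (ρ x ^ k) v = v := by
      intro k
      induction k with
      | zero => rw [pow_zero, Module.End.one_apply]
      | succ k ih => rw [pow_succ, Module.End.mul_apply, hx, ih]
    have h4 := h3 m
    rw [hm, LinearMap.zero_apply] at h4
    exact hv0 h4.symm
  have hrT : finrank K (LinearMap.range T) < finrank K V := by
    refine Submodule.finrank_lt fun h => hvT ?_
    rw [h]
    trivial
  have hkT : ∀ x y : Z, T x = 0 → T y = 0 → ⁅(x : J), (y : J)⁆ = 0 := by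
    intro x y hx hy
    obtain ⟨c, hc⟩ := Submodule.mem_span_singleton.1 (hb_brk h2 b hb x y x.2 y.2)
    have h3 := hρ (x : J) (y : J)
    have h4 : ρ ⁅(x : J), (y : J)⁆ v = 0 := by
      rw [h3, LinearMap.sub_apply, Module.End.mul_apply, Module.End.mul_apply, ← hT y, ← hT x,
        hx, hy, map_zero, map_zero, sub_zero]
    rw [← hc, map_smul, LinearMap.smul_apply] at h4
    rcases smul_eq_zero.1 h4 with h5 | h5
    · rw [← hc, h5, zero_smul]
    · exact absurd h5 hv
  -- the functional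
  obtain ⟨lam, hlam⟩ : ∃ lam : J →ₗ[K] K, lam b ≠ 0 := by
    by_contra hne
    push Not at hne
    exact hb0 ((Module.forall_dual_apply_eq_zero_iff K b).1 hne)
  let ω : Z →ₗ[K] Z →ₗ[K] K := LinearMap.mk₂ K (fun x y => lam ⁅(x : J), (y : J)⁆)
    (fun x x' y => by rw [Submodule.coe_add, add_lie, map_add])
    (fun c x y => by rw [Submodule.coe_smul, smul_lie, map_smul])
    (fun x y y' => by rw [Submodule.coe_add, lie_add, map_add])
    (fun c x y => by rw [Submodule.coe_smul, lie_smul, map_smul])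
  have hω : ∀ x y : Z, ω x y = lam ⁅(x : J), (y : J)⁆ := fun x y => rfl
  have hω0 : ∀ x y : Z, ω x y = 0 → ⁅(x : J), (y : J)⁆ = 0 := by
    intro x y h
    obtain ⟨c, hc⟩ := Submodule.mem_span_singleton.1 (hb_brk h2 b hb x y x.2 y.2)
    rw [hω, ← hc, map_smul, smul_eq_mul] at h
    rcases mul_eq_zero.1 h with h5 | h5
    · rw [← hc, h5, zero_smul]
    · exact absurd h5 hlam
  let b' : Z := ⟨b, hbZ⟩
  let P : Submodule K Z := LinearMap.ker T ⊔ Submodule.span K {b'}
  have hiso : ∀ x ∈ P, ∀ y ∈ P, ω x y = 0 := by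
    intro x hx y hy
    obtain ⟨x0, hx0, x1, hx1, rfl⟩ := Submodule.mem_sup.1 hx
    obtain ⟨y0, hy0, y1, hy1, rfl⟩ := Submodule.mem_sup.1 hy
    obtain ⟨α, rfl⟩ := Submodule.mem_span_singleton.1 hx1
    obtain ⟨β, rfl⟩ := Submodule.mem_span_singleton.1 hy1
    have e1 : ∀ w : Z, ⁅b, (w : J)⁆ = 0 := fun w => hker w w.2
    have e2 : ∀ w : Z, ⁅(w : J), b⁆ = 0 := fun w => by rw [← lie_skew, e1, neg_zero]
    have e3 := hkT x0 y0 hx0 hy0
    rw [hω]
    have e4 : ⁅((x0 + α • b' : Z) : J), ((y0 + β • b' : Z) : J)⁆ = 0 := by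
      have e5 : ((b' : Z) : J) = b := rfl
      rw [Submodule.coe_add, Submodule.coe_add, Submodule.coe_smul, Submodule.coe_smul, e5,
        add_lie, lie_add, lie_add, e3, lie_smul, smul_lie, smul_lie, lie_smul, e1, e2, lie_self]
      simp
    rw [e4, map_zero]
  let Ψ : P →ₗ[K] Dual K Z := ω.domRestrict P
  have hrange : LinearMap.range Ψ ≤ P.dualAnnihilator := by
    rintro _ ⟨x, rfl⟩
    rw [Submodule.mem_dualAnnihilator]
    intro y hy
    exact hiso x x.2 y hy
  have hkerΨ : finrank K (LinearMap.ker Ψ) ≤ 1 := by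
    have h3 : (LinearMap.ker Ψ).map (Submodule.subtype P) ≤ Submodule.span K {b'} := by
      rintro _ ⟨x, hx, rfl⟩
      have h4 : ∀ y ∈ Z, ⁅((x : Z) : J), y⁆ = 0 := by
        intro y hy
        refine hω0 (x : Z) ⟨y, hy⟩ ?_
        have h5 : Ψ x = 0 := hx
        exact LinearMap.congr_fun h5 ⟨y, hy⟩
      obtain ⟨c, hc⟩ := Submodule.mem_span_singleton.1
        (hb_nd h2 b f hb hh g hg hnd ((x : Z) : J) (x : Z).2 h4)
      refine Submodule.mem_span_singleton.2 ⟨c, ?_⟩
      exact Subtype.ext hc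
    have h5 : finrank K ((LinearMap.ker Ψ).map (Submodule.subtype P)) =
        finrank K (LinearMap.ker Ψ) :=
      Submodule.finrank_map_subtype_eq P (LinearMap.ker Ψ)
    have h6 := Submodule.finrank_mono h3
    have h7 := finrank_span_le_card (R := K) ({b'} : Set Z)
    simp at h7
    omega
  have h3 := LinearMap.finrank_range_add_finrank_ker Ψ
  have h4 := Subspace.finrank_add_finrank_dualAnnihilator_eq (W := P)
  have h5 := Submodule.finrank_mono hrange
  have h6 := LinearMap.finrank_range_add_finrank_ker T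
  have h7 : finrank K (LinearMap.ker T) < finrank K P := by
    refine Submodule.finrank_lt_finrank_of_lt ?_
    refine lt_of_le_of_ne le_sup_left fun h => ?_
    have h8 : b' ∈ P := Submodule.mem_sup_right (Submodule.mem_span_singleton_self b')
    rw [← h] at h8
    exact hv h8
  omega

end H18.KG
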