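import Pool.Agent.H18.KD.Sand

/-!
[H18 KG SN] weight 1, MP_9fed08_al.  No nonzero sandwich elements, version of `H18.KD.no_sandwich` with a bound `N` for
the nilpotency of the generators.

Copy the proof of `no_sandwich` in `H18/KD/Sand.lean` (its private lemmas must be copied too); the only place where
`finrank K J` is used is `hinv`: replace `finrank K J` by `N` there (`hN0` is now the hypothesis; `2 * N < p`); the generators
are `{x | (ad x) ^ N = 0}`.
-/

set_option autoImplicit false

namespace H18.KG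

open Module H18.KD

section sandwich

variable {K J : Type} [Field K] [LieRing J] [LieAlgebra K J]

private theorem sand_ad (c d : J) : LieAlgebra.ad K J ⁅c, d⁆ =
    LieAlgebra.ad K J c * LieAlgebra.ad K J d - LieAlgebra.ad K J d * LieAlgebra.ad K J c := by
  ext y
  exact lie_lie c d y

private theorem sand_sq {c : J} (hc : ∀ y : J, ⁅c, ⁅c, y⁆⁆ = 0) :
    LieAlgebra.ad K J c * LieAlgebra.ad K J c = 0 := by
  ext y
  exact hc y

private theorem sand_mid (h2 : (2 : K) ≠ 0) {c : J} (hc : ∀ y : J, ⁅c, ⁅c, y⁆⁆ = 0) (x : J) :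
    LieAlgebra.ad K J c * LieAlgebra.ad K J x * LieAlgebra.ad K J c = 0 := by
  have h1 : LieAlgebra.ad K J ⁅c, ⁅c, x⁆⁆ = 0 := by rw [hc x, map_zero]
  rw [sand_ad, sand_ad] at h1
  have h3 := sand_sq (K := K) hc
  have h4 : (2 : K) • (LieAlgebra.ad K J c * LieAlgebra.ad K J x * LieAlgebra.ad K J c) = 0 := by
    have h5 : LieAlgebra.ad K J c * (LieAlgebra.ad K J c * LieAlgebra.ad K J x -
        LieAlgebra.ad K J x * LieAlgebra.ad K J c) - (LieAlgebra.ad K J c * LieAlgebra.ad K J x -
        LieAlgebra.ad K J x * LieAlgebra.ad K J c) * LieAlgebra.ad K J c =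
        (LieAlgebra.ad K J c * LieAlgebra.ad K J c) * LieAlgebra.ad K J x +
        LieAlgebra.ad K J x * (LieAlgebra.ad K J c * LieAlgebra.ad K J c) -
        (LieAlgebra.ad K J c * LieAlgebra.ad K J x * LieAlgebra.ad K J c +
          LieAlgebra.ad K J c * LieAlgebra.ad K J x * LieAlgebra.ad K J c) := by
      noncomm_ring
    rw [h5, h3, zero_mul, mul_zero, zero_add, zero_sub, neg_eq_zero] at h1
    rw [two_smul]
    exact h1
  exact (smul_eq_zero.1 h4).resolve_left h2

private theorem sand_lie (h2 : (2 : K) ≠ 0) {c d : J} (hc : ∀ y : J, ⁅c, ⁅c, y⁆⁆ = 0)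
    (hd : ∀ y : J, ⁅d, ⁅d, y⁆⁆ = 0) : ∀ y : J, ⁅⁅c, d⁆, ⁅⁅c, d⁆, y⁆⁆ = 0 := by
  have h1 : LieAlgebra.ad K J ⁅c, d⁆ * LieAlgebra.ad K J ⁅c, d⁆ = 0 := by
    rw [sand_ad]
    have h5 : (LieAlgebra.ad K J c * LieAlgebra.ad K J d -
        LieAlgebra.ad K J d * LieAlgebra.ad K J c) * (LieAlgebra.ad K J c * LieAlgebra.ad K J d -
        LieAlgebra.ad K J d * LieAlgebra.ad K J c) =
        (LieAlgebra.ad K J c * LieAlgebra.ad K J d * LieAlgebra.ad K J c) * LieAlgebra.ad K J d -
        LieAlgebra.ad K J c * (LieAlgebra.ad K J d * LieAlgebra.ad K J d) * LieAlgebra.ad K J c -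
        LieAlgebra.ad K J d * (LieAlgebra.ad K J c * LieAlgebra.ad K J c) * LieAlgebra.ad K J d +
        (LieAlgebra.ad K J d * LieAlgebra.ad K J c * LieAlgebra.ad K J d) *
          LieAlgebra.ad K J c := by
      noncomm_ring
    rw [h5, sand_sq hc, sand_sq hd, sand_mid h2 hc d, sand_mid h2 hd c]
    simp
  intro y
  have h6 := congrArg (fun f : End K J => f y) h1
  exact h6

end sandwich

section solvable

variable {K J : Type} [Field K] [LieRing J] [LieAlgebra K J]

private theorem sand_solv (S : Set J) (I : LieIdeal K J)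
    (hI : LieSubmodule.toSubmodule I = Submodule.span K S) (k : ℕ) :
    LieSubmodule.toSubmodule (LieAlgebra.derivedSeriesOfIdeal K J k I) ≤
      Submodule.span K {w : J | ∃ T ∈ (Submodule.span K ((fun c => LieAlgebra.ad K J c) '' S)) ^ k,
        ∃ z : J, w = T z} := by
  induction k with
  | zero =>
    intro w _
    refine Submodule.subset_span ⟨1, ?_, w, rfl⟩
    rw [pow_zero]
    exact Submodule.one_le.1 le_rfl
  | succ k ih =>
    rw [LieAlgebra.derivedSeriesOfIdeal_succ, LieSubmodule.lieIdeal_oper_eq_linear_span',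
      Submodule.span_le]
    rintro _ ⟨a, ha, b, hb, rfl⟩
    have ha1 : a ∈ Submodule.span K S := by
      rw [← hI]
      exact LieAlgebra.derivedSeriesOfIdeal_le_self I k ha
    have ha2 : LieAlgebra.ad K J a ∈ Submodule.span K ((fun c => LieAlgebra.ad K J c) '' S) := by
      have h1 := Submodule.mem_map_of_mem (f := (LieAlgebra.ad K J : J →ₗ[K] End K J)) ha1
      rw [Submodule.map_span] at h1
      exact h1
    have hb1 := ih hb
    change ⁅a, b⁆ ∈ Submodule.span K _
    clear hb
    induction hb1 using Submodule.span_induction with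
    | mem w hw =>
      obtain ⟨T, hT, z, rfl⟩ := hw
      refine Submodule.subset_span ⟨LieAlgebra.ad K J a * T, ?_, z, rfl⟩
      rw [pow_succ']
      exact Submodule.mul_mem_mul ha2 hT
    | zero =>
      rw [lie_zero]
      exact Submodule.zero_mem _
    | add x y _ _ hx hy =>
      rw [lie_add]
      exact Submodule.add_mem _ hx hy
    | smul t x _ hx =>
      rw [lie_smul]
      exact Submodule.smul_mem _ t hx

end solvable

theorem no_sandwich' (p : ℕ) [Fact p.Prime] (K : Type) [Field K] [Infinite K] [CharP K p]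
    (J : Type) [LieRing J] [LieAlgebra K J] [FiniteDimensional K J] (hp2 : p ≠ 2) (N : ℕ)
    (hN : 2 * N < p) (hr : LieAlgebra.radical K J = ⊥)
    (hgen : LieSubalgebra.lieSpan K J {x : J | (LieAlgebra.ad K J x) ^ N = 0} = ⊤)
    (c : J) (hc : ∀ y : J, ⁅c, ⁅c, y⁆⁆ = 0) : c = 0 := by
  have hpp : p.Prime := Fact.out
  have h2 : (2 : K) ≠ 0 := by
    intro h0
    have h1 : ((2 : ℕ) : K) = 0 := by exact_mod_cast h0
    rw [CharP.cast_eq_zero_iff K p] at h1
    exact hp2 ((Nat.prime_dvd_prime_iff_eq hpp Nat.prime_two).1 h1)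
  rcases Nat.eq_zero_or_pos (finrank K J) with h0 | hpos
  · have : Subsingleton J := Module.finrank_zero_iff.1 h0
    exact Subsingleton.elim _ _
  obtain ⟨S, hS⟩ : ∃ S : Set J, S = {c | ∀ y : J, ⁅c, ⁅c, y⁆⁆ = 0} := ⟨_, rfl⟩
  have hSm : ∀ x, x ∈ S ↔ ∀ y : J, ⁅x, ⁅x, y⁆⁆ = 0 := by
    intro x
    rw [hS]
    rfl
  obtain ⟨m, hm⟩ := weakly_closed ((fun c => LieAlgebra.ad K J c) '' S)
    (by
      rintro _ ⟨d, hd, rfl⟩
      refine ⟨2, ?_⟩
      change LieAlgebra.ad K J d ^ 2 = 0
      rw [pow_two]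
      exact sand_sq ((hSm d).1 hd))
    (by
      rintro _ ⟨d, hd, rfl⟩ _ ⟨e, he, rfl⟩
      refine ⟨⁅d, e⁆, ?_, ?_⟩
      · rw [hSm]
        exact sand_lie h2 ((hSm d).1 hd) ((hSm e).1 he)
      · exact sand_ad d e)
  obtain ⟨U, hU⟩ : ∃ U : Submodule K J, U = Submodule.span K S := ⟨_, rfl⟩
  -- invariance under nilpotent inner derivations
  have hinv : ∀ x : J, (LieAlgebra.ad K J x) ^ N = 0 → ∀ u ∈ U, ⁅x, u⁆ ∈ U := by
    intro x hN0 u hu
    rcases Nat.eq_zero_or_pos N with hz | hz
    · rw [hz, pow_zero] at hN0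
      have h1 : u = 0 := by
        have h2 : (1 : End K J) u = (0 : End K J) u := by rw [hN0]
        exact h2
      rw [h1, lie_zero]
      exact U.zero_mem
    have hNN : LieAlgebra.ad K J x ^ (N + 1) = 0 := by
      rw [pow_succ, hN0, zero_mul]
    have hD : ∀ y z : J, LieAlgebra.ad K J x ⁅y, z⁆ =
        ⁅LieAlgebra.ad K J x y, z⁆ + ⁅y, LieAlgebra.ad K J x z⁆ := by
      intro y z
      simp only [LieAlgebra.ad_apply]
      rw [leibniz_lie]
    have hf : ∀ k : ℕ, 1 ≤ k → k + 1 < 2 * (N + 1) → (k : K) ≠ 0 := by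
      intro k hk1 hk2 hk3
      rw [CharP.cast_eq_zero_iff K p] at hk3
      have h4 := Nat.le_of_dvd hk1 hk3
      omega
    have hE : ∀ t : K, ∀ v ∈ U, texp (N + 1) (LieAlgebra.ad K J x) t v ∈ U := by
      intro t v hv
      have hsurj := texp_surj (N + 1) (LieAlgebra.ad K J x) hNN t
      have hlie := texp_lie (N + 1) (LieAlgebra.ad K J x) hD hNN hf t
      obtain ⟨E, hEdef⟩ : ∃ E, E = texp (N + 1) (LieAlgebra.ad K J x) t := ⟨_, rfl⟩
      rw [← hEdef] at hsurj hlie ⊢
      rw [hU] at hv ⊢
      induction hv using Submodule.span_induction with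
      | mem w hw =>
        refine Submodule.subset_span ?_
        rw [hSm]
        intro y
        obtain ⟨z, rfl⟩ := hsurj y
        rw [← hlie, ← hlie, (hSm w).1 hw z, map_zero]
      | zero =>
        rw [map_zero]
        exact Submodule.zero_mem _
      | add a b _ _ ha hb =>
        rw [map_add]
        exact Submodule.add_mem _ ha hb
      | smul s a _ ha =>
        rw [map_smul]
        exact Submodule.smul_mem _ s ha
    have hco := coeff_mem U (N + 1)
      (fun i => (((Nat.factorial i : ℕ) : K)⁻¹) • (LieAlgebra.ad K J x ^ i) u) (by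
        intro t
        have h1 := hE t u hu
        have h2 : ∑ i ∈ Finset.range (N + 1), t ^ i • ((((Nat.factorial i : ℕ) : K)⁻¹) •
            (LieAlgebra.ad K J x ^ i) u) =
            texp (N + 1) (LieAlgebra.ad K J x) t u := by
          rw [texp, LinearMap.sum_apply]
          refine Finset.sum_congr rfl fun i _ => ?_
          rw [LinearMap.smul_apply, mul_smul]
        rw [h2]
        exact h1)
    have h1 := hco 1 (by omega)
    simp only [Nat.factorial_one, Nat.cast_one, inv_one, one_smul, pow_one] at h1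
    exact h1
  -- the normaliser is everything
  have hnorm : ∀ x : J, ∀ u ∈ U, ⁅x, u⁆ ∈ U := by
    let NN : LieSubalgebra K J :=
      { carrier := {x | ∀ u ∈ U, ⁅x, u⁆ ∈ U}
        add_mem' := by
          intro a b ha hb u hu
          rw [add_lie]
          exact U.add_mem (ha u hu) (hb u hu)
        zero_mem' := by
          intro u _
          rw [zero_lie]
          exact U.zero_mem
        smul_mem' := by
          intro t a ha u hu
          rw [smul_lie]
          exact U.smul_mem t (ha u hu)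
        lie_mem' := by
          intro a b ha hb u hu
          rw [lie_lie]
          exact U.sub_mem (ha _ (hb u hu)) (hb _ (ha u hu)) }
    have hNle : LieSubalgebra.lieSpan K J {x : J | (LieAlgebra.ad K J x) ^ N = 0} ≤ NN := by
      rw [LieSubalgebra.lieSpan_le]
      intro x hx
      exact hinv x hx
    rw [hgen] at hNle
    intro x
    exact hNle (LieSubalgebra.mem_top x)
  let I : LieIdeal K J := { U with lie_mem := fun {x u} hu => hnorm x u hu }
  have hIU : LieSubmodule.toSubmodule I = Submodule.span K S := hU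
  have hDm : LieAlgebra.derivedSeriesOfIdeal K J m I = ⊥ := by
    rw [eq_bot_iff]
    intro w hw
    have h1 := sand_solv S I hIU m hw
    rw [hm] at h1
    have h3 : Submodule.span K {w : J | ∃ T ∈ (⊥ : Submodule K (End K J)), ∃ z : J, w = T z} ≤ ⊥ := by
      rw [Submodule.span_le]
      rintro _ ⟨T, hT, z, rfl⟩
      rw [Submodule.mem_bot] at hT
      rw [hT]
      exact Submodule.zero_mem _
    have h4 := h3 h1
    rw [Submodule.mem_bot] at h4
    rw [LieSubmodule.mem_bot]
    exact h4
  have hsol : LieAlgebra.IsSolvable I := by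
    rw [LieAlgebra.isSolvable_iff K]
    exact ⟨m, (LieIdeal.derivedSeries_eq_bot_iff I m).2 hDm⟩
  have hle := (LieAlgebra.LieIdeal.solvable_iff_le_radical K J I).1 hsol
  rw [hr] at hle
  have hcI : c ∈ I := by
    change c ∈ U
    rw [hU]
    exact Submodule.subset_span ((hSm c).2 hc)
  exact (LieSubmodule.mem_bot c).1 (hle hcI)


end H18.KG
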