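import Pool.Agent.H18.KD.Trh

/-!
[H18 KG TR] weight 1, MP_9fed08_al (short).  `H18.KD.trace_sq` with the dimension `r` identified.

The proof of `trace_sq` in `H18/KD/Trh.lean` (copy it; `trh_step`, `trh_dim`, `trh_top` may be used) has `V2 = range E ⊓ ker E`
and `finrank V2 = r + 1`; only the statement changes.
-/

set_option autoImplicit false

namespace H18.KG

open Module

theorem trace_sq' {K V : Type} [Field K] (h2 : (2 : K) ≠ 0) [AddCommGroup V] [Module K V]
    [FiniteDimensional K V] (E F H : End K V) (hH : H = E * F - F * E)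
    (hHE : H * E = E * H + (2 : K) • E) (b : V) (hb0 : b ≠ 0)
    (hb : ∀ y, E (E y) ∈ Submodule.span K {b}) (y0 : V) (hy0 : E (E y0) = b) (hEb : E b = 0)
    (hHb : H b = (2 : K) • b) :
    ∃ r : ℕ, r + 1 = finrank K (LinearMap.range E ⊓ LinearMap.ker E : Submodule K V) ∧
      2 * r + 3 ≤ finrank K V ∧ LinearMap.trace K V (H * H) = ((8 + 2 * r : ℕ) : K) := by
  have hHE' : ∀ x, H (E x) = E (H x) + (2 : K) • E x := by
    intro x
    have := LinearMap.congr_fun hHE x
    simpa using this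
  have hEH : ∀ x, E (H x) = H (E x) - (2 : K) • E x := by
    intro x
    rw [hHE' x]
    abel
  have hHx : ∀ x, H x = E (F x) - F (E x) := by
    intro x
    have := LinearMap.congr_fun hH x
    simpa using this
  have hspan : ∀ x ∈ Submodule.span K {b}, H x = (2 : K) • x ∧ E x = 0 := by
    intro x hx
    obtain ⟨c, rfl⟩ := Submodule.mem_span_singleton.mp hx
    refine ⟨?_, ?_⟩
    · rw [map_smul, hHb, smul_comm]
    · rw [map_smul, hEb, smul_zero]
  have hbspan : b ∈ Submodule.span K {b} := Submodule.mem_span_singleton_self b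
  -- the chain
  obtain ⟨V1, hV1⟩ : ∃ V1 : Submodule K V, V1 = Submodule.span K {b} := ⟨_, rfl⟩
  rw [← hV1] at hb hspan hbspan
  obtain ⟨V2, hV2⟩ : ∃ V2 : Submodule K V, V2 = LinearMap.range E ⊓ LinearMap.ker E := ⟨_, rfl⟩
  obtain ⟨V3, hV3⟩ : ∃ V3 : Submodule K V, V3 = LinearMap.ker E := ⟨_, rfl⟩
  obtain ⟨V4, hV4⟩ : ∃ V4 : Submodule K V, V4 = V1.comap E := ⟨_, rfl⟩
  obtain ⟨V5, hV5⟩ : ∃ V5 : Submodule K V, V5 = LinearMap.ker (E * E) := ⟨_, rfl⟩
  have m2 : ∀ x, x ∈ V2 ↔ (∃ z, E z = x) ∧ E x = 0 := by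
    intro x
    rw [hV2, Submodule.mem_inf, LinearMap.mem_range, LinearMap.mem_ker]
  have m3 : ∀ x, x ∈ V3 ↔ E x = 0 := by
    intro x
    rw [hV3, LinearMap.mem_ker]
  have m4 : ∀ x, x ∈ V4 ↔ E x ∈ V1 := by
    intro x
    rw [hV4, Submodule.mem_comap]
  have m5 : ∀ x, x ∈ V5 ↔ E (E x) = 0 := by
    intro x
    rw [hV5, LinearMap.mem_ker, Module.End.mul_apply]
  have l12 : V1 ≤ V2 := by
    rw [hV1, Submodule.span_singleton_le_iff_mem, m2]
    exact ⟨⟨E y0, hy0⟩, hEb⟩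
  have l23 : V2 ≤ V3 := fun x hx => (m3 x).2 ((m2 x).1 hx).2
  have l34 : V3 ≤ V4 := fun x hx => (m4 x).2 (by rw [(m3 x).1 hx]; exact V1.zero_mem)
  have l45 : V4 ≤ V5 := fun x hx => (m5 x).2 ((hspan _ ((m4 x).1 hx)).2)
  -- the action of `H`
  have a1 : ∀ x ∈ V1, H x - (2 : K) • x ∈ (⊥ : Submodule K V) := by
    intro x hx
    rw [(hspan x hx).1, sub_self]
    exact Submodule.zero_mem _
  have a2 : ∀ x ∈ V2, H x - (1 : K) • x ∈ V1 := by
    intro x hx
    obtain ⟨⟨z, rfl⟩, hx0⟩ := (m2 x).1 hx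
    have e1 : E (E (F z)) = (2 : K) • (H (E z) - (1 : K) • E z) := by
      have e2 : E (F z) = H z + F (E z) := by rw [hHx z]; abel
      have e3 : E (F (E z)) = H (E z) := by
        rw [hHx (E z), hx0, map_zero, sub_zero]
      rw [e2, map_add, e3, hEH z, one_smul, smul_sub, two_smul, two_smul]
      abel
    have e4 := hb (F z)
    rw [e1] at e4
    exact (V1.smul_mem_iff h2).1 e4
  have a3 : ∀ x ∈ V3, H x - (0 : K) • x ∈ V2 := by
    intro x hx
    have hx0 := (m3 x).1 hx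
    rw [zero_smul, sub_zero, m2]
    refine ⟨⟨F x, ?_⟩, ?_⟩
    · rw [hHx x, hx0, map_zero, sub_zero]
    · rw [hEH x, hx0, map_zero, smul_zero, sub_zero]
  have a4 : ∀ x ∈ V4, H x - (0 : K) • x ∈ V3 := by
    intro x hx
    rw [zero_smul, sub_zero, m3, hEH x, (hspan _ ((m4 x).1 hx)).1, sub_self]
  have a5 : ∀ x ∈ V5, H x - (-1 : K) • x ∈ V4 := by
    intro x hx
    rw [m4]
    have hx2 : E x ∈ V2 := (m2 _).2 ⟨⟨x, rfl⟩, (m5 x).1 hx⟩
    have e1 : E (H x - (-1 : K) • x) = H (E x) - (1 : K) • E x := by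
      rw [map_sub, map_smul, hEH x, neg_smul, one_smul, two_smul]
      abel
    rw [e1]
    exact a2 _ hx2
  have a6 : ∀ x ∈ (⊤ : Submodule K V), H x - (-2 : K) • x ∈ V5 := by
    intro x _
    rw [m5]
    have e1 : H (E (E x)) = (2 : K) • E (E x) := (hspan _ (hb x)).1
    have e2 : E (E (H x)) = (-2 : K) • E (E x) := by
      rw [hEH x, map_sub, map_smul, hEH (E x), e1, sub_self, zero_sub, neg_smul]
    rw [map_sub, map_smul, map_sub, map_smul, e2, sub_self]
  -- traces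
  have t0 : ∀ x ∈ (⊥ : Submodule K V), (H * H) x ∈ (⊥ : Submodule K V) := by
    intro x hx
    rw [Submodule.mem_bot] at hx ⊢
    rw [hx, map_zero]
  have s0 : ∀ x ∈ (⊥ : Submodule K V), H x ∈ (⊥ : Submodule K V) := by
    intro x hx
    rw [Submodule.mem_bot] at hx ⊢
    rw [hx, map_zero]
  obtain ⟨s1, t1, q1⟩ := H18.KD.trh_step ⊥ V1 bot_le H 2 a1 s0 t0
  obtain ⟨s2, t2, q2⟩ := H18.KD.trh_step V1 V2 l12 H 1 a2 s1 t1
  obtain ⟨s3, t3, q3⟩ := H18.KD.trh_step V2 V3 l23 H 0 a3 s2 t2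
  obtain ⟨s4, t4, q4⟩ := H18.KD.trh_step V3 V4 l34 H 0 a4 s3 t3
  obtain ⟨s5, t5, q5⟩ := H18.KD.trh_step V4 V5 l45 H (-1) a5 s4 t4
  obtain ⟨s6, t6, q6⟩ := H18.KD.trh_step V5 ⊤ le_top H (-2) a6 s5 t5
  have q0 : LinearMap.trace K (⊥ : Submodule K V) ((H * H).restrict t0) = 0 := by
    have : (H * H).restrict t0 = 0 := Subsingleton.elim _ _
    rw [this, map_zero]
  -- dimensions
  have d1 : finrank K V1 = 1 := by
    rw [hV1]
    exact finrank_span_singleton hb0
  have d5 : finrank K V5 = finrank K V3 + finrank K V2 := by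
    have hle : LinearMap.ker E ≤ V5 := by
      rw [← hV3]
      exact l34.trans l45
    have hmap : V5.map E = V2 := by
      ext x
      rw [Submodule.mem_map, m2]
      constructor
      · rintro ⟨z, hz, rfl⟩
        exact ⟨⟨z, rfl⟩, (m5 z).1 hz⟩
      · rintro ⟨⟨z, rfl⟩, hz⟩
        exact ⟨z, (m5 z).2 hz, rfl⟩
    have := H18.KD.trh_dim E V5 hle
    rw [hmap, ← hV3] at this
    exact this
  have d4 : finrank K V4 = finrank K V3 + 1 := by
    have hle : LinearMap.ker E ≤ V4 := by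
      rw [← hV3]
      exact l34
    have hmap : V4.map E = V1 := by
      ext x
      rw [Submodule.mem_map]
      constructor
      · rintro ⟨z, hz, rfl⟩
        exact (m4 z).1 hz
      · intro hx
        obtain ⟨⟨z, rfl⟩, -⟩ := (m2 x).1 (l12 hx)
        exact ⟨z, (m4 z).2 hx, rfl⟩
    have := H18.KD.trh_dim E V4 hle
    rw [hmap, ← hV3, d1] at this
    exact this
  have d6 : finrank K V = finrank K V5 + 1 := by
    have h3 := LinearMap.finrank_range_add_finrank_ker (E * E)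
    have h4 : LinearMap.range (E * E) = V1 := by
      ext x
      rw [LinearMap.mem_range]
      constructor
      · rintro ⟨z, rfl⟩
        exact hb z
      · intro hx
        rw [hV1] at hx
        obtain ⟨c, rfl⟩ := Submodule.mem_span_singleton.mp hx
        refine ⟨c • y0, ?_⟩
        rw [map_smul, Module.End.mul_apply, hy0]
    rw [h4, d1, ← hV5] at h3
    omega
  have g12 : 1 ≤ finrank K V2 := by
    rw [← d1]
    exact Submodule.finrank_mono l12
  have g23 : finrank K V2 ≤ finrank K V3 := Submodule.finrank_mono l23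
  obtain ⟨r, hr⟩ : ∃ r, finrank K V2 = r + 1 := ⟨finrank K V2 - 1, by omega⟩
  refine ⟨r, by rw [← hV2]; exact hr.symm, by omega, ?_⟩
  have e6 : finrank K (⊤ : Submodule K V) = finrank K V := finrank_top K V
  rw [← H18.KD.trh_top (H * H) t6, q6, q5, q4, q3, q2, q1, q0, e6, d6, d5, d4, d1, hr, finrank_bot]
  push_cast
  ring

end H18.KG
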