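import Pool.Agent.H18.KD.Mnr
import Pool.Agent.H18.KW.SlSect
import Pool.Agent.H18.KG.Gn
import Pool.Agent.H18.KG.Sn
import Pool.Agent.H18.KG.Cu
import Pool.Agent.H18.KG.Iv
import Pool.Agent.H18.KG.Tr
import Pool.Agent.H18.KG.Rb

/-!
[H18 KG CS] weight 2, MP_9fed08_al.  A simple Lie algebra with the package has a nonzero Killing form (assembly
in the style of `crit2` in `H18/KD/Kil2.lean`; imports used as given).

Assume `J` nontrivial.  `2 finrank V < p`: `finrank V ≥ 1` (`J` embeds in `End K V`), in the first alternative `p > 4`; in the second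
`finrank J ≥ 3`?  Only needed: `p ≠ 2, 3` and `p > 3`: a perfect nontrivial `J` has `finrank J ≥ 3`, or simply: `finrank J ≥ 2`
gives `p > 4` in the second alternative (`finrank J = 1` is abelian, not perfect), and `4 * finrank V < p` with
`finrank V ≥ 1` gives `p > 4`.
Radical `⊥` (`hsim`; `radical = ⊤` means `J` solvable and perfect, so trivial).  Centre zero (it is in the radical,
or `hsim`).  Generators: `gen_nil`, `Pack.nil`: `{x | IsNilpotent (ρ x)} ⊆ {x | (ad x) ^ N = 0}`, so the latter generates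
(`LieSubalgebra.lieSpan_mono`).  `no_sandwich'`.  A nonzero `x` with `(ad x) ^ N = 0` exists (else the span is `⊥`).
`exists_cube'` gives `c`, `H18.KD.exists_extremal` gives `b ≠ 0`, `IsExt K b`; as in `crit2` there are `y0`, `f` with
`⁅b, ⁅b, y0⁆⁆ = b`, `f = - 2 y0`, `⁅⁅b, f⁆, b⁆ = 2 b`.  `inv_form` (with `hbn` from `no_sandwich'`).
`trace_sq'` for `E = ad b`, `F = ad f`, `H = ad ⁅b, f⁆`: the trace of `H * H` is `8 + 2 r`, and it is zero by `hk`.
Alternative 1: `heis_bound`: `r + 1 + 3 ≤ 2 n`, `8 + 2 r ≤ 4 n < p`, so `8 + 2 r ≠ 0` in `K`.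
Alternative 2: `2 r + 3 ≤ finrank J`, `8 + 2 r ≤ finrank J + 5`; if `finrank J ≥ 5` this is `≤ 2 finrank J < p`; if
`finrank J ≤ 4` then `r = 0` and `8 ≠ 0` in `K` (`p ≠ 2`, `8 = 2 ^ 3`).
-/

set_option autoImplicit false

namespace H18.KG

open Module

private theorem cs_ad {K : Type} [Field K] {J : Type} [LieRing J] [LieAlgebra K J] (x y : J) :
    LieAlgebra.ad K J ⁅x, y⁆ =
      LieAlgebra.ad K J x * LieAlgebra.ad K J y - LieAlgebra.ad K J y * LieAlgebra.ad K J x := by
  ext z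
  simp only [LieAlgebra.ad_apply, LinearMap.sub_apply, Module.End.mul_apply, lie_lie]

/-- a nontrivial perfect Lie algebra has dimension at least two -/
private theorem cs_two {K : Type} [Field K] {J : Type} [LieRing J] [LieAlgebra K J]
    [FiniteDimensional K J] [Nontrivial J] (hperf : Perf K J) : 2 ≤ finrank K J := by
  by_contra hlt
  have h1 : finrank K J ≤ 1 := by omega
  obtain ⟨v, hv⟩ := (finrank_le_one_iff (K := K) (V := J)).1 h1
  have hab : ∀ x y : J, ⁅x, y⁆ = 0 := by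
    intro x y
    obtain ⟨a, rfl⟩ := hv x
    obtain ⟨c, rfl⟩ := hv y
    rw [smul_lie, lie_smul, lie_self, smul_zero, smul_zero]
  have h2 : ⁅(⊤ : LieIdeal K J), (⊤ : LieIdeal K J)⁆ = (⊥ : LieIdeal K J) := by
    rw [eq_bot_iff, LieSubmodule.lieIdeal_oper_eq_span, LieSubmodule.lieSpan_le]
    rintro _ ⟨x, y, rfl⟩
    rw [SetLike.mem_coe, LieSubmodule.mem_bot]
    exact hab _ _
  have h3 : (⊤ : LieIdeal K J) = ⊥ := by
    rw [← h2]
    exact hperf.symm
  obtain ⟨x, hx⟩ := exists_ne (0 : J)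
  have h4 : x ∈ (⊤ : LieIdeal K J) := LieSubmodule.mem_top x
  rw [h3, LieSubmodule.mem_bot] at h4
  exact hx h4

/-- perfect Lie algebras are not solvable -/
private theorem cs_rad {K : Type} [Field K] {J : Type} [LieRing J] [LieAlgebra K J]
    [FiniteDimensional K J] [Nontrivial J] (hperf : Perf K J)
    (hsim : ∀ I : LieIdeal K J, I = ⊥ ∨ I = ⊤) : LieAlgebra.radical K J = ⊥ := by
  rcases hsim (LieAlgebra.radical K J) with h | h
  · exact h
  · exfalso
    have hs : LieAlgebra.IsSolvable (LieAlgebra.radical K J) := inferInstance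
    obtain ⟨n, hn⟩ := (H18.KW.sls_solv _).1 hs
    rw [h] at hn
    have h1 : ∀ k : ℕ, LieAlgebra.derivedSeriesOfIdeal K J k ⊤ = ⊤ := by
      intro k
      induction k with
      | zero => rfl
      | succ k ih =>
        rw [LieAlgebra.derivedSeriesOfIdeal_succ, ih]
        exact hperf
    rw [h1] at hn
    obtain ⟨x, hx⟩ := exists_ne (0 : J)
    have h4 : x ∈ (⊤ : LieIdeal K J) := LieSubmodule.mem_top x
    rw [hn, LieSubmodule.mem_bot] at h4
    exact hx h4

theorem crit_simple (p : ℕ) [Fact p.Prime] (K : Type) [Field K] [IsAlgClosed K] [CharP K p]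
    (J : Type) [LieRing J] [LieAlgebra K J] [FiniteDimensional K J] (V : Type)
    [AddCommGroup V] [Module K V] [FiniteDimensional K V] (N : ℕ) (ρ : J →ₗ[K] End K V)
    (hP : Pack p N ρ) (hperf : Perf K J) (hsim : ∀ I : LieIdeal K J, I = ⊥ ∨ I = ⊤)
    (hk : ∀ x y : J, LinearMap.trace K J (LieAlgebra.ad K J x * LieAlgebra.ad K J y) = 0) :
    Subsingleton J := by
  by_contra hns
  rw [not_subsingleton_iff_nontrivial] at hns
  haveI := hns
  haveI : Infinite K := IsAlgClosed.instInfinite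
  have hp : p.Prime := Fact.out
  have hJ2 := cs_two (K := K) hperf
  have hV1 : 1 ≤ finrank K V := by
    by_contra hlt
    have h0 : finrank K V = 0 := by omega
    have hs : Subsingleton V := Module.finrank_zero_iff.1 h0
    obtain ⟨x, hx⟩ := exists_ne (0 : J)
    apply hx
    apply hP.inj
    exact Subsingleton.elim _ _
  have hp4 : 4 < p := by
    rcases hP.alt with h | h <;> omega
  have hnz : ∀ k : ℕ, 1 ≤ k → k < p → (k : K) ≠ 0 := by
    intro k hk1 hk2 h
    have h1 := Nat.le_of_dvd hk1 ((CharP.cast_eq_zero_iff K p k).1 h)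
    omega
  have h2 : (2 : K) ≠ 0 := by
    have := hnz 2 (by omega) (by omega)
    exact_mod_cast this
  have h3 : (3 : K) ≠ 0 := by
    have := hnz 3 (by omega) (by omega)
    exact_mod_cast this
  have hp2 : p ≠ 2 := by omega
  have hr := cs_rad (K := K) hperf hsim
  have hgen0 := gen_nil p K J hperf V hP.dim ρ hP.brk
  have hgen : LieSubalgebra.lieSpan K J {x : J | (LieAlgebra.ad K J x) ^ N = 0} = ⊤ := by
    rw [eq_top_iff, ← hgen0]
    exact LieSubalgebra.lieSpan_mono fun x hx => hP.nil x hx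
  have hs : ∀ c : J, (∀ y : J, ⁅c, ⁅c, y⁆⁆ = 0) → c = 0 := fun c hc =>
    no_sandwich' p K J hp2 N hP.bd hr hgen c hc
  have hcen : ∀ x : J, (∀ y : J, ⁅x, y⁆ = 0) → x = 0 := by
    intro x hx
    apply hs
    intro y
    rw [hx y, lie_zero]
  obtain ⟨x, hx0, hxN⟩ : ∃ x : J, x ≠ 0 ∧ (LieAlgebra.ad K J x) ^ N = 0 := by
    by_contra hcon
    push Not at hcon
    have h4 : LieSubalgebra.lieSpan K J {x : J | (LieAlgebra.ad K J x) ^ N = 0} ≤ ⊥ := by
      rw [LieSubalgebra.lieSpan_le]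
      intro x hx
      by_contra hx2
      apply hcon x
      · intro h
        apply hx2
        rw [h]
        exact LieSubalgebra.zero_mem _
      · exact hx
    rw [hgen] at h4
    obtain ⟨x, hx⟩ := exists_ne (0 : J)
    have h5 := h4 (LieSubalgebra.mem_top x)
    exact hx ((LieSubalgebra.mem_bot x).1 h5)
  obtain ⟨c, hc0, hc⟩ := exists_cube' p hcen N hP.bd x hx0 hxN
  obtain ⟨b, hb0, hb⟩ := H18.KD.exists_extremal K h2 h3 J hs c hc0 hc
  have hy : ∃ y : J, ⁅b, ⁅b, y⁆⁆ ≠ 0 := by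
    by_contra hcon
    push Not at hcon
    exact hb0 (hs b hcon)
  obtain ⟨g, hg, hnd⟩ := inv_form p K J N hP.bd hgen hsim b hb hy
  obtain ⟨y, hy⟩ := hy
  obtain ⟨l, hl⟩ := Submodule.mem_span_singleton.1 (hb y)
  have hl0 : l ≠ 0 := by
    rintro rfl
    rw [zero_smul] at hl
    exact hy hl.symm
  obtain ⟨y0, hy0⟩ : ∃ y0 : J, y0 = l⁻¹ • y := ⟨_, rfl⟩
  have hby0 : ⁅b, ⁅b, y0⁆⁆ = b := by
    rw [hy0, lie_smul, lie_smul, ← hl, smul_smul, inv_mul_cancel₀ hl0, one_smul]
  obtain ⟨f, hf⟩ : ∃ f : J, f = (-2 : K) • y0 := ⟨_, rfl⟩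
  have hbf : ⁅b, ⁅b, f⁆⁆ = (-2 : K) • b := by
    rw [hf, lie_smul, lie_smul, hby0]
  have hhb : ⁅⁅b, f⁆, b⁆ = (2 : K) • b := by
    rw [← lie_skew, hbf, neg_smul, neg_neg]
  obtain ⟨r, hr0, hr1, hr2⟩ := trace_sq' h2 (LieAlgebra.ad K J b) (LieAlgebra.ad K J f)
    (LieAlgebra.ad K J ⁅b, f⁆) (cs_ad b f)
    (by
      have h5 := cs_ad (K := K) ⁅b, f⁆ b
      rw [hhb, map_smul] at h5
      rw [h5]
      abel)
    b hb0 (fun z => hb z) y0 hby0 (lie_self b) hhb
  rw [hk] at hr2
  rcases hP.alt with h | h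
  · have h6 := heis_bound p K hp2 J V hP.dim ρ hP.brk hP.inj b f hb0 hb hhb g hg hnd
    exact hnz (8 + 2 * r) (by omega) (by omega) hr2.symm
  · by_cases h5 : 5 ≤ finrank K J
    · exact hnz (8 + 2 * r) (by omega) (by omega) hr2.symm
    · have hr00 : r = 0 := by omega
      rw [hr00] at hr2
      have h7 : ((8 : ℕ) : K) = 2 * 2 * 2 := by norm_num
      have h8 : ((8 + 2 * 0 : ℕ) : K) = 2 * 2 * 2 := by
        rw [mul_zero, add_zero]
        exact h7
      rw [h8] at hr2
      exact mul_ne_zero (mul_ne_zero h2 h2) h2 hr2.symm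

end H18.KG
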