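import Mathlib
import Pool.Agent.H18.KC.UDefs

/-!
Kac-Weisfeiler equality for Lie algebras with a small representation (MP_9fed08_al): definitions.

Representations are linear maps `ρ : J →ₗ[K] End K V` with `H18.KC.Brk ρ`
(`ρ ⁅x, y⁆ = ρ x * ρ y - ρ y * ρ x`).
-/

set_option autoImplicit false

namespace H18.KG

open Module

section

variable {K : Type} [Field K] {J : Type} [LieRing J] [LieAlgebra K J] {V : Type} [AddCommGroup V]
  [Module K V]

/-- no invariant subspaces -/
def Irr (ρ : J →ₗ[K] End K V) : Prop :=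
  Nontrivial V ∧ ∀ W : Submodule K V, (∀ x : J, ∀ w ∈ W, ρ x w ∈ W) → W = ⊥ ∨ W = ⊤

variable (K J) in
/-- perfect Lie algebra -/
def Perf : Prop := ⁅(⊤ : LieIdeal K J), (⊤ : LieIdeal K J)⁆ = (⊤ : LieIdeal K J)

variable (K) in
/-- extremal elements (sandwich elements and zero allowed) -/
def IsExt (b : J) : Prop := ∀ z : J, ⁅b, ⁅b, z⁆⁆ ∈ Submodule.span K {b}

/-- the numerical package: a faithful representation `V` with `dim V < p`, elements nilpotent on `V` have
`(ad x) ^ N = 0`, `2 N < p`, and `4 dim V < p` or `2 dim J < p` -/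
structure Pack (p N : ℕ) (ρ : J →ₗ[K] End K V) : Prop where
  brk : H18.KC.Brk ρ
  inj : Function.Injective ρ
  dim : finrank K V < p
  nil : ∀ x : J, IsNilpotent (ρ x) → (LieAlgebra.ad K J x) ^ N = 0
  bd : 2 * N < p
  alt : 4 * finrank K V < p ∨ 2 * finrank K J < p

end

end H18.KG
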