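import Mathlib

/-!
[H18 KG EI] weight 1, MP_9fed08_al (Mathlib only, short).  Symmetry of the extremal form.

`X = ad x`, `Y = ad y`, `f = φ y`, `g = ψ x`.  `ad ⁅x, ⁅x, y⁆⁆ = X X Y - 2 X Y X + Y X X` and it is `f • X`.
Apply `X X Y = 2 X Y X - Y X X + f X` to `w = ⁅y, x⁆`.  `⁅x, w⁆ = - ⁅x, ⁅x, y⁆⁆ = - f • x`; `X X w = 0`;
`X Y X w = X Y (- f • x) = - f • X w = f ^ 2 • x`; so `X X Y w = 2 f ^ 2 • x + f • X w = f ^ 2 • x`.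
On the other hand `Y w = ⁅y, ⁅y, x⁆⁆ = g • y` and `X X (g • y) = g f • x`.  So `f ^ 2 = f g` (`x ≠ 0`).  By symmetry
`g ^ 2 = f g`.  So `(f - g) ^ 2 = 0`.
-/

set_option autoImplicit false

namespace H18.KG

open Module

private theorem ext_aux {K : Type} [Field K] {J : Type} [LieRing J] [LieAlgebra K J] (x y : J)
    (hx0 : x ≠ 0) (f g : K) (h1 : ⁅x, ⁅x, y⁆⁆ = f • x) (h2 : ⁅y, ⁅y, x⁆⁆ = g • y) :
    f ^ 2 = f * g := by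
  obtain ⟨w, hwd⟩ : ∃ w, w = ⁅y, x⁆ := ⟨_, rfl⟩
  have e1 : ⁅x, w⁆ = -(f • x) := by rw [hwd, ← lie_skew y x, lie_neg, h1]
  have e2 : ⁅x, ⁅y, w⁆⁆ = ⁅⁅x, y⁆, w⁆ - f • w := by
    rw [leibniz_lie x y w, e1, lie_neg, lie_smul, ← hwd, sub_eq_add_neg]
  have e3 : ⁅x, ⁅x, ⁅y, w⁆⁆⁆ = (f ^ 2) • x := by
    rw [e2, lie_sub, lie_smul, leibniz_lie x ⁅x, y⁆ w, h1, e1, lie_neg, lie_smul, smul_lie, e1,
      ← lie_skew ⁅x, y⁆ x, h1]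
    module
  have e4 : ⁅x, ⁅x, ⁅y, w⁆⁆⁆ = (f * g) • x := by
    rw [hwd, h2, lie_smul, lie_smul, h1, smul_smul, mul_comm]
  have e5 : (f ^ 2 - f * g) • x = 0 := by
    rw [sub_smul, ← e3, ← e4, sub_self]
  rcases smul_eq_zero.1 e5 with h | h
  · exact sub_eq_zero.1 h
  · exact absurd h hx0

theorem ext_symm {K : Type} [Field K] {J : Type} [LieRing J] [LieAlgebra K J] (x y : J)
    (hx0 : x ≠ 0) (hy0 : y ≠ 0) (φ ψ : J → K) (hφ : ∀ z : J, ⁅x, ⁅x, z⁆⁆ = φ z • x)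
    (hψ : ∀ z : J, ⁅y, ⁅y, z⁆⁆ = ψ z • y) : φ y = ψ x := by
  have h1 := ext_aux x y hx0 (φ y) (ψ x) (hφ y) (hψ x)
  have h2 := ext_aux y x hy0 (ψ x) (φ y) (hψ x) (hφ y)
  have h3 : (φ y - ψ x) ^ 2 = 0 := by
    linear_combination h1 + h2
  exact sub_eq_zero.1 (pow_eq_zero_iff (two_ne_zero) |>.1 h3)

end H18.KG
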