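import Pool.Agent.H18.KG.Defs
import Pool.Agent.H18.KG.Ei

/-!
[H18 KG EF] weight 1, MP_9fed08_al.  The extremal form on a Lie algebra spanned by extremal elements (import used
as given: `ext_symm`).

For `x ≠ 0` with `IsExt K x` there is a unique function `F x : J → K` with `⁅x, ⁅x, z⁆⁆ = F x z • x`
(`Submodule.mem_span_singleton`), and it is linear.  `ext_symm`: `F x y = F y x` for `x, y` of this kind.
Choose a basis `e : Basis ι K J` consisting of nonzero elements of `E = {x | IsExt K x}` (`Basis` from a spanning set: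
`Basis.extend`, `exists_linearIndependent`, `Module.Basis.ofSpan`...), `g x z = ∑ e.repr x i • F (e i) z` (finite sums,
`J` finite dimensional; `LinearMap` built with `e.constr`).
Claim: `g x z = F x z` for `x ∈ E`, `x ≠ 0`, all `z`.  Both sides are linear in `z`, and `J` is spanned by the
`e j`, so take `z = e j`: `g x (e j) = ∑ repr x i F (e i) (e j) = ∑ repr x i F (e j) (e i) = F (e j) x = F x (e j)`.
-/

set_option autoImplicit false

namespace H18.KG

open Module

theorem ext_form (K : Type) [Field K] (J : Type) [LieRing J] [LieAlgebra K J]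
    [FiniteDimensional K J] (hspan : Submodule.span K {x : J | IsExt K x} = ⊤) :
    ∃ g : J →ₗ[K] J →ₗ[K] K, ∀ x : J, x ≠ 0 → IsExt K x → ∀ z : J, ⁅x, ⁅x, z⁆⁆ = g x z • x := by
  classical
  have hF : ∀ x : J, x ≠ 0 → IsExt K x → ∃ F : J →ₗ[K] K, ∀ z, ⁅x, ⁅x, z⁆⁆ = F z • x := by
    intro x hx0 hx
    have h1 : ∀ z, ∃ c : K, ⁅x, ⁅x, z⁆⁆ = c • x := fun z => by
      obtain ⟨c, hc⟩ := Submodule.mem_span_singleton.1 (hx z)
      exact ⟨c, hc.symm⟩
    choose c hc using h1
    refine ⟨{ toFun := c, map_add' := ?_, map_smul' := ?_ }, hc⟩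
    · intro a b
      apply smul_left_injective K hx0
      simp only [add_smul, ← hc, lie_add]
    · intro r a
      apply smul_left_injective K hx0
      simp only [RingHom.id_apply, smul_eq_mul, mul_smul, ← hc, lie_smul]
  choose! F hF using hF
  have hle : (⊤ : Submodule K J) ≤ Submodule.span K {x : J | IsExt K x} := le_of_eq hspan.symm
  let e := Basis.ofSpan hle
  have he0 : ∀ i, e i ≠ 0 := fun i => e.ne_zero i
  have heE : ∀ i, IsExt K (e i) := fun i => Basis.ofSpan_subset hle ⟨i, rfl⟩
  refine ⟨e.constr K (fun i => F (e i)), ?_⟩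
  have h1 : ∀ j x, e.constr K (fun i => F (e i)) x (e j) = F (e j) x := by
    intro j x
    have h2 : (LinearMap.flip (e.constr K (fun i => F (e i)))) (e j) = F (e j) := by
      refine e.ext fun i => ?_
      rw [LinearMap.flip_apply, Basis.constr_basis]
      exact ext_symm (e i) (e j) (he0 i) (he0 j) (F (e i)) (F (e j)) (hF _ (he0 i) (heE i))
        (hF _ (he0 j) (heE j))
    exact LinearMap.congr_fun h2 x
  intro x hx0 hx z
  have h3 : e.constr K (fun i => F (e i)) x = F x := by
    refine e.ext fun j => ?_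
    rw [h1]
    exact ext_symm (e j) x (he0 j) hx0 (F (e j)) (F x) (hF _ (he0 j) (heE j)) (hF x hx0 hx)
  rw [h3]
  exact hF x hx0 hx z

end H18.KG
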