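import Mathlib

/-!
[H18 KG FR] weight 1, MP_9fed08_al (Mathlib only).  Frattini argument.

Among the Lie subalgebras `H'` of `H` with `g (H') = Q` take one of minimal dimension (`⊤` is one; `Nat.find` or
well-foundedness).  `C` = kernel of `g` restricted to `H'` (an ideal of the Lie algebra `H'`).  For `x : H'` in `C`:
`E = LieSubalgebra.engel K x` (elements of `H'` killed by a power of `ad x`).  Fitting: every `y : H'` is `a + b` with
`a ∈ E` and `b ∈ range ((ad x) ^ m)`, `m ≥ 1` large (`LinearMap.isCompl_iSup_ker_pow_iInf_range_pow`, or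
`Module.End` API), and `b ∈ C` because `C` is an ideal containing `x`.  So `g (E) = Q`; the image of `E` in `H` is a subalgebra of
dimension `≤ dim H'` with the same property, so `E = ⊤`: `ad x` is nilpotent on `H'`, so also on `C`.  Engel
(`LieAlgebra.isNilpotent_iff_forall`): `C` is nilpotent, hence solvable.
-/

set_option autoImplicit false

namespace H18.KG

open Module

theorem frattini {K : Type} [Field K] {H Q : Type} [LieRing H] [LieAlgebra K H]
    [FiniteDimensional K H] [LieRing Q] [LieAlgebra K Q] (g : H →ₗ⁅K⁆ Q)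
    (hg : Function.Surjective g) :
    ∃ H' : LieSubalgebra K H, (∀ q : Q, ∃ x ∈ H', g x = q) ∧
      LieAlgebra.IsSolvable (g.comp H'.incl).ker := by
  classical
  obtain ⟨H', hH', hmin⟩ := (measure fun H' : LieSubalgebra K H => finrank K H').wf.has_min
    {H' : LieSubalgebra K H | ∀ q : Q, ∃ x ∈ H', g x = q}
    ⟨⊤, fun q => by
      obtain ⟨x, hx⟩ := hg q
      exact ⟨x, LieSubalgebra.mem_top x, hx⟩⟩
  refine ⟨H', hH', ?_⟩
  set C : LieIdeal K H' := (g.comp H'.incl).ker with hC
  have hCmem : ∀ y : H', y ∈ C ↔ g (y : H) = 0 := fun y => by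
    rw [hC, LieHom.mem_ker]
    rfl
  have key : ∀ x : H', x ∈ C → IsNilpotent (LieAlgebra.ad K H' x) := by
    intro x hx
    have hE : ∀ y : H', y ∈ LieSubalgebra.engel K x := by
      have h1 : (LieSubalgebra.engel K x).map H'.incl ∈
          {H' : LieSubalgebra K H | ∀ q : Q, ∃ x ∈ H', g x = q} := by
        intro q
        obtain ⟨y, hy, hyq⟩ := hH' q
        obtain ⟨m, hm, hm1⟩ := ((LinearMap.eventually_isCompl_ker_pow_range_pow
          (LieAlgebra.ad K H' x)).and (Filter.eventually_ge_atTop 1)).exists
        have h2 : (⟨y, hy⟩ : H') ∈ LinearMap.ker (LieAlgebra.ad K H' x ^ m) ⊔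
            LinearMap.range (LieAlgebra.ad K H' x ^ m) := by
          rw [hm.sup_eq_top]
          trivial
        obtain ⟨a, ha, b, hb, hab⟩ := Submodule.mem_sup.1 h2
        refine ⟨a, ⟨a, ?_, rfl⟩, ?_⟩
        · exact (LieSubalgebra.mem_engel_iff K x a).2 ⟨m, ha⟩
        · obtain ⟨z, hz⟩ := hb
          have h3 : b ∈ C := by
            obtain ⟨m', rfl⟩ : ∃ m', m = m' + 1 := ⟨m - 1, by omega⟩
            rw [← hz, pow_succ', Module.End.mul_apply, LieAlgebra.ad_apply]
            exact lie_mem_left K H' C x _ hx
          have h4 : g (a : H) + g (b : H) = q := by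
            rw [← map_add, ← hyq]
            congr 1
            exact congrArg Subtype.val hab
          rwa [(hCmem b).1 h3, add_zero] at h4
      have h2 := hmin _ h1
      have h3 : finrank K H' ≤ finrank K (LieSubalgebra.engel K x) := by
        have h2' : finrank K H' ≤ finrank K ((LieSubalgebra.engel K x).map H'.incl) := not_lt.1 h2
        refine h2'.trans ?_
        have h4 : finrank K ((LieSubalgebra.engel K x).map H'.incl) =
            finrank K ((LieSubalgebra.engel K x).toSubmodule.map (H'.incl : H' →ₗ[K] H)) := rfl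
        rw [h4]
        exact Submodule.finrank_map_le _ _
      have h4 : (LieSubalgebra.engel K x).toSubmodule = ⊤ :=
        Submodule.eq_top_of_finrank_eq (le_antisymm (Submodule.finrank_le _) h3)
      intro y
      have h5 : y ∈ (LieSubalgebra.engel K x).toSubmodule := by
        rw [h4]
        trivial
      exact h5
    rw [Module.End.isNilpotent_iff_of_finite]
    intro y
    exact (LieSubalgebra.mem_engel_iff K x y).1 (hE y)
  have h1 : LieRing.IsNilpotent C := by
    rw [LieAlgebra.isNilpotent_iff_forall (R := K)]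
    intro x
    obtain ⟨n, hn⟩ := key x x.2
    refine ⟨n, ?_⟩
    ext y
    have h2 : ∀ k : ℕ, (((LieAlgebra.ad K C x ^ k) y : C) : H') =
        (LieAlgebra.ad K H' (x : H') ^ k) (y : H') := by
      intro k
      induction k with
      | zero => rfl
      | succ k ih =>
        rw [pow_succ', pow_succ', Module.End.mul_apply, Module.End.mul_apply, ← ih]
        rfl
    rw [h2, hn]
    rfl
  exact LieAlgebra.isSolvable_of_isNilpotent C

end H18.KG
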