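import Pool.Agent.H18.KG.Ss
import Pool.Agent.H18.KG.Fr
import Pool.Agent.H18.KW.Defs
import Pool.Agent.H18.KW.SlSect

/-!
[H18 KG FQ] weight 1, MP_9fed08_al.  A section with radical zero of a Lie algebra with a small representation has
a small faithful representation (imports used as given; `sls_solv`, `sls_map`, `sls_comap` in `H18/KW/SlSect.lean` are useful).

`IsSection`: `H0 ≤ L` and `f : H0 → Q` onto.  `frattini` for `f`: `H' ≤ H0` with `f (H') = Q`, `C = ker (f | H')`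
solvable.  `σ = ρ` restricted to `H'` (compose with the two inclusions) satisfies `Brk`.  `semis` for `H'`: `V'`,
`ρ1 : H' → End V'` vanishing on solvable ideals, so on `C`.  `ρ1` factors through `f | H'`: `ρ' : Q → End V'`,
`ρ' (f x) = ρ1 x` (`LinearMap` API: choose a linear right inverse `t` of `f | H'`, `ρ' = ρ1 ∘ t`; `t (f x) - x ∈ C`).
`Brk ρ'`.  Injective: `N = ker ρ'` is an ideal of `Q` (`Brk`); `I = (f | H')⁻¹ N`, `ρ1 (I) = 0`, so
`ρ` vanishes on `D k I` for some `k`.  The ideal `Z = {x | ρ x = 0}` of `L` is solvable (`hker`), `D k I` is a subset of its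
preimage in `H'`, so `D k I` is solvable and so is `I` (`D (k + l) I = D l (D k I)`,
`LieAlgebra.derivedSeriesOfIdeal_add`); `N = f (I)` is solvable (`sls_map`), `N ≤ radical = ⊥`.
-/

set_option autoImplicit false

namespace H18.KG

open Module

/-- the ideal of the elements acting by zero -/
private def fqKer {K : Type} [Field K] {H : Type} [LieRing H] [LieAlgebra K H] {V : Type}
    [AddCommGroup V] [Module K V] (ρ : H →ₗ[K] End K V) (hρ : H18.KC.Brk ρ) : LieIdeal K H :=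
  { LinearMap.ker ρ with
    lie_mem := fun {x n} hn => by
      have h1 : ρ n = 0 := hn
      show ρ ⁅x, n⁆ = 0
      rw [hρ x n, h1, mul_zero, zero_mul, sub_zero] }

private theorem fqKer_mem {K : Type} [Field K] {H : Type} [LieRing H] [LieAlgebra K H] {V : Type}
    [AddCommGroup V] [Module K V] (ρ : H →ₗ[K] End K V) (hρ : H18.KC.Brk ρ) (x : H) :
    x ∈ fqKer ρ hρ ↔ ρ x = 0 := Iff.rfl

theorem faithful_section (p : ℕ) [Fact p.Prime] (K : Type) [Field K] [IsAlgClosed K] [CharP K p]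
    (L Q : Type) [LieRing L] [LieAlgebra K L] [FiniteDimensional K L] [LieRing Q]
    [LieAlgebra K Q] [FiniteDimensional K Q] (hs : H18.KW.IsSection K L Q)
    (hr : LieAlgebra.radical K Q = ⊥) (V : Type) [AddCommGroup V] [Module K V]
    [FiniteDimensional K V] (hn : finrank K V < p) (ρ : L →ₗ[K] End K V) (hρ : H18.KC.Brk ρ)
    (hker : ∀ I : LieIdeal K L, (∀ x ∈ I, ρ x = 0) → LieAlgebra.IsSolvable I) :
    ∃ (V' : Type) (_ : AddCommGroup V') (_ : Module K V') (_ : FiniteDimensional K V')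
      (ρ' : Q →ₗ[K] End K V'), H18.KC.Brk ρ' ∧ Function.Injective ρ' ∧
      finrank K V' ≤ finrank K V := by
  obtain ⟨H0, f, hf⟩ := hs
  obtain ⟨H', hH', hC⟩ := frattini f hf
  set h : H' →ₗ⁅K⁆ Q := f.comp H'.incl with hh
  have hsurj : Function.Surjective h := fun q => by
    obtain ⟨x, hx, hxq⟩ := hH' q
    exact ⟨⟨x, hx⟩, hxq⟩
  set g2 : H' →ₗ⁅K⁆ L := H0.incl.comp H'.incl with hg2
  have hg2i : Function.Injective g2 := fun x y hxy => Subtype.ext (Subtype.ext hxy)
  set σ : H' →ₗ[K] End K V := ρ ∘ₗ (g2 : H' →ₗ[K] L) with hσd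
  have hσa : ∀ x, σ x = ρ (g2 x) := fun x => rfl
  have hσ : H18.KC.Brk σ := fun x y => by
    rw [hσa, hσa, hσa, LieHom.map_lie, hρ]
  obtain ⟨V', _, _, _, ρ1, hb1, hf1, hs1, hk1⟩ := semis p (finrank K V) V σ hσ rfl hn
  obtain ⟨t, ht⟩ := LinearMap.exists_rightInverse_of_surjective (h : H' →ₗ[K] Q)
    (LinearMap.range_eq_top.2 hsurj)
  have htq : ∀ q, h (t q) = q := fun q => LinearMap.congr_fun ht q
  have h1 : ∀ x : H', (ρ1 ∘ₗ t) (h x) = ρ1 x := fun x => by
    have h2 : ρ1 (t (h x) - x) = 0 := by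
      apply hs1 _ hC
      rw [LieHom.mem_ker, map_sub, htq, sub_self]
    rw [map_sub, sub_eq_zero] at h2
    exact h2
  have hb : H18.KC.Brk (ρ1 ∘ₗ t) := by
    intro a b
    obtain ⟨x, rfl⟩ := hsurj a
    obtain ⟨y, rfl⟩ := hsurj b
    rw [← LieHom.map_lie, h1, h1, h1, hb1]
  refine ⟨V', inferInstance, inferInstance, inferInstance, ρ1 ∘ₗ t, hb, ?_, hf1⟩
  set N : LieIdeal K Q := fqKer (ρ1 ∘ₗ t) hb with hN
  obtain ⟨k, hk⟩ := hk1 (N.comap h) fun x hx => by
    have h2 : h x ∈ N := hx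
    rw [hN, fqKer_mem, h1] at h2
    exact h2
  set Z : LieIdeal K L := fqKer ρ hρ with hZ
  obtain ⟨l, hl⟩ := (H18.KW.sls_solv Z).1 (hker Z fun x hx => (fqKer_mem ρ hρ x).1 hx)
  have h3 : LieAlgebra.derivedSeriesOfIdeal K H' (l + k) (N.comap h) = ⊥ := by
    rw [LieAlgebra.derivedSeriesOfIdeal_add, ← le_bot_iff]
    intro x hx
    have h4 := H18.KW.sls_comap g2 Z (LieAlgebra.derivedSeriesOfIdeal K H' k (N.comap h))
      (fun y hy => (fqKer_mem ρ hρ _).2 (hk y hy)) l hx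
    rw [hl] at h4
    have h5 : g2 x ∈ (⊥ : LieIdeal K L) := h4
    rw [LieSubmodule.mem_bot] at h5 ⊢
    exact hg2i (by rw [h5, map_zero])
  have h4 : LieAlgebra.derivedSeriesOfIdeal K Q (l + k) ((N.comap h).map h) = ⊥ := by
    rw [H18.KW.sls_map h hsurj, h3, ← le_bot_iff, LieIdeal.map_le_iff_le_comap]
    exact bot_le
  have h5 : N ≤ (N.comap h).map h := by
    intro q hq
    obtain ⟨x, rfl⟩ := hsurj q
    exact LieIdeal.mem_map hq
  have h6 : LieAlgebra.IsSolvable N := by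
    rw [H18.KW.sls_solv]
    refine ⟨l + k, ?_⟩
    rw [← le_bot_iff, ← h4]
    exact LieAlgebra.derivedSeriesOfIdeal_mono h5 _
  have h7 : N ≤ ⊥ := by
    rw [← hr]
    exact (LieAlgebra.LieIdeal.solvable_iff_le_radical K Q N).1 h6
  rw [injective_iff_map_eq_zero]
  intro q hq
  exact (LieSubmodule.mem_bot q).1 (h7 ((fqKer_mem (ρ1 ∘ₗ t) hb q).2 hq))

end H18.KG
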