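import Pool.Agent.H18.KG.In

/-!
[H18 KG KL] weight 1, MP_9fed08_al.  Nondegenerate Killing form (copy of `isKilling_of2` in `H18/KD/Kil2.lean` with `crit_perf`,
`radical_perf` and `pack_ideal` in place of `crit2` and `radical_ideal`).
-/

set_option autoImplicit false

namespace H18.KG

open Module

theorem isKilling_pack (p : ℕ) [Fact p.Prime] (K : Type) [Field K] [IsAlgClosed K] [CharP K p]
    (Q : Type) [LieRing Q] [LieAlgebra K Q] [FiniteDimensional K Q] (V : Type)
    [AddCommGroup V] [Module K V] [FiniteDimensional K V] (N : ℕ) (ρ : Q →ₗ[K] End K V)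
    (hP : Pack p N ρ) (hr : LieAlgebra.radical K Q = ⊥) : LieAlgebra.IsKilling K Q := by
  obtain ⟨I, hI⟩ : ∃ I, I = LieIdeal.killingCompl K Q ⊤ := ⟨_, rfl⟩
  have hwf : WellFoundedLT (LieIdeal K Q) := LieSubmodule.wellFoundedLT_of_isArtinian K Q Q
  obtain ⟨J, ⟨k, hk⟩, hmin⟩ := (wellFounded_lt (α := LieIdeal K Q)).has_min
    (Set.range fun k => LieAlgebra.derivedSeriesOfIdeal K Q k I) ⟨_, 0, rfl⟩
  change LieAlgebra.derivedSeriesOfIdeal K Q k I = J at hk
  have hJJ : ⁅J, J⁆ = J := by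
    have h1 : LieAlgebra.derivedSeriesOfIdeal K Q (k + 1) I ≤
        LieAlgebra.derivedSeriesOfIdeal K Q k I := LieAlgebra.derivedSeriesOfIdeal_succ_le I k
    have h2 := hmin _ ⟨k + 1, rfl⟩
    change ¬ LieAlgebra.derivedSeriesOfIdeal K Q (k + 1) I < J at h2
    rw [hk] at h1
    have h3 : LieAlgebra.derivedSeriesOfIdeal K Q (k + 1) I = J :=
      h1.eq_of_not_lt h2
    rw [LieAlgebra.derivedSeriesOfIdeal_succ, hk] at h3
    exact h3
  have hJI : J ≤ I := by
    rw [← hk]
    exact LieAlgebra.derivedSeriesOfIdeal_le_self I k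
  have hfin : finrank K J ≤ finrank K Q := Submodule.finrank_le (J : Submodule K Q)
  have hperf : ⁅(⊤ : LieIdeal K J), (⊤ : LieIdeal K J)⁆ = ⊤ := by
    have h1 := LieIdeal.derivedSeries_eq_derivedSeriesOfIdeal_comap (R := K) J 1
    rw [LieAlgebra.derivedSeries_def, LieAlgebra.derivedSeriesOfIdeal_succ,
      LieAlgebra.derivedSeriesOfIdeal_succ, LieAlgebra.derivedSeriesOfIdeal_zero,
      LieAlgebra.derivedSeriesOfIdeal_zero, hJJ, LieIdeal.comap_incl_self] at h1
    exact h1
  have hkill : ∀ x y : J,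
      LinearMap.trace K J (LieAlgebra.ad K J x * LieAlgebra.ad K J y) = 0 := by
    intro x y
    have h1 : killingForm K J x y = killingForm K Q (x : Q) (y : Q) := by
      rw [LieIdeal.killingForm_eq]
      rfl
    have h2 : killingForm K Q (x : Q) (y : Q) = 0 := by
      have h3 : (y : Q) ∈ I := hJI y.2
      rw [hI, LieIdeal.mem_killingCompl] at h3
      exact h3 x (LieSubmodule.mem_top _)
    rw [h2, killingForm_apply_apply] at h1
    exact h1
  have hJ0 : J = ⊥ := by
    have h1 := crit_perf p K V N (finrank K J) J rfl _ (pack_ideal p N ρ hP J) hperf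
      (radical_perf p K Q V hP.dim ρ hP.brk hP.inj hr J hJJ) hkill
    rw [eq_bot_iff]
    intro x hx
    have h2 : (⟨x, hx⟩ : J) = 0 := Subsingleton.elim _ _
    rw [LieSubmodule.mem_bot]
    exact congrArg Subtype.val h2
  have hsol : LieAlgebra.IsSolvable I := by
    refine LieAlgebra.IsSolvable.mk (R := K) (k := k) ?_
    rw [LieIdeal.derivedSeries_eq_bot_iff, hk, hJ0]
  have hle : I ≤ LieAlgebra.radical K Q := (LieAlgebra.LieIdeal.solvable_iff_le_radical K Q I).1 hsol
  refine ⟨?_⟩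
  rw [← hI, eq_bot_iff, ← hr]
  exact hle

end H18.KG
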