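import Pool.Agent.H18.KG.Defs

/-!
[H18 KG PK] weight 1, MP_9fed08_al (`Defs` only).  The package from a faithful representation with `4 dim V < p`, and
from the adjoint representation if `2 dim Q < p`.

`pack_rep`: `N = 2 n - 1`, `n = finrank V` (if `n = 0` then `N = 0`: `V` is trivial, so `Q` is trivial by `inj` and
`(ad x) ^ 0 = 0`, everything is a subsingleton).  If `ρ x` is nilpotent, `(ρ x) ^ n = 0`
(`LinearMap.aeval_self_charpoly`, `IsNilpotent.charpoly_eq_X_pow_finrank`, see `hN0` in `H18/KD/Sand.lean`), so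
`(mulLeft (ρ x) - mulRight (ρ x)) ^ (2 n - 1) = 0` (commuting operators with `n`-th power zero: `Commute.add_pow`, or
`Commute.add_pow_eq_zero_of_add_le_succ_of_pow_eq_zero`), and `ρ ((ad x) ^ k y) = (mulLeft - mulRight) ^ k (ρ y)`.
`2 N = 4 n - 2 < p`.
`pack_ad`: `V = Q`, `ρ = ad` as a linear map, `N = finrank Q`; injective because the centre is in the radical
(`LieAlgebra.center_le_radical`).
-/

set_option autoImplicit false

namespace H18.KG

open Module

private theorem pk_ad {K : Type} [Field K] {J : Type} [LieRing J] [LieAlgebra K J] (x y : J) :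
    LieAlgebra.ad K J ⁅x, y⁆ =
      LieAlgebra.ad K J x * LieAlgebra.ad K J y - LieAlgebra.ad K J y * LieAlgebra.ad K J x := by
  ext z
  simp only [LieAlgebra.ad_apply, LinearMap.sub_apply, Module.End.mul_apply, lie_lie]

private theorem pk_nil {K V : Type} [Field K] [AddCommGroup V] [Module K V] [FiniteDimensional K V]
    (a : End K V) (ha : IsNilpotent a) : a ^ finrank K V = 0 := by
  have h1 := LinearMap.aeval_self_charpoly a
  rw [ha.charpoly_eq_X_pow_finrank, map_pow, Polynomial.aeval_X] at h1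
  exact h1

private theorem pk_sub {R : Type} [Ring R] (l r : R) (hc : l * r = r * l) (n : ℕ) (hn : 1 ≤ n)
    (hl : l ^ n = 0) (hr : r ^ n = 0) : (l - r) ^ (2 * n - 1) = 0 := by
  have hc' : Commute l (-r) := Commute.neg_right hc
  have hr' : (-r) ^ n = 0 := by rw [neg_pow, hr, mul_zero]
  rw [sub_eq_add_neg]
  exact hc'.add_pow_eq_zero_of_add_le_succ_of_pow_eq_zero hl hr' (by omega)

theorem pack_rep (p : ℕ) [Fact p.Prime] (K : Type) [Field K] (Q : Type) [LieRing Q]
    [LieAlgebra K Q] [FiniteDimensional K Q] (V : Type) [AddCommGroup V] [Module K V]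
    [FiniteDimensional K V] (ρ : Q →ₗ[K] End K V) (hρ : H18.KC.Brk ρ)
    (hinj : Function.Injective ρ) (hn : 4 * finrank K V < p) :
    ∃ N : ℕ, Pack p N ρ := by
  have hp : 0 < p := (Fact.out : p.Prime).pos
  rcases Nat.eq_zero_or_pos (finrank K V) with h0 | h0
  · have hs : Subsingleton V := Module.finrank_zero_iff.1 h0
    have hQ : Subsingleton Q := ⟨fun x y => hinj (Subsingleton.elim _ _)⟩
    refine ⟨0, hρ, hinj, by omega, fun x _ => Subsingleton.elim _ _, by omega, Or.inl hn⟩
  · refine ⟨2 * finrank K V - 1, hρ, hinj, by omega, ?_, by omega, Or.inl hn⟩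
    intro x hx
    have h1 := pk_nil (ρ x) hx
    obtain ⟨l, hldef⟩ : ∃ l : End K (End K V), l = LinearMap.mulLeft K (ρ x) := ⟨_, rfl⟩
    obtain ⟨r, hrdef⟩ : ∃ r : End K (End K V), r = LinearMap.mulRight K (ρ x) := ⟨_, rfl⟩
    have hl : l ^ finrank K V = 0 := by
      rw [hldef, LinearMap.pow_mulLeft, h1]
      exact LinearMap.mulLeft_zero_eq_zero K _
    have hr : r ^ finrank K V = 0 := by
      rw [hrdef, LinearMap.pow_mulRight, h1]
      exact LinearMap.mulRight_zero_eq_zero K _
    have hc0 : l * r = r * l := by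
      rw [hldef, hrdef]
      ext u
      simp [mul_assoc]
    have h2 : (l - r) ^ (2 * finrank K V - 1) = 0 := pk_sub l r hc0 _ h0 hl hr
    have h3 : ∀ (k : ℕ) (y : Q), ρ (((LieAlgebra.ad K Q x) ^ k) y) =
        ((l - r) ^ k) (ρ y) := by
      intro k
      induction k with
      | zero => intro y; rfl
      | succ k ih =>
        intro y
        rw [pow_succ, pow_succ, Module.End.mul_apply, Module.End.mul_apply, ih]
        congr 1
        rw [LieAlgebra.ad_apply, hρ, LinearMap.sub_apply, hldef, hrdef,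
          LinearMap.mulLeft_apply, LinearMap.mulRight_apply]
    refine LinearMap.ext fun y => hinj ?_
    rw [h3, h2, LinearMap.zero_apply, LinearMap.zero_apply, map_zero]

theorem pack_ad (p : ℕ) [Fact p.Prime] (K : Type) [Field K] (Q : Type) [LieRing Q]
    [LieAlgebra K Q] [FiniteDimensional K Q] (hr : LieAlgebra.radical K Q = ⊥)
    (hn : 2 * finrank K Q < p) :
    ∃ (N : ℕ) (ρ : Q →ₗ[K] End K Q), Pack p N ρ := by
  refine ⟨finrank K Q, (LieAlgebra.ad K Q : Q →ₗ[K] End K Q), fun x y => pk_ad x y, ?_, by omega,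
    fun x hx => pk_nil _ hx, hn, Or.inr hn⟩
  intro x y hxy
  have h1 : LieAlgebra.ad K Q (x - y) = 0 := by
    rw [map_sub]
    exact sub_eq_zero.2 hxy
  have h2 : x - y ∈ LieAlgebra.center K Q := by
    intro z
    have h3 : ⁅x - y, z⁆ = 0 := by
      rw [← LieAlgebra.ad_apply (R := K), h1, LinearMap.zero_apply]
    rw [← lie_skew, h3, neg_zero]
  have h4 := LieAlgebra.center_le_radical K Q h2
  rw [hr, LieSubmodule.mem_bot] at h4
  exact sub_eq_zero.1 h4

end H18.KG
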