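import Pool.Agent.H18.KF.Ret

/-!
[H18 KG UK] weight 1, MP_9fed08_al.  Upper bound for Lie algebras with nondegenerate Killing form (import used as
given: `H18.KF.ub_ret`).

`A = End K Q`, `i = LieAlgebra.ad K Q` as a linear map, `π : End K Q → Q` the adjoint for the Killing form:
`killingForm K Q (π a) y = LinearMap.trace K Q (a * ad y)` for all `y` (`killingForm_nondegenerate`, so
`Q → Dual K Q` is bijective: `LinearMap.BilinForm.toDual` or `LinearEquiv.ofInjective...`).  `π (ad x) = x` by
`killingForm_apply_apply`.  `π (ad x * a - a * ad x) = ⁅x, π a⁆`: pair both sides with `y`: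
`trace ((ad x * a - a * ad x) * ad y) = trace (a * (ad y * ad x - ad x * ad y)) = trace (a * ad ⁅y, x⁆) = κ (π a) ⁅y, x⁆ = κ ⁅x, π a⁆ y`
(invariance: `LieModule.traceForm_apply_lie_apply`).
-/

set_option autoImplicit false

namespace H18.KG

open Module

/-- the functional `y ↦ trace (a * ad y)` -/
noncomputable def ukT (K : Type) [Field K] (Q : Type) [LieRing Q] [LieAlgebra K Q] :
    End K Q →ₗ[K] Dual K Q where
  toFun a := (LinearMap.trace K Q) ∘ₗ (LinearMap.mulLeft K a) ∘ₗ (LieAlgebra.ad K Q : Q →ₗ[K] End K Q)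
  map_add' a b := by
    ext y
    simp only [LinearMap.comp_apply, LinearMap.add_apply, LinearMap.mulLeft_apply, add_mul, map_add]
  map_smul' c a := by
    ext y
    simp only [LinearMap.comp_apply, LinearMap.smul_apply, LinearMap.mulLeft_apply, smul_mul_assoc,
      map_smul, RingHom.id_apply]

theorem ukT_apply (K : Type) [Field K] (Q : Type) [LieRing Q] [LieAlgebra K Q] (a : End K Q)
    (y : Q) : ukT K Q a y = LinearMap.trace K Q (a * LieAlgebra.ad K Q y) := rfl

private theorem uk_ad {K : Type} [Field K] {J : Type} [LieRing J] [LieAlgebra K J] (x y : J) :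
    LieAlgebra.ad K J ⁅x, y⁆ =
      LieAlgebra.ad K J x * LieAlgebra.ad K J y - LieAlgebra.ad K J y * LieAlgebra.ad K J x := by
  ext z
  simp only [LieAlgebra.ad_apply, LinearMap.sub_apply, Module.End.mul_apply, lie_lie]

theorem ub_kil (p : ℕ) [Fact p.Prime] (K : Type) [Field K] [IsAlgClosed K] [CharP K p]
    (Q : Type) [LieRing Q] [LieAlgebra K Q] [FiniteDimensional K Q] [LieAlgebra.IsKilling K Q]
    (hQ : H18.KW.Restrictable p K Q) : H18.KW.UB p K Q := by
  have hinj : Function.Injective (killingForm K Q) := by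
    rw [← LinearMap.ker_eq_bot]
    exact LieAlgebra.IsKilling.ker_killingForm_eq_bot K Q
  let e : Q ≃ₗ[K] Dual K Q :=
    LinearEquiv.ofInjectiveOfFinrankEq (killingForm K Q) hinj (Subspace.dual_finrank_eq).symm
  have he : ∀ x, e x = killingForm K Q x := fun x => rfl
  let π : End K Q →ₗ[K] Q := e.symm.toLinearMap ∘ₗ ukT K Q
  have hπ : ∀ a y, killingForm K Q (π a) y = LinearMap.trace K Q (a * LieAlgebra.ad K Q y) := by
    intro a y
    rw [← he, ← ukT_apply]
    show e (e.symm (ukT K Q a)) y = _
    rw [LinearEquiv.apply_symm_apply]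
  have hext : ∀ x y : Q, (∀ z, killingForm K Q x z = killingForm K Q y z) → x = y := by
    intro x y h
    exact hinj (LinearMap.ext h)
  refine H18.KF.ub_ret p K Q hQ (End K Q) (LieAlgebra.ad K Q : Q →ₗ[K] End K Q)
    (fun x y => uk_ad x y) π ?_ ?_
  · intro x
    apply hext
    intro z
    rw [hπ, killingForm_apply_apply]
    rfl
  · intro x a
    apply hext
    intro z
    have h1 : killingForm K Q ⁅x, π a⁆ z = killingForm K Q (π a) ⁅z, x⁆ := by
      have h2 := LieModule.traceForm_apply_lie_apply' K Q Q x (π a) z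
      rw [← lie_skew z x, map_neg]
      exact h2
    rw [h1, hπ, hπ, uk_ad]
    show LinearMap.trace K Q ((LieAlgebra.ad K Q x * a - a * LieAlgebra.ad K Q x) *
      LieAlgebra.ad K Q z) = _
    rw [sub_mul, mul_sub, map_sub, map_sub, mul_assoc, LinearMap.trace_mul_comm K
      (LieAlgebra.ad K Q x), mul_assoc, mul_assoc]

end H18.KG
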