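import Pool.Agent.H18.KC.Fin
import Pool.Agent.H18.KG.Kl
import Pool.Agent.H18.KG.Uk
import Pool.Agent.H18.KG.Pk
import Pool.Agent.H18.KG.Fq

/-!
[H18 KG FN] MP_9fed08_al (helper18).  KW1 for Lie algebras with a small representation with solvable kernel.
-/

set_option autoImplicit false

namespace H18.KG

open Module H18.KC

/-- the hypothesis of the theorem -/
def SmallRep (p : ℕ) (K : Type) [Field K] (L : Type) [LieRing L] [LieAlgebra K L] : Prop :=
  (∃ (V : Type) (_ : AddCommGroup V) (_ : Module K V) (_ : FiniteDimensional K V)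
    (ρ : L →ₗ[K] End K V), H18.KC.Brk ρ ∧
      (∀ I : LieIdeal K L, (∀ x ∈ I, ρ x = 0) → LieAlgebra.IsSolvable I) ∧
      4 * finrank K V < p) ∨
  2 * finrank K (L ⧸ LieAlgebra.radical K L) < p

private theorem fnk_irr {K : Type} [Field K] {L : Type} [LieRing L] [LieAlgebra K L]
    {M : Type} [AddCommGroup M] [Module K M] [LieRingModule L M] [LieModule K L M]
    (hM : LieModule.IsIrreducible K L M) :
    H18.KW.IrrOn (LinearMap.range (H18.KW.stRho K L M) ⊔ H18.KW.scal K M) := by
  refine ⟨LieModule.nontrivial_of_isIrreducible K L M, fun W hW => ?_⟩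
  let N : LieSubmodule K L M :=
    { W with
      lie_mem := fun {x m} hm => hW (H18.KW.stRho K L M x)
        (Submodule.mem_sup_left ⟨x, rfl⟩) m hm }
  rcases hM.eq_bot_or_eq_top N with h | h
  · left
    have h2 : (N : Submodule K M) = ⊥ := by rw [h]; rfl
    exact h2
  · right
    have h2 : (N : Submodule K M) = ⊤ := by rw [h]; rfl
    exact h2

private theorem fnk_cent {K : Type} [Field K] [IsAlgClosed K] {L : Type} [LieRing L]
    [LieAlgebra K L] {M : Type} [AddCommGroup M] [Module K M] [LieRingModule L M]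
    [LieModule K L M] [FiniteDimensional K M] (hM : LieModule.IsIrreducible K L M) (z : L)
    (hz : ∀ y : L, ⁅z, y⁆ = 0) : ∃ c : K, ∀ m : M, ⁅z, m⁆ = c • m := by
  have h1 := H18.KW.schur_scal _ (fnk_irr hM) (H18.KW.stRho K L M z) (by
    intro X hX
    obtain ⟨x, a, rfl⟩ := (H18.KW.mem_stE K L M X).mp hX
    have h2 : H18.KW.stRho K L M z * H18.KW.stRho K L M x =
        H18.KW.stRho K L M x * H18.KW.stRho K L M z := by
      rw [← sub_eq_zero, ← H18.KW.stRho_lie, hz, map_zero]
    rw [add_mul, mul_add, h2, smul_mul_assoc, mul_smul_comm, one_mul, mul_one])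
  obtain ⟨c, hc⟩ := Submodule.mem_span_singleton.mp h1
  refine ⟨c, fun m => ?_⟩
  rw [← H18.KW.stRho_apply K L M z m, ← hc]
  rfl

private theorem fnk_restr (p : ℕ) (K : Type) [Field K] (L' Q : Type) [LieRing L']
    [LieAlgebra K L'] [LieRing Q] [LieAlgebra K Q] (π : L' →ₗ⁅K⁆ Q) (hπ : Function.Surjective π)
    (h : H18.KW.Restrictable p K L') : H18.KW.Restrictable p K Q := by
  intro x
  obtain ⟨x', rfl⟩ := hπ x
  obtain ⟨y', hy'⟩ := h x'
  refine ⟨π y', ?_⟩
  have h1 : ∀ (k : ℕ) (z : L'), ((LieAlgebra.ad K Q (π x')) ^ k) (π z) =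
      π (((LieAlgebra.ad K L' x') ^ k) z) := by
    intro k
    induction k with
    | zero => intro z; rfl
    | succ k ih =>
      intro z
      rw [pow_succ', pow_succ', Module.End.mul_apply, Module.End.mul_apply, ih,
        LieAlgebra.ad_apply, LieAlgebra.ad_apply, LieHom.map_lie]
  ext z
  obtain ⟨z', rfl⟩ := hπ z
  rw [h1, hy', LieAlgebra.ad_apply, LieAlgebra.ad_apply, LieHom.map_lie]

/-- sections with radical zero have a nondegenerate Killing form -/
theorem section_killing (p : ℕ) [Fact p.Prime] (K : Type) [Field K] [IsAlgClosed K] [CharP K p]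
    (L : Type) [LieRing L] [LieAlgebra K L] [FiniteDimensional K L] (h : SmallRep p K L)
    (Q : Type) [LieRing Q] [LieAlgebra K Q] [FiniteDimensional K Q] (hs : H18.KW.IsSection K L Q)
    (hQr : LieAlgebra.radical K Q = ⊥) : LieAlgebra.IsKilling K Q := by
  rcases h with ⟨V, _, _, _, ρ, hρ, hker, hn⟩ | h2
  · obtain ⟨V', _, _, _, ρ', hρ', hinj, hle⟩ :=
      faithful_section p K L Q hs hQr V (by omega) ρ hρ hker
    obtain ⟨N, hP⟩ := pack_rep p K Q V' ρ' hρ' hinj (by omega)
    exact isKilling_pack p K Q V' N ρ' hP hQr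
  · have hdim := section_radical K L Q hs hQr
    obtain ⟨N, ρ, hP⟩ := pack_ad p K Q hQr (by omega)
    exact isKilling_pack p K Q Q N ρ hP hQr

theorem hypUB_of_rep (p : ℕ) [Fact p.Prime] (K : Type) [Field K] [IsAlgClosed K] [CharP K p]
    (L : Type) [LieRing L] [LieAlgebra K L] [FiniteDimensional K L] (h : SmallRep p K L) :
    H18.KW.HypUB p K L := by
  intro L' _ _ _ hL' hrad _ hsec
  have hQr := H18.KW.quot_center_radical K L' hrad
  have hfd : FiniteDimensional K (L' ⧸ LieAlgebra.center K L') :=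
    Module.Finite.of_surjective (H18.KW.slsQ (LieAlgebra.center K L') : L' →ₗ[K] _)
      (H18.KW.slsQ_surj (LieAlgebra.center K L'))
  have hK := section_killing p K L h (L' ⧸ LieAlgebra.center K L') hsec hQr
  have hπ := H18.KW.slsQ_surj (LieAlgebra.center K L')
  have hcen : ∀ x : L', H18.KW.slsQ (LieAlgebra.center K L') x = 0 → ∀ y : L', ⁅x, y⁆ = 0 := by
    intro x hx y
    rw [H18.KW.slsQ_eq_zero] at hx
    have h1 : ⁅y, x⁆ = 0 := hx y
    rw [← lie_skew, h1, neg_zero]
  have hUB := ub_kil p K (L' ⧸ LieAlgebra.center K L')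
    (fnk_restr p K L' _ (H18.KW.slsQ (LieAlgebra.center K L')) hπ hL')
  obtain ⟨s, hs⟩ := exists_section K L' (L' ⧸ LieAlgebra.center K L')
    (H18.KW.slsQ (LieAlgebra.center K L')) hπ hcen
  intro M _ _ _ _ hM hfM
  let i1 : LieRingModule (L' ⧸ LieAlgebra.center K L') M := LieRingModule.compLieHom M s
  have i2 : LieModule K (L' ⧸ LieAlgebra.center K L') M := LieModule.compLieHom M s
  have hact : ∀ (q : L' ⧸ LieAlgebra.center K L') (m : M), ⁅q, m⁆ = ⁅s q, m⁆ := fun _ _ => rfl
  have hnt := LieModule.nontrivial_of_isIrreducible K L' M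
  have hirr : LieModule.IsIrreducible K (L' ⧸ LieAlgebra.center K L') M := by
    apply LieModule.IsIrreducible.mk
    intro N hN
    let N' : LieSubmodule K L' M :=
      { (N : Submodule K M) with
        lie_mem := fun {x m} hm => by
          have hz : ∀ y : L', ⁅x - s (H18.KW.slsQ (LieAlgebra.center K L') x), y⁆ = 0 := by
            apply hcen
            rw [map_sub, hs, sub_self]
          obtain ⟨c, hc⟩ := fnk_cent hM _ hz
          have h2 : ⁅x, m⁆ = ⁅x - s (H18.KW.slsQ (LieAlgebra.center K L') x), m⁆ +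
              ⁅s (H18.KW.slsQ (LieAlgebra.center K L') x), m⁆ := by
            rw [sub_lie]
            abel
          have h3 : ⁅x, m⁆ ∈ N := by
            rw [h2, hc, ← hact]
            exact N.add_mem (N.smul_mem c hm) (N.lie_mem hm)
          exact h3 }
    rcases hM.eq_bot_or_eq_top N' with h | h
    · exfalso
      apply hN
      have h4 : (N' : Submodule K M) = ⊥ := by rw [h]; rfl
      have h5 : (N : Submodule K M) = ⊥ := h4
      exact (LieSubmodule.toSubmodule_eq_bot N).1 h5
    · have h4 : (N' : Submodule K M) = ⊤ := by rw [h]; rfl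
      have h5 : (N : Submodule K M) = ⊤ := h4
      exact (LieSubmodule.toSubmodule_eq_top N).1 h5
  obtain ⟨n, χ, ⟨w, -, hw⟩, hn⟩ := hUB M hirr hfM
  refine ⟨n, χ.comp (H18.KW.slsQ (LieAlgebra.center K L') : L' →ₗ[K] _),
    ⟨fun i => s (w i), fun _ => Submodule.mem_top, ?_⟩, hn⟩
  have h6 : (Matrix.of fun i j => H18.KW.lieForm
      (χ.comp (H18.KW.slsQ (LieAlgebra.center K L') : L' →ₗ[K] _)) (s (w i)) (s (w j))) =
      Matrix.of fun i j => H18.KW.lieForm χ (w i) (w j) := by
    ext i j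
    change χ (H18.KW.slsQ (LieAlgebra.center K L') ⁅s (w i), s (w j)⁆) = χ ⁅w i, w j⁆
    rw [LieHom.map_lie, hs, hs]
  rw [h6]
  exact hw

theorem kw_rep (p : ℕ) [Fact p.Prime] (K : Type) [Field K] [IsAlgClosed K] [CharP K p]
    (L : Type) [LieRing L] [LieAlgebra K L] [FiniteDimensional K L]
    (hL : H18.KW.Restrictable p K L) (h : SmallRep p K L) : H18.KW.KWEquality p K L :=
  H18.KW.kw_of p K L (H18.KW.ub_of_hyp p K L hL (hypUB_of_rep p K L h))
    (H18.KW.lb_main p K L hL)

end H18.KG
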