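import Pool.Agent.H18.KG.Defs

/-!
[H18 KG HB] weight 1, MP_9fed08_al (`Defs` only).  The Heisenberg algebra of an extremal element.

`h = ⁅b, f⁆`, `⁅h, b⁆ = 2 b`, `E = ad b`, `F = ad f`, `H = ad h = E F - F E`, `Z = range E ⊓ ker E`.
`hb_brk`: `x = E x'`, `y = E y'`, `E x = E y = 0`.  `⁅x, y⁆ = ⁅⁅b, x'⁆, y⁆ = ⁅b, ⁅x', y⁆⁆ - ⁅x', ⁅b, y⁆⁆ = E ⁅x', y⁆`,
`⁅x', y⁆ = ⁅x', ⁅b, y'⁆⁆ = E ⁅x', y'⁆ - ⁅x, y'⁆`, `E ⁅x, y'⁆ = ⁅E x, y'⁆ + ⁅x, E y'⁆ = ⁅x, y⁆`.  So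
`2 ⁅x, y⁆ = E E ⁅x', y'⁆ ∈ K b`.
`hb_one`: `x = E z ∈ Z`: `E E F z = 2 (H x - x)` (computation `a2` in `H18/KD/Trh.lean`), so `H x = x + β b`.  For `x₁ = x - β b`:
`H x₁ = x₁`, `x₁ ∈ Z`.
`hb_nd`: `x ∈ Z` commuting with `Z`; `x = x₁ + β b` as in `hb_one`; `x₁ ∈ Z`, `⁅h, x₁⁆ = x₁`, `⁅x₁, Z⁆ = 0` (`b` commutes with `Z`).  Show
`g x₁ z = 0` for all `z`, so `x₁ = 0`.  Invariance: `g ⁅a, u⁆ v = - g u ⁅a, v⁆`.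
 (i) `g x₁ k = 0` for `⁅b, k⁆ = 0`: `x₁ = ⁅b, x'⁆`.
 (ii) `g x₁ h = g ⁅h, x₁⁆ h = - g x₁ ⁅h, h⁆ = 0`.
 (iii) `g x₁ f = 0`: `⁅h, f⁆ + 2 f ∈ ker E` (`E ⁅h, f⁆ = ⁅⁅b, h⁆, f⁆ + ⁅h, ⁅b, f⁆⁆ = - 2 ⁅b, f⁆ + 0`), so by (i)
 `g x₁ ⁅h, f⁆ = - 2 g x₁ f`, and `g x₁ ⁅h, f⁆ = - g ⁅h, x₁⁆ f = - g x₁ f`.
 (iv) `z` arbitrary: `E E z = c b`; `E E f = ⁅b, h⁆ = - 2 b`; `z' = z + (c / 2) f` has `E E z' = 0`; `w = E z' ∈ Z`, `w = y + γ b` with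
 `H y = y`, `y ∈ Z` (`hb_one`).  `E (F y) = F (E y) + H y = y`, `E h = - 2 b`, so `k = z' - F y + (γ / 2) h ∈ ker E`.
 `g x₁ (F y) = g x₁ ⁅f, y⁆ = - g ⁅f, x₁⁆ y = g ⁅x₁, f⁆ y = - g f ⁅x₁, y⁆ = 0`.  So `g x₁ z = 0`.
-/

set_option autoImplicit false

namespace H18.KG

open Module

section

variable {K : Type} [Field K] {J : Type} [LieRing J] [LieAlgebra K J]

theorem hb_brk (h2 : (2 : K) ≠ 0) (b : J) (hb : IsExt K b) (x y : J)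
    (hx : x ∈ LinearMap.range (LieAlgebra.ad K J b) ⊓ LinearMap.ker (LieAlgebra.ad K J b))
    (hy : y ∈ LinearMap.range (LieAlgebra.ad K J b) ⊓ LinearMap.ker (LieAlgebra.ad K J b)) :
    ⁅x, y⁆ ∈ Submodule.span K {b} := by
  obtain ⟨⟨x', hx'⟩, hxk⟩ := Submodule.mem_inf.1 hx
  obtain ⟨⟨y', hy'⟩, hyk⟩ := Submodule.mem_inf.1 hy
  rw [LinearMap.mem_ker, LieAlgebra.ad_apply] at hxk hyk
  rw [LieAlgebra.ad_apply] at hx' hy'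
  have e1 : ⁅x, y⁆ = ⁅b, ⁅x', y⁆⁆ := by
    conv_lhs => rw [← hx']
    rw [lie_lie, hyk, lie_zero, sub_zero]
  have e2 : ⁅x', y⁆ = ⁅b, ⁅x', y'⁆⁆ - ⁅x, y'⁆ := by
    conv_lhs => rw [← hy']
    rw [leibniz_lie x' b y', ← lie_skew x' b, hx', neg_lie]
    abel
  have e3 : ⁅b, ⁅x, y'⁆⁆ = ⁅x, y⁆ := by
    rw [leibniz_lie b x y', hxk, zero_lie, zero_add, hy']
  have e4 : (2 : K) • ⁅x, y⁆ = ⁅b, ⁅b, ⁅x', y'⁆⁆⁆ := by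
    have h1 : ⁅x, y⁆ = ⁅b, ⁅b, ⁅x', y'⁆⁆⁆ - ⁅x, y⁆ := by
      conv_lhs => rw [e1, e2, lie_sub, e3]
    rw [two_smul]
    nth_rewrite 1 [h1]
    abel
  have e5 : ⁅x, y⁆ = (2 : K)⁻¹ • ⁅b, ⁅b, ⁅x', y'⁆⁆⁆ := by
    rw [← e4, smul_smul, inv_mul_cancel₀ h2, one_smul]
  rw [e5]
  exact Submodule.smul_mem _ _ (hb _)

theorem hb_mem (h2 : (2 : K) ≠ 0) (b f : J) (hh : ⁅⁅b, f⁆, b⁆ = (2 : K) • b) :
    b ∈ LinearMap.range (LieAlgebra.ad K J b) ⊓ LinearMap.ker (LieAlgebra.ad K J b) := by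
  refine Submodule.mem_inf.2 ⟨⟨(-(2 : K)⁻¹) • ⁅b, f⁆, ?_⟩, ?_⟩
  · rw [LieAlgebra.ad_apply, lie_smul, ← lie_skew b ⁅b, f⁆, hh, smul_neg, neg_smul, neg_neg,
      smul_smul, inv_mul_cancel₀ h2, one_smul]
  · rw [LinearMap.mem_ker, LieAlgebra.ad_apply, lie_self]

theorem hb_one (h2 : (2 : K) ≠ 0) (b f : J) (hb : IsExt K b)
    (hh : ⁅⁅b, f⁆, b⁆ = (2 : K) • b) (x : J)
    (hx : x ∈ LinearMap.range (LieAlgebra.ad K J b) ⊓ LinearMap.ker (LieAlgebra.ad K J b)) :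
    ∃ (x₁ : J) (c : K), x = x₁ + c • b ∧ ⁅⁅b, f⁆, x₁⁆ = x₁ ∧
      x₁ ∈ LinearMap.range (LieAlgebra.ad K J b) ⊓ LinearMap.ker (LieAlgebra.ad K J b) := by
  obtain ⟨⟨z, hz⟩, hxk⟩ := Submodule.mem_inf.1 hx
  rw [LinearMap.mem_ker, LieAlgebra.ad_apply] at hxk
  rw [LieAlgebra.ad_apply] at hz
  have hbm := hb_mem h2 b f hh
  have e1 : ⁅b, ⁅f, z⁆⁆ = ⁅⁅b, f⁆, z⁆ + ⁅f, x⁆ := by
    rw [leibniz_lie b f z, hz]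
  have e2 : ⁅b, ⁅⁅b, f⁆, z⁆⁆ = ⁅⁅b, f⁆, x⁆ - (2 : K) • x := by
    rw [leibniz_lie b ⁅b, f⁆ z, ← lie_skew b ⁅b, f⁆, hh, hz, neg_lie, smul_lie, hz]
    abel
  have e3 : ⁅b, ⁅f, x⁆⁆ = ⁅⁅b, f⁆, x⁆ := by
    rw [leibniz_lie b f x, hxk, lie_zero, add_zero]
  have e4 : ⁅b, ⁅b, ⁅f, z⁆⁆⁆ = (2 : K) • (⁅⁅b, f⁆, x⁆ - x) := by
    rw [e1, lie_add, e2, e3, smul_sub, two_smul K ⁅⁅b, f⁆, x⁆]
    abel
  obtain ⟨c, hc⟩ := Submodule.mem_span_singleton.1 (hb ⁅f, z⁆)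
  rw [e4] at hc
  have e5 : ⁅⁅b, f⁆, x⁆ = x + ((2 : K)⁻¹ * c) • b := by
    have h1 : ⁅⁅b, f⁆, x⁆ - x = (2 : K)⁻¹ • ((2 : K) • (⁅⁅b, f⁆, x⁆ - x)) := by
      rw [smul_smul, inv_mul_cancel₀ h2, one_smul]
    rw [← hc, smul_smul] at h1
    rw [← h1]
    abel
  set β : K := (2 : K)⁻¹ * c with hβ
  refine ⟨x - β • b, β, by abel, ?_, ?_⟩
  · rw [lie_sub, lie_smul, hh, e5, smul_comm β (2 : K) b, two_smul]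
    abel
  · exact Submodule.sub_mem _ hx (Submodule.smul_mem _ _ hbm)

theorem hb_nd (h2 : (2 : K) ≠ 0) (b f : J) (hb : IsExt K b) (hh : ⁅⁅b, f⁆, b⁆ = (2 : K) • b)
    (g : J →ₗ[K] J →ₗ[K] K) (hg : ∀ a x y : J, g ⁅a, x⁆ y + g x ⁅a, y⁆ = 0)
    (hnd : ∀ x : J, (∀ y : J, g x y = 0) → x = 0) (x : J)
    (hx : x ∈ LinearMap.range (LieAlgebra.ad K J b) ⊓ LinearMap.ker (LieAlgebra.ad K J b))
    (h0 : ∀ y ∈ LinearMap.range (LieAlgebra.ad K J b) ⊓ LinearMap.ker (LieAlgebra.ad K J b),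
      ⁅x, y⁆ = 0) : x ∈ Submodule.span K {b} := by
  obtain ⟨x₁, β, hxe, hH, hx1⟩ := hb_one h2 b f hb hh x hx
  have hg' : ∀ a u v : J, g ⁅a, u⁆ v = -g u ⁅a, v⁆ := fun a u v =>
    eq_neg_of_add_eq_zero_left (hg a u v)
  have hcomm : ∀ y ∈ LinearMap.range (LieAlgebra.ad K J b) ⊓ LinearMap.ker (LieAlgebra.ad K J b),
      ⁅x₁, y⁆ = 0 := by
    intro y hy
    have hyk := (Submodule.mem_inf.1 hy).2
    rw [LinearMap.mem_ker, LieAlgebra.ad_apply] at hyk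
    have e1 : x₁ = x - β • b := by rw [hxe]; abel
    rw [e1, sub_lie, smul_lie, hyk, h0 y hy, smul_zero, sub_zero]
  obtain ⟨⟨x', hx'⟩, hxk⟩ := Submodule.mem_inf.1 hx1
  rw [LieAlgebra.ad_apply] at hx'
  have hbh : ⁅b, ⁅b, f⁆⁆ = -((2 : K) • b) := by rw [← lie_skew b ⁅b, f⁆, hh]
  have hi : ∀ k : J, ⁅b, k⁆ = 0 → g x₁ k = 0 := by
    intro k hk
    rw [← hx', hg', hk, map_zero, neg_zero]
  have hii : g x₁ ⁅b, f⁆ = 0 := by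
    have h1 := hg' ⁅b, f⁆ x₁ ⁅b, f⁆
    rw [hH, lie_self, map_zero, neg_zero] at h1
    exact h1
  have hiii : g x₁ f = 0 := by
    have h1 : ⁅b, ⁅⁅b, f⁆, f⁆ + (2 : K) • f⁆ = 0 := by
      rw [lie_add, leibniz_lie b ⁅b, f⁆ f, hbh, lie_smul, lie_self, neg_lie, smul_lie]
      abel
    have h3 := hi _ h1
    have h4 := hg' ⁅b, f⁆ x₁ f
    rw [hH] at h4
    rw [map_add, map_smul, smul_eq_mul] at h3
    have h5 : g x₁ ⁅⁅b, f⁆, f⁆ = -g x₁ f := by rw [h4, neg_neg]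
    rw [h5] at h3
    have h6 : g x₁ f = -g x₁ f + 2 * g x₁ f := by ring
    rw [h6, h3]
  have hzero : x₁ = 0 := by
    refine hnd x₁ fun z => ?_
    obtain ⟨c, hc⟩ := Submodule.mem_span_singleton.1 (hb z)
    set z' : J := z + ((2 : K)⁻¹ * c) • f with hz'
    have e1 : ⁅b, ⁅b, z'⁆⁆ = 0 := by
      rw [hz', lie_add, lie_add, lie_smul, lie_smul, hbh, ← hc, smul_neg, smul_smul,
        mul_comm (2⁻¹ * c) 2, ← mul_assoc, mul_inv_cancel₀ h2, one_mul]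
      abel
    have hw : ⁅b, z'⁆ ∈ LinearMap.range (LieAlgebra.ad K J b) ⊓
        LinearMap.ker (LieAlgebra.ad K J b) := by
      refine Submodule.mem_inf.2 ⟨⟨z', by rw [LieAlgebra.ad_apply]⟩, ?_⟩
      rw [LinearMap.mem_ker, LieAlgebra.ad_apply, e1]
    obtain ⟨y, γ, hye, hHy, hy1⟩ := hb_one h2 b f hb hh _ hw
    have hyk := (Submodule.mem_inf.1 hy1).2
    rw [LinearMap.mem_ker, LieAlgebra.ad_apply] at hyk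
    have e2 : ⁅b, ⁅f, y⁆⁆ = y := by
      rw [leibniz_lie b f y, hyk, lie_zero, add_zero, hHy]
    have e3 : ⁅b, z' - ⁅f, y⁆ + ((2 : K)⁻¹ * γ) • ⁅b, f⁆⁆ = 0 := by
      rw [lie_add, lie_sub, lie_smul, e2, hbh, hye, smul_neg, smul_smul, mul_comm (2⁻¹ * γ) 2,
        ← mul_assoc, mul_inv_cancel₀ h2, one_mul]
      abel
    have e4 := hi _ e3
    have e5 : g x₁ ⁅f, y⁆ = 0 := by
      have h1 := hg' f x₁ y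
      have h3 := hg' x₁ f y
      rw [hcomm y hy1, map_zero, neg_zero, ← lie_skew x₁ f, map_neg, LinearMap.neg_apply,
        neg_eq_zero] at h3
      rw [h3] at h1
      exact (neg_eq_zero.1 h1.symm)
    rw [map_add, map_sub, map_smul, hii, smul_zero, add_zero, e5, sub_zero, hz', map_add,
      map_smul, hiii, smul_zero, add_zero] at e4
    exact e4
  rw [hxe, hzero, zero_add]
  exact Submodule.smul_mem _ _ (Submodule.mem_span_singleton_self b)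

end

end H18.KG
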