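import Pool.Agent.H18.KG.Nc

/-!
[H18 KG RP] weight 2, MP_9fed08_al.  A perfect ideal of a Lie algebra with radical zero and a faithful
representation of dimension `< p` has radical zero (imports used as given: `nil_factor`, `nil_of_trace`).

`A = Algebra.adjoin K (ρ '' J)`.  `N = {x ∈ J | ∀ a ∈ A, trace (ρ x * a) = 0}`.
(1) `N` is a Lie ideal of `Q`: for `q ∈ Q`, `a ∈ A`: `ρ q * a - a * ρ q ∈ A` (induction on `a`; for `a = ρ j`,
`j ∈ J`, it is `ρ ⁅q, j⁆`, products by Leibniz), and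
`trace (ρ ⁅q, x⁆ * a) = trace (ρ q * ρ x * a) - trace (ρ x * ρ q * a) = - trace (ρ x * (ρ q * a - a * ρ q)) = 0`.
(2) every `x ∈ N` has `ρ x` nilpotent: `trace ((ρ x) ^ (k + 1)) = trace (ρ x * (ρ x) ^ k) = 0` (`nil_of_trace`).  Then
`ad x` is nilpotent on `N`: `LieAlgebra.ad` of a nilpotent element of `End K V` is nilpotent
(`(mulLeft - mulRight) ^ (2 m) = 0`) and `ρ` is injective.  Engel (`LieAlgebra.isNilpotent_iff_forall`): the
Lie algebra `N` is nilpotent, so solvable, `N ≤ radical K Q = ⊥`.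
(3) `R = radical K J` (solvable).  `J` is perfect (`⁅J, J⁆ = J` gives `Perf K J`, see the proof of `isKilling_of2` in
`H18/KD/Kil2.lean`).  For `r ∈ R`: `ρ r * a` is nilpotent for all `a ∈ A` (`nil_factor` for `J` acting on `V` by `ρ`
composed with the inclusion, whose range is `ρ '' J`), so its trace is zero (`LinearMap.isNilpotent_trace_of_isNilpotent`),
i.e. `r ∈ N = ⊥`.  So `R = ⊥`.
-/

set_option autoImplicit false

namespace H18.KG

open Module

attribute [local instance 100] LieRing.ofAssociativeRing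

/-- the adjoin of an ideal is stable under brackets -/
theorem rp_adjoin {K : Type} [Field K] {Q : Type} [LieRing Q] [LieAlgebra K Q] {V : Type}
    [AddCommGroup V] [Module K V] (ρ : Q →ₗ[K] End K V) (hρ : H18.KC.Brk ρ) (J : LieIdeal K Q)
    (q : Q) (a : End K V)
    (ha : a ∈ Algebra.adjoin K (Set.range (ρ.comp (J : Submodule K Q).subtype))) :
    ρ q * a - a * ρ q ∈ Algebra.adjoin K (Set.range (ρ.comp (J : Submodule K Q).subtype)) := by
  induction ha using Algebra.adjoin_induction with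
  | mem y hy =>
    obtain ⟨j, rfl⟩ := hy
    have h1 : ⁅q, (j : Q)⁆ ∈ J := lie_mem_right K Q J q j j.2
    have h2 : ρ q * (ρ.comp (J : Submodule K Q).subtype) j -
        (ρ.comp (J : Submodule K Q).subtype) j * ρ q =
        (ρ.comp (J : Submodule K Q).subtype) ⟨⁅q, (j : Q)⁆, h1⟩ := (hρ q (j : Q)).symm
    rw [h2]
    exact Algebra.subset_adjoin ⟨_, rfl⟩
  | algebraMap r =>
    rw [← Algebra.commutes r (ρ q), sub_self]
    exact Subalgebra.zero_mem _
  | add x y _ _ hx hy =>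
    have h1 : ρ q * (x + y) - (x + y) * ρ q = (ρ q * x - x * ρ q) + (ρ q * y - y * ρ q) := by
      noncomm_ring
    rw [h1]
    exact Subalgebra.add_mem _ hx hy
  | mul x y hx' hy' hx hy =>
    have h1 : ρ q * (x * y) - (x * y) * ρ q = (ρ q * x - x * ρ q) * y + x * (ρ q * y - y * ρ q) := by
      noncomm_ring
    rw [h1]
    exact Subalgebra.add_mem _ (Subalgebra.mul_mem _ hx hy') (Subalgebra.mul_mem _ hx' hy)

/-- the trace radical -/
def rpN {K : Type} [Field K] {Q : Type} [LieRing Q] [LieAlgebra K Q] {V : Type}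
    [AddCommGroup V] [Module K V] (ρ : Q →ₗ[K] End K V) (hρ : H18.KC.Brk ρ) (J : LieIdeal K Q) :
    LieIdeal K Q where
  carrier := {x | x ∈ J ∧ ∀ a ∈ Algebra.adjoin K (Set.range (ρ.comp (J : Submodule K Q).subtype)),
    LinearMap.trace K V (ρ x * a) = 0}
  zero_mem' := ⟨J.zero_mem, fun a _ => by rw [map_zero, zero_mul, map_zero]⟩
  add_mem' := fun {x y} hx hy => ⟨J.add_mem hx.1 hy.1, fun a ha => by
    rw [map_add, add_mul, map_add, hx.2 a ha, hy.2 a ha, add_zero]⟩
  smul_mem' := fun c x hx => ⟨J.smul_mem c hx.1, fun a ha => by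
    rw [map_smul, smul_mul_assoc, map_smul, hx.2 a ha, smul_zero]⟩
  lie_mem := fun {q x} hx => ⟨lie_mem_right K Q J q x hx.1, fun a ha => by
    have h1 := hx.2 _ (rp_adjoin ρ hρ J q a ha)
    have h2 : ρ ⁅q, x⁆ * a = ρ q * (ρ x * a) - ρ x * (ρ q * a) := by
      rw [hρ]; noncomm_ring
    have h3 : ρ x * (ρ q * a - a * ρ q) = ρ x * (ρ q * a) - (ρ x * a) * ρ q := by noncomm_ring
    rw [h3, map_sub, LinearMap.trace_mul_comm K (ρ x * a)] at h1
    rw [h2, map_sub]
    have h4 := sub_eq_zero.1 h1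
    rw [h4, sub_self]⟩

theorem radical_perf (p : ℕ) [Fact p.Prime] (K : Type) [Field K] [IsAlgClosed K] [CharP K p]
    (Q : Type) [LieRing Q] [LieAlgebra K Q] [FiniteDimensional K Q] (V : Type) [AddCommGroup V]
    [Module K V] [FiniteDimensional K V] (hn : finrank K V < p) (ρ : Q →ₗ[K] End K V)
    (hρ : H18.KC.Brk ρ) (hinj : Function.Injective ρ) (hr : LieAlgebra.radical K Q = ⊥)
    (J : LieIdeal K Q) (hJ : ⁅J, J⁆ = J) : LieAlgebra.radical K J = ⊥ := by
  have hperf : Perf K J := by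
    have h1 := LieIdeal.derivedSeries_eq_derivedSeriesOfIdeal_comap (R := K) J 1
    rw [LieAlgebra.derivedSeries_def, LieAlgebra.derivedSeriesOfIdeal_succ,
      LieAlgebra.derivedSeriesOfIdeal_succ, LieAlgebra.derivedSeriesOfIdeal_zero,
      LieAlgebra.derivedSeriesOfIdeal_zero, hJ, LieIdeal.comap_incl_self] at h1
    exact h1
  obtain ⟨N, hN⟩ : ∃ N, N = rpN ρ hρ J := ⟨_, rfl⟩
  have hNmem : ∀ x, x ∈ N ↔ (x ∈ J ∧
      ∀ a ∈ Algebra.adjoin K (Set.range (ρ.comp (J : Submodule K Q).subtype)),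
        LinearMap.trace K V (ρ x * a) = 0) := by
    intro x
    rw [hN]
    rfl
  have hnilρ : ∀ x ∈ N, IsNilpotent (ρ x) := by
    intro x hx
    obtain ⟨hxJ, hx2⟩ := (hNmem x).1 hx
    refine nil_of_trace p hn (ρ x) fun k hk => ?_
    obtain ⟨m, rfl⟩ : ∃ m, k = m + 1 := ⟨k - 1, by omega⟩
    rw [pow_succ']
    have h5 : ρ x ∈ Algebra.adjoin K (Set.range (ρ.comp (J : Submodule K Q).subtype)) :=
      Algebra.subset_adjoin ⟨(⟨x, hxJ⟩ : J), rfl⟩
    exact hx2 _ (Subalgebra.pow_mem _ h5 m)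
  have hNnil : LieRing.IsNilpotent N := by
    rw [LieAlgebra.isNilpotent_iff_forall (R := K)]
    intro x
    obtain ⟨m, hm⟩ := LieAlgebra.ad_nilpotent_of_nilpotent (R := K) (hnilρ x.1 x.2)
    refine ⟨m, ?_⟩
    ext y
    have h1 : ∀ k : ℕ, ρ (((LieAlgebra.ad K N x) ^ k) y : N) =
        ((LieAlgebra.ad K (End K V) (ρ x.1)) ^ k) (ρ y.1) := by
      intro k
      induction k with
      | zero => rfl
      | succ k ih =>
        rw [pow_succ', pow_succ', Module.End.mul_apply, Module.End.mul_apply, ← ih,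
          LieAlgebra.ad_apply, LieAlgebra.ad_apply, Ring.lie_def]
        exact hρ _ _
    have h2 := h1 m
    rw [hm, LinearMap.zero_apply, ← map_zero ρ] at h2
    exact hinj h2
  have hNsol : LieAlgebra.IsSolvable N := by
    have := hNnil
    infer_instance
  have hN0 : N = ⊥ := by
    have h1 := (LieAlgebra.LieIdeal.solvable_iff_le_radical K Q N).1 hNsol
    rw [hr] at h1
    exact le_bot_iff.1 h1
  rw [eq_bot_iff]
  intro r hrr
  have h1 : (r : Q) ∈ N := by
    rw [hNmem]
    refine ⟨r.2, fun a ha => ?_⟩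
    have h2 := nil_factor p hperf (LieAlgebra.radical K J) inferInstance (finrank K V) V
      (ρ.comp (J : Submodule K Q).subtype) (fun x y => hρ x y) rfl hn r hrr a ha
    exact (LinearMap.isNilpotent_trace_of_isNilpotent h2).eq_zero
  rw [hN0, LieSubmodule.mem_bot] at h1
  rw [LieSubmodule.mem_bot]
  exact Subtype.ext h1

end H18.KG
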