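import Pool.Agent.H18.KG.Cs
import Pool.Agent.H18.KG.Rp

/-!
[H18 KG IN] weight 2, MP_9fed08_al.  From simple to perfect Lie algebras (imports used as given; `isKilling_of2` in
`H18/KD/Kil2.lean` is the model for the ideal part).

`pack_ideal`: the restriction of `ρ` to an ideal `I` (`ρ ∘ I.subtype`) has the package: injective, `Brk`; if `ρ x` is nilpotent then
`(ad x) ^ N = 0` on `J`, so on `I` (`(ad_I x) ^ k y = (ad_J x) ^ k y` for `y ∈ I` by induction); `finrank I ≤ finrank J`.
`crit_perf`: strong induction on `finrank K J`.  If `hsim` holds, `crit_simple`.  Otherwise take an ideal `I ≠ ⊥, ⊤`, and in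
it a minimal nonzero ideal `I'` of `J` (`IsAtomic` / well-foundedness); `⁅I', I'⁆` is an ideal of `J`, `≤ I'`; it is not `⊥`
(else `I'` is abelian, so solvable, `I' ≤ radical = ⊥`), so `⁅I', I'⁆ = I'`.  `Perf K I'` (as in `isKilling_of2`),
`radical_perf` gives `radical K I' = ⊥`, `hk` for `I'` (`LieIdeal.killingForm_eq`, as in `isKilling_of2`), `finrank I' < finrank J`
(`I' ≤ I < ⊤`): by induction `I'` is trivial, a contradiction.
-/

set_option autoImplicit false

namespace H18.KG

open Module

theorem pack_ideal (p : ℕ) {K : Type} [Field K] {J : Type} [LieRing J] [LieAlgebra K J]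
    [FiniteDimensional K J] {V : Type} [AddCommGroup V] [Module K V] [FiniteDimensional K V]
    (N : ℕ) (ρ : J →ₗ[K] End K V) (hP : Pack p N ρ) (I : LieIdeal K J) :
    Pack p N (ρ.comp (I : Submodule K J).subtype : I →ₗ[K] End K V) where
  brk := fun x y => hP.brk x y
  inj := hP.inj.comp Subtype.coe_injective
  dim := hP.dim
  nil := fun x hx => by
    have h1 : (LieAlgebra.ad K J (x : J)) ^ N = 0 := hP.nil x hx
    ext y
    have h2 : ∀ k : ℕ, ((((LieAlgebra.ad K I x) ^ k) y : I) : J) =
        ((LieAlgebra.ad K J (x : J)) ^ k) (y : J) := by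
      intro k
      induction k with
      | zero => rfl
      | succ k ih =>
        rw [pow_succ', pow_succ', Module.End.mul_apply, Module.End.mul_apply, ← ih]
        rfl
    rw [h2, h1]
    rfl
  bd := hP.bd
  alt := by
    have h1 : finrank K I ≤ finrank K J := Submodule.finrank_le (I : Submodule K J)
    rcases hP.alt with h | h
    · exact Or.inl h
    · exact Or.inr (by omega)

theorem crit_perf (p : ℕ) [Fact p.Prime] (K : Type) [Field K] [IsAlgClosed K] [CharP K p]
    (V : Type) [AddCommGroup V] [Module K V] [FiniteDimensional K V] (N : ℕ) :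
    ∀ (d : ℕ) (J : Type) [LieRing J] [LieAlgebra K J] [FiniteDimensional K J],
      finrank K J = d → ∀ (ρ : J →ₗ[K] End K V), Pack p N ρ → Perf K J →
      LieAlgebra.radical K J = ⊥ →
      (∀ x y : J, LinearMap.trace K J (LieAlgebra.ad K J x * LieAlgebra.ad K J y) = 0) →
      Subsingleton J := by
  intro d
  induction d using Nat.strong_induction_on with
  | _ d ih =>
  intro J _ _ _ hd ρ hP hperf hr hk
  by_cases hsim : ∀ I : LieIdeal K J, I = ⊥ ∨ I = ⊤
  · exact crit_simple p K J V N ρ hP hperf hsim hk
  · exfalso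
    push Not at hsim
    obtain ⟨I0, hI0b, hI0t⟩ := hsim
    have hwf : WellFoundedLT (LieIdeal K J) := LieSubmodule.wellFoundedLT_of_isArtinian K J J
    obtain ⟨I, ⟨hIb, hIt⟩, hmin⟩ := (wellFounded_lt (α := LieIdeal K J)).has_min
      {M : LieIdeal K J | M ≠ ⊥ ∧ M ≠ ⊤} ⟨I0, hI0b, hI0t⟩
    have hle : ⁅I, I⁆ ≤ I := LieSubmodule.lie_le_right I I
    have hII : ⁅I, I⁆ = I := by
      by_contra hne
      have hlt : ⁅I, I⁆ < I := lt_of_le_of_ne hle hne
      have hbot : ⁅I, I⁆ = ⊥ := by
        by_contra hb
        refine hmin _ ⟨hb, ?_⟩ hlt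
        intro ht
        rw [ht] at hle
        exact hIt (top_le_iff.1 hle)
      have hsol : LieAlgebra.IsSolvable I := by
        refine LieAlgebra.IsSolvable.mk (R := K) (k := 1) ?_
        rw [LieIdeal.derivedSeries_eq_bot_iff, LieAlgebra.derivedSeriesOfIdeal_succ,
          LieAlgebra.derivedSeriesOfIdeal_zero, hbot]
      have hle2 : I ≤ LieAlgebra.radical K J :=
        (LieAlgebra.LieIdeal.solvable_iff_le_radical K J I).1 hsol
      rw [hr] at hle2
      exact hIb (le_bot_iff.1 hle2)
    have hperf2 : Perf K I := by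
      have h1 := LieIdeal.derivedSeries_eq_derivedSeriesOfIdeal_comap (R := K) I 1
      rw [LieAlgebra.derivedSeries_def, LieAlgebra.derivedSeriesOfIdeal_succ,
        LieAlgebra.derivedSeriesOfIdeal_succ, LieAlgebra.derivedSeriesOfIdeal_zero,
        LieAlgebra.derivedSeriesOfIdeal_zero, hII, LieIdeal.comap_incl_self] at h1
      exact h1
    have hrad := radical_perf p K J V hP.dim ρ hP.brk hP.inj hr I hII
    have hk2 : ∀ x y : I,
        LinearMap.trace K I (LieAlgebra.ad K I x * LieAlgebra.ad K I y) = 0 := by
      intro x y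
      have h1 : killingForm K I x y = killingForm K J (x : J) (y : J) := by
        rw [LieIdeal.killingForm_eq]
        rfl
      have h2 : killingForm K J (x : J) (y : J) = 0 := by
        rw [killingForm_apply_apply]
        exact hk x y
      rw [h2, killingForm_apply_apply] at h1
      exact h1
    have hlt : finrank K I < d := by
      rw [← hd]
      refine Submodule.finrank_lt (s := (I : Submodule K J)) ?_
      intro h
      apply hIt
      rw [eq_top_iff]
      intro z _
      have hz : z ∈ (⊤ : Submodule K J) := Submodule.mem_top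
      rw [← h] at hz
      exact hz
    have hsub := ih (finrank K I) hlt I rfl _ (pack_ideal p N ρ hP I) hperf2 hrad hk2
    apply hIb
    rw [eq_bot_iff]
    intro x hx
    have h2 : (⟨x, hx⟩ : I) = 0 := Subsingleton.elim _ _
    rw [LieSubmodule.mem_bot]
    exact congrArg Subtype.val h2

end H18.KG
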