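import Pool.Agent.H18.KG.Defs

/-!
[H18 KG RS] weight 1, MP_9fed08_al (Mathlib and `Defs` only).  Restriction to an invariant subspace, quotient, and
direct sum of representations.

`rsub`: `LinearMap.restrict`; `rquo`: `Submodule.mapQ`; `rprod`: `LinearMap.prodMap`.  All are linear in `x` and
satisfy `Brk`.  The last two statements: `f` maps `W` into itself and `V` into `W` modulo ... as stated.
-/

set_option autoImplicit false

namespace H18.KG

open Module

section

variable {K : Type} [Field K] {J : Type} [LieRing J] [LieAlgebra K J] {V : Type} [AddCommGroup V]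
  [Module K V] {V' : Type} [AddCommGroup V'] [Module K V']

theorem rsub_exists (ρ : J →ₗ[K] End K V) (hρ : H18.KC.Brk ρ) (W : Submodule K V)
    (hW : ∀ x : J, ∀ w ∈ W, ρ x w ∈ W) :
    ∃ ρ' : J →ₗ[K] End K W, H18.KC.Brk ρ' ∧ ∀ (x : J) (w : W), ((ρ' x w : W) : V) = ρ x w := by
  let ρ' : J →ₗ[K] End K W :=
    { toFun := fun x => (ρ x).restrict (hW x)
      map_add' := fun x y => by
        refine LinearMap.ext fun w => Subtype.ext ?_
        show ρ (x + y) (w : V) = ρ x w + ρ y w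
        rw [map_add, LinearMap.add_apply]
      map_smul' := fun c x => by
        refine LinearMap.ext fun w => Subtype.ext ?_
        show ρ (c • x) (w : V) = c • ρ x w
        rw [map_smul, LinearMap.smul_apply] }
  refine ⟨ρ', ?_, fun x w => rfl⟩
  intro x y
  refine LinearMap.ext fun w => Subtype.ext ?_
  show ρ ⁅x, y⁆ (w : V) = ρ x (ρ y w) - ρ y (ρ x w)
  rw [hρ]
  rfl

theorem rquo_exists (ρ : J →ₗ[K] End K V) (hρ : H18.KC.Brk ρ) (W : Submodule K V)
    (hW : ∀ x : J, ∀ w ∈ W, ρ x w ∈ W) :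
    ∃ ρ' : J →ₗ[K] End K (V ⧸ W), H18.KC.Brk ρ' ∧
      ∀ (x : J) (v : V), ρ' x (W.mkQ v) = W.mkQ (ρ x v) := by
  have hle : ∀ x : J, W ≤ W.comap (ρ x) := fun x w hw => hW x w hw
  let ρ' : J →ₗ[K] End K (V ⧸ W) :=
    { toFun := fun x => W.mapQ W (ρ x) (hle x)
      map_add' := fun x y => by
        refine LinearMap.ext fun q => ?_
        obtain ⟨v, rfl⟩ := W.mkQ_surjective q
        show W.mkQ (ρ (x + y) v) = W.mkQ (ρ x v) + W.mkQ (ρ y v)
        rw [map_add, LinearMap.add_apply, map_add]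
      map_smul' := fun c x => by
        refine LinearMap.ext fun q => ?_
        obtain ⟨v, rfl⟩ := W.mkQ_surjective q
        show W.mkQ (ρ (c • x) v) = c • W.mkQ (ρ x v)
        rw [map_smul, LinearMap.smul_apply, map_smul] }
  refine ⟨ρ', ?_, fun x v => rfl⟩
  intro x y
  refine LinearMap.ext fun q => ?_
  obtain ⟨v, rfl⟩ := W.mkQ_surjective q
  show W.mkQ (ρ ⁅x, y⁆ v) = W.mkQ (ρ x (ρ y v)) - W.mkQ (ρ y (ρ x v))
  rw [hρ, ← map_sub]
  rfl

theorem rprod_exists (ρ : J →ₗ[K] End K V) (hρ : H18.KC.Brk ρ) (ρ' : J →ₗ[K] End K V')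
    (hρ' : H18.KC.Brk ρ') :
    ∃ σ : J →ₗ[K] End K (V × V'), H18.KC.Brk σ ∧
      ∀ (x : J) (v : V) (v' : V'), σ x (v, v') = (ρ x v, ρ' x v') := by
  let σ : J →ₗ[K] End K (V × V') :=
    { toFun := fun x => (ρ x).prodMap (ρ' x)
      map_add' := fun x y => by
        refine LinearMap.ext fun w => ?_
        show (ρ (x + y) w.1, ρ' (x + y) w.2) = (ρ x w.1 + ρ y w.1, ρ' x w.2 + ρ' y w.2)
        rw [map_add, map_add, LinearMap.add_apply, LinearMap.add_apply]
      map_smul' := fun c x => by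
        refine LinearMap.ext fun w => ?_
        show (ρ (c • x) w.1, ρ' (c • x) w.2) = (c • ρ x w.1, c • ρ' x w.2)
        rw [map_smul, map_smul, LinearMap.smul_apply, LinearMap.smul_apply] }
  refine ⟨σ, ?_, fun x v v' => rfl⟩
  intro x y
  refine LinearMap.ext fun w => ?_
  show (ρ ⁅x, y⁆ w.1, ρ' ⁅x, y⁆ w.2) =
    (ρ x (ρ y w.1) - ρ y (ρ x w.1), ρ' x (ρ' y w.2) - ρ' y (ρ' x w.2))
  rw [hρ, hρ']
  rfl

/-- an endomorphism preserving `W`, nilpotent on `W` and on `V / W`, is nilpotent -/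
theorem nil_two (f : End K V) (W : Submodule K V) (a b : ℕ)
    (h1 : ∀ w ∈ W, (f ^ a) w = 0) (h2 : ∀ v : V, (f ^ b) v ∈ W) : IsNilpotent f := by
  refine ⟨a + b, LinearMap.ext fun v => ?_⟩
  rw [pow_add, Module.End.mul_apply, LinearMap.zero_apply]
  exact h1 _ (h2 v)

end

end H18.KG
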