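import Pool.Agent.H18.KG.Si
import Pool.Agent.H18.KG.Rs

/-!
[H18 KG NC] weight 1, MP_9fed08_al.  Solvable ideals of a perfect Lie algebra act by zero on the composition
factors of a module of dimension `< p` (imports used as given).

Strong induction on `d = finrank V`; `a ∈ Algebra.adjoin K (Set.range ρ)`.
(a) `d = 0`: `End K V` is a subsingleton.
(b) `Irr ρ`: `ρ r = c • 1` (`solv_scal`).  `J` is perfect, so `r` is a sum of brackets (`Perf`,
`LieSubmodule.lieIdeal_oper_eq_span`), so `trace (ρ r) = 0`, `c * finrank = 0`, `c = 0`: `ρ r = 0`.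
(c) `W ≠ ⊥, ⊤` invariant: `rsub_exists`, `rquo_exists`.  By induction on adjoin (`Algebra.adjoin_induction`) `a` preserves
`W`, and there are `a1 ∈ adjoin (range ρ1)`, `a2 ∈ adjoin (range ρ2)` with `a1 w = a w`, `a2 (mkQ v) = mkQ (a v)`.  Then
`ρ1 r * a1` and `ρ2 r * a2` are nilpotent; `nil_two` for `f = ρ r * a`.
-/

set_option autoImplicit false

namespace H18.KG

open Module

theorem nc_trace {K : Type} [Field K] {J : Type} [LieRing J] [LieAlgebra K J]
    (hperf : Perf K J) {V : Type} [AddCommGroup V] [Module K V] [FiniteDimensional K V]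
    (ρ : J →ₗ[K] End K V) (hρ : H18.KC.Brk ρ) (x : J) : LinearMap.trace K V (ρ x) = 0 := by
  have hx : x ∈ (⊤ : LieIdeal K J) := LieSubmodule.mem_top x
  have hperf' : ⁅(⊤ : LieIdeal K J), (⊤ : LieIdeal K J)⁆ = (⊤ : LieIdeal K J) := hperf
  rw [← hperf', ← LieSubmodule.mem_toSubmodule, LieSubmodule.lieIdeal_oper_eq_linear_span'] at hx
  induction hx using Submodule.span_induction with
  | mem y hy =>
    obtain ⟨a, -, b, -, rfl⟩ := hy
    rw [hρ, map_sub, LinearMap.trace_mul_comm K (ρ a), sub_self]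
  | zero => rw [map_zero, map_zero]
  | add y z _ _ hy hz => rw [map_add, map_add, hy, hz, add_zero]
  | smul c y _ hy => rw [map_smul, map_smul, hy, smul_zero]

theorem nil_factor (p : ℕ) [Fact p.Prime] {K : Type} [Field K] [IsAlgClosed K] [CharP K p]
    {J : Type} [LieRing J] [LieAlgebra K J] (hperf : Perf K J) (R : LieIdeal K J)
    (hR : LieAlgebra.IsSolvable R) :
    ∀ (d : ℕ) (V : Type) [AddCommGroup V] [Module K V] [FiniteDimensional K V]
      (ρ : J →ₗ[K] End K V), H18.KC.Brk ρ → finrank K V = d → finrank K V < p →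
      ∀ r ∈ R, ∀ a ∈ Algebra.adjoin K (Set.range ρ), IsNilpotent (ρ r * a) := by
  intro d
  induction d using Nat.strong_induction_on with
  | _ d ih =>
  intro V _ _ _ ρ hρ hd hn r hr a ha
  rcases subsingleton_or_nontrivial V with hV | hV
  · exact ⟨1, Subsingleton.elim _ _⟩
  by_cases hI : ∀ W : Submodule K V, (∀ x : J, ∀ w ∈ W, ρ x w ∈ W) → W = ⊥ ∨ W = ⊤
  · obtain ⟨c, hc⟩ := solv_scal p hn ρ hρ ⟨hV, hI⟩ R hR r hr
    have h1 := nc_trace hperf ρ hρ r
    rw [hc, map_smul, LinearMap.trace_one, smul_eq_mul] at h1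
    have hfin : (finrank K V : K) ≠ 0 := by
      intro h
      rw [CharP.cast_eq_zero_iff K p] at h
      have h2 := Nat.le_of_dvd finrank_pos h
      omega
    have h2 : c = 0 := by
      rcases mul_eq_zero.1 h1 with h | h
      · exact h
      · exact absurd h hfin
    rw [hc, h2, zero_smul, zero_mul]
    exact IsNilpotent.zero
  · push Not at hI
    obtain ⟨W, hW, hWb, hWt⟩ := hI
    obtain ⟨ρ1, hρ1, e1⟩ := rsub_exists ρ hρ W hW
    obtain ⟨ρ2, hρ2, e2⟩ := rquo_exists ρ hρ W hW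
    have hadd := Submodule.finrank_quotient_add_finrank W
    have hWlt : finrank K W < finrank K V := Submodule.finrank_lt hWt
    have hWpos : 0 < finrank K W := by
      rw [Nat.pos_iff_ne_zero]
      intro h
      exact hWb (Submodule.finrank_eq_zero.1 h)
    have key : (∀ w ∈ W, a w ∈ W) ∧
        (∃ a1 ∈ Algebra.adjoin K (Set.range ρ1), ∀ w : W, ((a1 w : W) : V) = a w) ∧
        (∃ a2 ∈ Algebra.adjoin K (Set.range ρ2), ∀ v : V, a2 (W.mkQ v) = W.mkQ (a v)) := by
      induction ha using Algebra.adjoin_induction with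
      | mem y hy =>
        obtain ⟨x, rfl⟩ := hy
        exact ⟨hW x, ⟨ρ1 x, Algebra.subset_adjoin ⟨x, rfl⟩, e1 x⟩,
          ⟨ρ2 x, Algebra.subset_adjoin ⟨x, rfl⟩, e2 x⟩⟩
      | algebraMap c =>
        refine ⟨fun w hw => W.smul_mem c hw, ⟨algebraMap K _ c, Subalgebra.algebraMap_mem _ c,
          fun w => rfl⟩, ⟨algebraMap K _ c, Subalgebra.algebraMap_mem _ c, fun v => ?_⟩⟩
        rw [Module.algebraMap_end_apply, Module.algebraMap_end_apply, map_smul]
      | add y z _ _ hy hz =>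
        obtain ⟨hy1, ⟨y1, hy1m, hy1e⟩, ⟨y2, hy2m, hy2e⟩⟩ := hy
        obtain ⟨hz1, ⟨z1, hz1m, hz1e⟩, ⟨z2, hz2m, hz2e⟩⟩ := hz
        refine ⟨fun w hw => W.add_mem (hy1 w hw) (hz1 w hw),
          ⟨y1 + z1, Subalgebra.add_mem _ hy1m hz1m, fun w => ?_⟩,
          ⟨y2 + z2, Subalgebra.add_mem _ hy2m hz2m, fun v => ?_⟩⟩
        · rw [LinearMap.add_apply, LinearMap.add_apply, Submodule.coe_add, hy1e, hz1e]
        · rw [LinearMap.add_apply, LinearMap.add_apply, map_add, hy2e, hz2e]
      | mul y z _ _ hy hz =>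
        obtain ⟨hy1, ⟨y1, hy1m, hy1e⟩, ⟨y2, hy2m, hy2e⟩⟩ := hy
        obtain ⟨hz1, ⟨z1, hz1m, hz1e⟩, ⟨z2, hz2m, hz2e⟩⟩ := hz
        refine ⟨fun w hw => hy1 _ (hz1 w hw),
          ⟨y1 * z1, Subalgebra.mul_mem _ hy1m hz1m, fun w => ?_⟩,
          ⟨y2 * z2, Subalgebra.mul_mem _ hy2m hz2m, fun v => ?_⟩⟩
        · rw [Module.End.mul_apply, Module.End.mul_apply, hy1e, hz1e]
        · rw [Module.End.mul_apply, Module.End.mul_apply, hz2e, hy2e]
    obtain ⟨-, ⟨a1, ha1, f1⟩, ⟨a2, ha2, f2⟩⟩ := key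
    obtain ⟨m1, hm1⟩ := ih (finrank K W) (by omega) W ρ1 hρ1 rfl (by omega) r hr a1 ha1
    obtain ⟨m2, hm2⟩ := ih (finrank K (V ⧸ W)) (by omega) (V ⧸ W) ρ2 hρ2 rfl (by omega) r hr a2 ha2
    refine nil_two (ρ r * a) W m1 m2 ?_ ?_
    · intro w hw
      have h1 : ∀ (k : ℕ) (w : W), ((((ρ1 r * a1) ^ k) w : W) : V) = ((ρ r * a) ^ k) (w : V) := by
        intro k
        induction k with
        | zero => intro w; rfl
        | succ k ihk =>
          intro w
          rw [pow_succ', pow_succ', Module.End.mul_apply, Module.End.mul_apply,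
            Module.End.mul_apply, Module.End.mul_apply, e1, f1, ihk]
      have h2 := h1 m1 ⟨w, hw⟩
      rw [hm1] at h2
      exact h2.symm
    · intro v
      have h1 : ∀ (k : ℕ) (v : V), ((ρ2 r * a2) ^ k) (W.mkQ v) = W.mkQ (((ρ r * a) ^ k) v) := by
        intro k
        induction k with
        | zero => intro v; rfl
        | succ k ihk =>
          intro v
          rw [pow_succ', pow_succ', Module.End.mul_apply, Module.End.mul_apply,
            Module.End.mul_apply, Module.End.mul_apply, ihk, f2, e2]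
      have h2 := h1 m2 v
      rw [hm2, LinearMap.zero_apply] at h2
      exact (Submodule.Quotient.mk_eq_zero W).1 h2.symm

end H18.KG
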