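import Mathlib

/-!
[H18 KG NT] weight 1, MP_9fed08_al.  Nilpotent from vanishing traces of powers (Mathlib only).

`q = X * minpoly K x`, `aeval x q = 0`, `q ≠ 0`.  Write `q = X ^ k * m` with `m.eval 0 ≠ 0`, `k ≥ 1`
(`Polynomial.exists_eq_pow_rootMultiplicity_mul_and_not_dvd` at `0`).  `X ^ k` and `m` are coprime
(`X` is irreducible and does not divide `m`), so `u * X ^ k + v * m = 1`.  `P = aeval x (u * X ^ k)` satisfies
`P * (1 - P) = aeval x (u * v * q) = 0`, so `P` is idempotent, and `trace P = 0`, because `u * X ^ k` is a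
combination of the `X ^ j`, `j ≥ 1` (`Polynomial.aeval_eq_sum_range` or `Polynomial.sum`).  The trace of an idempotent is
the dimension of its range (`LinearMap.IsIdempotentElem...trace` / `LinearMap.IsProj.trace`), a number `< p`,
so the range is `0`, `P = 0`.  Then `aeval x (v * m) = 1` and
`x ^ k = x ^ k * aeval x (v * m) = aeval x (v * q) = 0`.
-/

set_option autoImplicit false

namespace H18.KG

open Module

private theorem nt_trace {K : Type} [Field K] {V : Type} [AddCommGroup V] [Module K V]
    [FiniteDimensional K V] (x : End K V)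
    (h : ∀ k : ℕ, 1 ≤ k → LinearMap.trace K V (x ^ k) = 0) (f : Polynomial K) (hf : f.coeff 0 = 0) :
    LinearMap.trace K V (Polynomial.aeval x f) = 0 := by
  rw [Polynomial.aeval_eq_sum_range, map_sum]
  refine Finset.sum_eq_zero fun i _ => ?_
  rw [map_smul]
  rcases Nat.eq_zero_or_pos i with h0 | h0
  · rw [h0, hf, zero_smul]
  · rw [h i h0, smul_zero]

theorem nil_of_trace (p : ℕ) [Fact p.Prime] {K : Type} [Field K] [CharP K p] {V : Type}
    [AddCommGroup V] [Module K V] [FiniteDimensional K V] (hn : finrank K V < p) (x : End K V)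
    (h : ∀ k : ℕ, 1 ≤ k → LinearMap.trace K V (x ^ k) = 0) : IsNilpotent x := by
  classical
  have hint : IsIntegral K x := Algebra.IsIntegral.isIntegral x
  obtain ⟨q, hq⟩ : ∃ q : Polynomial K, q = Polynomial.X * minpoly K x := ⟨_, rfl⟩
  have hq0 : q ≠ 0 := by
    rw [hq]
    exact mul_ne_zero Polynomial.X_ne_zero (minpoly.ne_zero hint)
  have hqx : Polynomial.aeval x q = 0 := by
    rw [hq, map_mul, minpoly.aeval, mul_zero]
  obtain ⟨m, hm, hm2⟩ := Polynomial.exists_eq_pow_rootMultiplicity_mul_and_not_dvd q hq0 0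
  obtain ⟨k, hk⟩ : ∃ k, k = q.rootMultiplicity 0 := ⟨_, rfl⟩
  have hk1 : 1 ≤ k := by
    rw [hk]
    apply (Polynomial.rootMultiplicity_pos hq0).2
    rw [Polynomial.IsRoot, hq, Polynomial.eval_mul, Polynomial.eval_X, zero_mul]
  rw [← hk, map_zero, sub_zero] at hm
  rw [map_zero, sub_zero] at hm2
  have hcop : IsCoprime (Polynomial.X ^ k : Polynomial K) m := by
    apply IsCoprime.pow_left
    exact (Polynomial.irreducible_X.coprime_iff_not_dvd).2 hm2
  obtain ⟨u, v, huv⟩ := hcop
  obtain ⟨P, hP⟩ : ∃ P : End K V, P = Polynomial.aeval x (u * Polynomial.X ^ k) := ⟨_, rfl⟩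
  have hP1 : 1 - P = Polynomial.aeval x (v * m) := by
    rw [hP, sub_eq_iff_eq_add, ← map_add, add_comm, huv, map_one]
  have hPP : P * (1 - P) = 0 := by
    rw [hP1, hP, ← map_mul]
    have h1 : u * Polynomial.X ^ k * (v * m) = u * v * q := by
      rw [hm]
      ring
    rw [h1, map_mul, hqx, mul_zero]
  have hidem : IsIdempotentElem P := by
    have h1 : P * (1 - P) = P - P * P := by rw [mul_sub, mul_one]
    rw [h1, sub_eq_zero] at hPP
    exact hPP.symm
  have htr : LinearMap.trace K V P = 0 := by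
    rw [hP]
    apply nt_trace x h
    rw [Polynomial.mul_coeff_zero, Polynomial.coeff_X_pow, if_neg (by omega), mul_zero]
  have hproj : LinearMap.IsProj (LinearMap.range P) P := by
    refine ⟨fun w => LinearMap.mem_range_self P w, ?_⟩
    rintro w ⟨z, rfl⟩
    have := LinearMap.congr_fun hidem z
    exact this
  have h2 := hproj.trace
  rw [htr] at h2
  have h3 : finrank K (LinearMap.range P) < p :=
    (Submodule.finrank_le _).trans_lt hn
  have h4 : finrank K (LinearMap.range P) = 0 := by
    have h5 := (CharP.cast_eq_zero_iff K p _).1 h2.symm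
    exact Nat.eq_zero_of_dvd_of_lt h5 h3
  have h5 : P = 0 := by
    have h6 := Submodule.finrank_eq_zero.1 h4
    exact LinearMap.range_eq_bot.1 h6
  refine ⟨k, ?_⟩
  rw [h5, sub_zero] at hP1
  have h6 : x ^ k = Polynomial.aeval x (Polynomial.X ^ k : Polynomial K) := by
    rw [map_pow, Polynomial.aeval_X]
  have h7 : x ^ k * Polynomial.aeval x (v * m) = 0 := by
    rw [h6, ← map_mul]
    have h8 : Polynomial.X ^ k * (v * m) = v * q := by
      rw [hm]
      ring
    rw [h8, map_mul, hqx, mul_zero]
  rw [← hP1, mul_one] at h7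
  exact h7

end H18.KG
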