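import Pool.Agent.H18.KG.Ai

/-!
[H18 KG SI] weight 1, MP_9fed08_al.  A solvable ideal acts by scalars on an irreducible module of dimension
`< p` (import used as given: `abel_scal`).

`D k = LieAlgebra.derivedSeriesOfIdeal K H k R`; `D m = ⊥` for some `m` (`LieAlgebra.IsSolvable`,
`LieIdeal.derivedSeries_eq_bot_iff`; compare `H18.KW.sls_solv` in `H18/KW/SlSect.lean`, which gives exactly this and
may be imported).  Claim: for all `k` the elements of `D k` act by scalars; by downward induction from `m` (or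
induction on `j` with `k = m - j`).  Step: if all elements of `D (k + 1) = ⁅D k, D k⁆` act by scalars, then for `a, b ∈ D k`:
`ρ a * ρ b - ρ b * ρ a = ρ ⁅a, b⁆ = c • 1`, trace: `c * finrank = 0`, `(finrank : K) ≠ 0`
(`0 < finrank < p`), so `c = 0`: `ρ a`, `ρ b` commute and `abel_scal` applies to `B = D k`.  `k = 0` is the
statement.
-/

set_option autoImplicit false

namespace H18.KG

open Module

private theorem si_cast (p : ℕ) [Fact p.Prime] {K : Type} [Field K] [CharP K p] {V : Type}
    [AddCommGroup V] [Module K V] [FiniteDimensional K V] (hnt : Nontrivial V)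
    (hn : finrank K V < p) : ((finrank K V : ℕ) : K) ≠ 0 := by
  intro h
  have h1 := (CharP.cast_eq_zero_iff K p _).1 h
  have h2 := Nat.eq_zero_of_dvd_of_lt h1 hn
  have h3 : 0 < finrank K V := Module.finrank_pos
  omega

theorem solv_scal (p : ℕ) [Fact p.Prime] {K : Type} [Field K] [IsAlgClosed K] [CharP K p]
    {H : Type} [LieRing H] [LieAlgebra K H] {V : Type} [AddCommGroup V] [Module K V]
    [FiniteDimensional K V] (hn : finrank K V < p) (ρ : H →ₗ[K] End K V) (hρ : H18.KC.Brk ρ)
    (hI : Irr ρ) (R : LieIdeal K H) (hR : LieAlgebra.IsSolvable R) :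
    ∀ r ∈ R, ∃ c : K, ρ r = c • (1 : End K V) := by
  classical
  have hnt := hI.1
  have hdim := si_cast p hnt hn
  obtain ⟨m, hm⟩ : ∃ m, LieAlgebra.derivedSeriesOfIdeal K H m R = ⊥ := by
    rw [LieAlgebra.isSolvable_iff K] at hR
    obtain ⟨k, hk⟩ := hR
    exact ⟨k, (LieIdeal.derivedSeries_eq_bot_iff R k).1 hk⟩
  have key : ∀ j : ℕ, j ≤ m → ∀ b ∈ LieAlgebra.derivedSeriesOfIdeal K H (m - j) R,
      ∃ c : K, ρ b = c • (1 : End K V) := by
    intro j
    induction j with
    | zero =>
      intro _ b hb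
      rw [Nat.sub_zero, hm, LieSubmodule.mem_bot] at hb
      exact ⟨0, by rw [hb, map_zero, zero_smul]⟩
    | succ j ih =>
      intro hj
      obtain ⟨k, hk⟩ : ∃ k, k = m - (j + 1) := ⟨_, rfl⟩
      have hk1 : m - j = k + 1 := by omega
      rw [← hk]
      apply abel_scal p hn ρ hρ hI (LieAlgebra.derivedSeriesOfIdeal K H k R)
      intro a ha b hb
      have h1 : ⁅a, b⁆ ∈ LieAlgebra.derivedSeriesOfIdeal K H (k + 1) R := by
        rw [LieAlgebra.derivedSeriesOfIdeal_succ]
        exact LieSubmodule.lie_mem_lie ha hb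
      rw [← hk1] at h1
      obtain ⟨c, hc⟩ := ih (by omega) _ h1
      rw [hρ a b] at hc
      have h2 : LinearMap.trace K V (ρ a * ρ b - ρ b * ρ a) = 0 := by
        rw [map_sub, LinearMap.trace_mul_comm, sub_self]
      rw [hc, map_smul, LinearMap.trace_one, smul_eq_mul] at h2
      rcases mul_eq_zero.1 h2 with h3 | h3
      · rw [h3, zero_smul, sub_eq_zero] at hc
        exact hc
      · exact absurd h3 hdim
  intro r hr
  have h1 := key m le_rfl
  rw [Nat.sub_self] at h1
  exact h1 r hr

end H18.KG
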