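import Pool.Agent.H18.KG.Si
import Pool.Agent.H18.KG.Rs

/-!
[H18 KG SS] weight 2, MP_9fed08_al.  Semisimplification with the scalars removed (imports used as given).

Strong induction on `d = finrank V`.
(a) `V` trivial (`d = 0`): `V' = V`, `ρ' = ρ`; every `ρ x = 0` (`End K V` is a subsingleton); `k = 0`.
(b) `ρ` irreducible (`Irr ρ`), `n = finrank V`, `0 < n < p`: `ρ' x = ρ x - (trace (ρ x) / n) • 1`.  `Brk`: the trace of
`ρ ⁅x, y⁆ = ρ x * ρ y - ρ y * ρ x` is zero.  For `R` solvable `ρ r = c • 1` (`solv_scal`), so `ρ' r = 0`.  If `ρ' x = 0`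
for `x ∈ I`, then `ρ x` is a scalar for `x ∈ I`, so `ρ ⁅x, y⁆ = 0` for `x, y ∈ I`; `D 1 = ⁅I, I⁆` is the span of such
brackets (`LieSubmodule.lieIdeal_oper_eq_span`, `Submodule.span_induction`): `k = 1`.
(c) otherwise there is `W ≠ ⊥, ⊤` invariant; `rsub_exists`, `rquo_exists`, induction for `W` and `V / W` gives
`ρ1, ρ2`; `ρ'` = their sum (`rprod_exists`), `finrank (V1 × V2) ≤ finrank W + finrank (V / W) = finrank V`
(`Submodule.finrank_quotient_add_finrank`).  `I` with `ρ' (I) = 0`: `k1`, `k2` from the two parts, `k = max k1 k2`;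
`D k ≤ D k1, D k2` (`LieAlgebra.derivedSeriesOfIdeal_le`, antitone): every `x ∈ D k` has `ρ x (V) ≤ W` and
`ρ x (W) = 0`, so `ρ x * ρ y = 0` for `x, y ∈ D k`, `ρ ⁅x, y⁆ = 0`, so `ρ` vanishes on `D (k + 1)`.
-/

set_option autoImplicit false

namespace H18.KG

open Module

private theorem ss_van {K : Type} [Field K] {H : Type} [LieRing H] [LieAlgebra K H] {V : Type}
    [AddCommGroup V] [Module K V] (ρ : H →ₗ[K] End K V) (I : LieIdeal K H)
    (h : ∀ x ∈ I, ∀ y ∈ I, ρ ⁅x, y⁆ = 0) : ∀ z ∈ ⁅I, I⁆, ρ z = 0 := by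
  intro z hz
  have h1 : z ∈ (⁅I, I⁆ : LieIdeal K H).toSubmodule := hz
  rw [LieSubmodule.lieIdeal_oper_eq_linear_span'] at h1
  have h2 : Submodule.span K {m : H | ∃ x ∈ I, ∃ n ∈ I, ⁅x, n⁆ = m} ≤ LinearMap.ker ρ := by
    rw [Submodule.span_le]
    rintro _ ⟨x, hx, y, hy, rfl⟩
    exact h x hx y hy
  exact h2 h1

theorem semis (p : ℕ) [Fact p.Prime] {K : Type} [Field K] [IsAlgClosed K] [CharP K p]
    {H : Type} [LieRing H] [LieAlgebra K H] :
    ∀ (d : ℕ) (V : Type) [AddCommGroup V] [Module K V] [FiniteDimensional K V]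
      (ρ : H →ₗ[K] End K V), H18.KC.Brk ρ → finrank K V = d → finrank K V < p →
    ∃ (V' : Type) (_ : AddCommGroup V') (_ : Module K V') (_ : FiniteDimensional K V')
      (ρ' : H →ₗ[K] End K V'), H18.KC.Brk ρ' ∧ finrank K V' ≤ finrank K V ∧
      (∀ R : LieIdeal K H, LieAlgebra.IsSolvable R → ∀ r ∈ R, ρ' r = 0) ∧
      (∀ I : LieIdeal K H, (∀ x ∈ I, ρ' x = 0) →
        ∃ k : ℕ, ∀ x ∈ LieAlgebra.derivedSeriesOfIdeal K H k I, ρ x = 0) := by
  intro d
  induction d using Nat.strong_induction_on with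
  | _ d ih =>
  intro V _ _ _ ρ hρ hd hp
  rcases subsingleton_or_nontrivial V with hV | hV
  · exact ⟨V, inferInstance, inferInstance, inferInstance, ρ, hρ, le_rfl,
      fun R _ r _ => LinearMap.ext fun v => Subsingleton.elim _ _,
      fun I _ => ⟨0, fun x _ => LinearMap.ext fun v => Subsingleton.elim _ _⟩⟩
  by_cases hI : Irr ρ
  · have hn0 : 0 < finrank K V := Module.finrank_pos
    have hn : (finrank K V : K) ≠ 0 := by
      intro h
      rw [CharP.cast_eq_zero_iff K p] at h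
      exact absurd (Nat.le_of_dvd hn0 h) (not_le.2 hp)
    set ρ' : H →ₗ[K] End K V := ρ - LinearMap.smulRight
      ((finrank K V : K)⁻¹ • (LinearMap.trace K V ∘ₗ ρ)) (1 : End K V) with hρ'
    have hap : ∀ x, ρ' x = ρ x - ((finrank K V : K)⁻¹ * LinearMap.trace K V (ρ x)) •
        (1 : End K V) := fun x => rfl
    refine ⟨V, inferInstance, inferInstance, inferInstance, ρ', ?_, le_rfl, ?_, ?_⟩
    · intro x y
      rw [hap, hap, hap, hρ x y, map_sub, LinearMap.trace_mul_comm, sub_self, mul_zero, zero_smul,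
        sub_zero]
      simp only [sub_mul, mul_sub, smul_mul_assoc, mul_smul_comm, one_mul, mul_one]
      module
    · intro R hR r hr
      obtain ⟨c, hc⟩ := solv_scal p hp ρ hρ hI R hR r hr
      rw [hap, hc, map_smul, LinearMap.trace_one, smul_eq_mul, mul_comm c, ← mul_assoc,
        inv_mul_cancel₀ hn, one_mul, sub_self]
    · intro I hIv
      refine ⟨1, ?_⟩
      rw [LieAlgebra.derivedSeriesOfIdeal_succ, LieAlgebra.derivedSeriesOfIdeal_zero]
      apply ss_van
      intro x hx y hy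
      have h1 := hIv x hx
      rw [hap, sub_eq_zero] at h1
      rw [hρ x y, h1]
      simp only [smul_mul_assoc, mul_smul_comm, one_mul, mul_one, sub_self]
  · have h1 : ∃ W : Submodule K V, (∀ x : H, ∀ w ∈ W, ρ x w ∈ W) ∧ W ≠ ⊥ ∧ W ≠ ⊤ := by
      by_contra hc
      apply hI
      refine ⟨hV, fun W hW => ?_⟩
      by_contra h2
      rw [not_or] at h2
      exact hc ⟨W, hW, h2.1, h2.2⟩
    obtain ⟨W, hW, hWb, hWt⟩ := h1
    have hWl : finrank K W < finrank K V := Submodule.finrank_lt hWt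
    have hWs : finrank K (V ⧸ W) + finrank K W = finrank K V :=
      Submodule.finrank_quotient_add_finrank W
    have hW0 : 0 < finrank K W := by
      rw [Nat.pos_iff_ne_zero]
      intro h
      exact hWb (Submodule.finrank_eq_zero.1 h)
    obtain ⟨ρW, hρW, hρWv⟩ := rsub_exists ρ hρ W hW
    obtain ⟨ρQ, hρQ, hρQv⟩ := rquo_exists ρ hρ W hW
    obtain ⟨V1, _, _, _, ρ1, hb1, hf1, hs1, hk1⟩ := ih (finrank K W) (by omega) W ρW hρW rfl
      (by omega)
    obtain ⟨V2, _, _, _, ρ2, hb2, hf2, hs2, hk2⟩ := ih (finrank K (V ⧸ W)) (by omega) (V ⧸ W) ρQ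
      hρQ rfl (by omega)
    obtain ⟨σ, hσb, hσ⟩ := rprod_exists ρ1 hb1 ρ2 hb2
    refine ⟨V1 × V2, inferInstance, inferInstance, inferInstance, σ, hσb, ?_, ?_, ?_⟩
    · rw [Module.finrank_prod]
      omega
    · intro R hR r hr
      refine LinearMap.ext fun v => ?_
      obtain ⟨v1, v2⟩ := v
      rw [hσ, hs1 R hR r hr, hs2 R hR r hr]
      rfl
    · intro I hIv
      obtain ⟨k1, hk1⟩ := hk1 I fun x hx => LinearMap.ext fun v => by
        have h2 := hσ x v 0
        rw [hIv x hx] at h2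
        exact (Prod.ext_iff.1 h2).1.symm
      obtain ⟨k2, hk2⟩ := hk2 I fun x hx => LinearMap.ext fun v => by
        have h2 := hσ x 0 v
        rw [hIv x hx] at h2
        exact (Prod.ext_iff.1 h2).2.symm
      refine ⟨max k1 k2 + 1, ?_⟩
      rw [LieAlgebra.derivedSeriesOfIdeal_succ]
      apply ss_van
      have h3 : ∀ x ∈ LieAlgebra.derivedSeriesOfIdeal K H (max k1 k2) I,
          (∀ w ∈ W, ρ x w = 0) ∧ ∀ v, ρ x v ∈ W := by
        intro x hx
        have hx1 := LieAlgebra.derivedSeriesOfIdeal_le (le_refl I) (le_max_left k1 k2) hx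
        have hx2 := LieAlgebra.derivedSeriesOfIdeal_le (le_refl I) (le_max_right k1 k2) hx
        constructor
        · intro w hw
          have h4 := hρWv x ⟨w, hw⟩
          rw [hk1 x hx1] at h4
          exact h4.symm
        · intro v
          have h4 := hρQv x v
          rw [hk2 x hx2] at h4
          have h5 : W.mkQ (ρ x v) = 0 := h4.symm
          rwa [Submodule.mkQ_apply, Submodule.Quotient.mk_eq_zero] at h5
      intro x hx y hy
      rw [hρ x y]
      refine LinearMap.ext fun v => ?_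
      rw [LinearMap.sub_apply, Module.End.mul_apply, Module.End.mul_apply,
        (h3 x hx).1 _ ((h3 y hy).2 v), (h3 y hy).1 _ ((h3 x hx).2 v), sub_self]
      rfl

end H18.KG
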